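import Mathlib

open MeasureTheory Real Filter Topology Set

namespace PoolH296.WHardy

/-- One-dimensional radial weighted inequality for mean-zero functions. -/
theorem radial1 {n : ℕ} (hn : 1 ≤ n) {α b Λ R : ℝ} (hΛ : 0 < Λ) (hR : 0 < R) {φ φ' : ℝ → ℝ}
    (hφ : ∀ r, HasDerivAt φ (φ' r) r) (hφ' : Continuous φ')
    (hmean : ∫ r in (0:ℝ)..R, r^(n-1) * (1+r^2)^(α-1) * φ r = 0)
    (hcond : ∀ r : ℝ, 0 < r →
      Λ ≤ 4*b+2*b*n-2*n*(1-α)-4*b*(b+α)*(r^2/(1+r^2))) :
    Λ * (∫ r in (0:ℝ)..R, r^(n-1) * (1+r^2)^(α-1) * φ r^2)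
      ≤ ∫ r in (0:ℝ)..R, r^(n-1) * (1+r^2)^α * φ' r^2 := by
  have hφc : Continuous φ := by
    rw [continuous_iff_continuousAt]
    intro t; exact (hφ t).continuousAt
  have hWc : ∀ c : ℝ, Continuous (fun r : ℝ => (1+r^2)^c) := by
    intro c
    apply Continuous.rpow_const (by fun_prop)
    intro t; left; positivity
  have hWc1 := hWc (α-1)
  have hWc2 := hWc α
  set f : ℝ → ℝ := fun r => r^(n-1) * (1+r^2)^(α-1) * φ r with hf
  have hfc : Continuous f := by fun_prop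
  set H : ℝ → ℝ := fun r => ∫ t in (0:ℝ)..r, f t with hH
  have hHd : ∀ r, HasDerivAt H (f r) r := fun r =>
    intervalIntegral.integral_hasDerivAt_right (hfc.intervalIntegrable _ _)
      (hfc.stronglyMeasurableAtFilter _ _) hfc.continuousAt
  have hHR : H R = 0 := hmean
  set g : ℝ → ℝ := fun r => (1/Λ) * (r^(n-1) * (1+r^2)^α * φ' r^2)
    - r^(n-1) * (1+r^2)^(α-1) * φ r^2 with hg
  have hgc : Continuous g := by fun_prop
  set G : ℝ → ℝ := fun r => ∫ t in (0:ℝ)..r, g t with hG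
  have hGd : ∀ r, HasDerivAt G (g r) r := fun r =>
    intervalIntegral.integral_hasDerivAt_right (hgc.intervalIntegrable _ _)
      (hgc.stronglyMeasurableAtFilter _ _) hgc.continuousAt
  set Q : ℝ → ℝ := fun r => n * ((1+r^2)^(1-α) * r^(-(n:ℝ))) - 2*b*((1+r^2)^(-α) * r^(2-(n:ℝ)))
    with hQ
  set B : ℝ → ℝ := fun r => 2 * (φ r * H r) - Q r * H r^2 with hB
  have hWd : ∀ (c r : ℝ), HasDerivAt (fun r : ℝ => (1+r^2)^c) (c * (1+r^2)^(c-1) * (2*r)) r := by
    intro c r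
    have h1 : HasDerivAt (fun r : ℝ => 1+r^2) (2*r) r := by
      have := (hasDerivAt_pow 2 r).const_add 1
      simpa using this
    have h2 := h1.rpow_const (p := c) (Or.inl (by positivity))
    convert h2 using 1
    ring
  have hpd : ∀ (c r : ℝ), 0 < r → HasDerivAt (fun r : ℝ => r^c) (c * r^(c-1)) r := by
    intro c r hr
    exact Real.hasDerivAt_rpow_const (Or.inl hr.ne')
  have hBd : ∀ r, 0 < r → HasDerivAt B (2 * (φ' r * H r + φ r * f r)
      - ((n * ((1-α) * (1+r^2)^(1-α-1) * (2*r) * r^(-(n:ℝ))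
          + (1+r^2)^(1-α) * (-(n:ℝ) * r^(-(n:ℝ)-1)))
        - 2*b*((-α) * (1+r^2)^(-α-1) * (2*r) * r^(2-(n:ℝ))
          + (1+r^2)^(-α) * ((2-(n:ℝ)) * r^(2-(n:ℝ)-1)))) * H r^2
        + Q r * (2 * H r * f r))) r := by
    intro r hr
    have h1 := ((hφ r).mul (hHd r)).const_mul 2
    have h2 := ((hWd (1-α) r).mul (hpd (-(n:ℝ)) r hr)).const_mul (n:ℝ)
    have h3 := ((hWd (-α) r).mul (hpd (2-(n:ℝ)) r hr)).const_mul (2*b)
    have h4 := h2.sub h3
    have h5 : HasDerivAt (fun r => H r^2) (2 * H r * f r) r := by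
      have := (hHd r).fun_pow 2
      simpa using this
    have h6 := h4.mul h5
    exact h1.sub h6
  have hkey : ∀ r, 0 < r → 0 ≤ g r + (2 * (φ' r * H r + φ r * f r)
      - ((n * ((1-α) * (1+r^2)^(1-α-1) * (2*r) * r^(-(n:ℝ))
          + (1+r^2)^(1-α) * (-(n:ℝ) * r^(-(n:ℝ)-1)))
        - 2*b*((-α) * (1+r^2)^(-α-1) * (2*r) * r^(2-(n:ℝ))
          + (1+r^2)^(-α) * ((2-(n:ℝ)) * r^(2-(n:ℝ)-1)))) * H r^2
        + Q r * (2 * H r * f r))) := by
    intro r hr
    have hW : 0 < 1+r^2 := by positivity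
    have hc := hcond r hr
    simp only [hg, hQ, hf]
    have e1 : (1+r^2)^(α-1) = (1+r^2)^α / (1+r^2) := Real.rpow_sub_one hW.ne' _
    have e2 : (1+r^2)^(1-α-1) = ((1+r^2)^α)⁻¹ := by
      rw [← Real.rpow_neg hW.le]; congr 1; ring
    have e3 : (1+r^2)^(1-α) = (1+r^2) / (1+r^2)^α := by
      rw [Real.rpow_sub hW, Real.rpow_one]
    have e4 : (1+r^2)^(-α) = ((1+r^2)^α)⁻¹ := Real.rpow_neg hW.le _
    have e5 : (1+r^2)^(-α-1) = ((1+r^2)^α)⁻¹ / (1+r^2) := by
      rw [Real.rpow_sub_one hW.ne', e4]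
    have hn1 : (n:ℝ) = ((n-1:ℕ):ℝ) + 1 := by
      rw [Nat.cast_sub hn]; ring
    have e6 : r^(-(n:ℝ)) = (r^(n-1) * r)⁻¹ := by
      rw [Real.rpow_neg hr.le, hn1, Real.rpow_add_one hr.ne', Real.rpow_natCast]
    have e7 : r^(-(n:ℝ)-1) = (r^(n-1) * r)⁻¹ / r := by
      rw [Real.rpow_sub_one hr.ne', e6]
    have e8 : r^(2-(n:ℝ)) = (r^(n-1) * r)⁻¹ * r^2 := by
      rw [show (2:ℝ) - n = -(n:ℝ) + 2 by ring, Real.rpow_add hr, e6]
      norm_num
    have e9 : r^(2-(n:ℝ)-1) = (r^(n-1) * r)⁻¹ * r := by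
      rw [Real.rpow_sub_one hr.ne', e8]
      field_simp
    rw [e1, e2, e3, e4, e5, e6, e7, e8, e9]
    have hA : 0 < (1+r^2)^α := Real.rpow_pos_of_pos hW _
    have hN : 0 < r^(n-1) := pow_pos hr _
    set A := (1+r^2)^α
    set N := r^(n-1)
    set W := 1 + r^2 with hWdef
    set p := φ r
    set p' := φ' r
    set K := H r
    have : 0 ≤ (1/(Λ*A*N)) * (p'*A*N + Λ*K)^2
        + (W/(A*N)) * (p*(A/W)*N - ((n:ℝ)/r - 2*b*r/W)*K)^2
        + (K^2/(A*N)) * (4*b+2*b*n-2*n*(1-α)-4*b*(b+α)*(r^2/W) - Λ) := by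
      have h1 : 0 ≤ 4*b+2*b*n-2*n*(1-α)-4*b*(b+α)*(r^2/W) - Λ := by linarith
      positivity
    refine this.trans_eq ?_
    field_simp
    ring
  have hmono : ∀ ε : ℝ, 0 < ε → ε ≤ R → G ε + B ε ≤ G R := by
    intro ε hε hεR
    have hd : ∀ r, 0 < r → HasDerivAt (fun r => G r + B r) _ r := fun r hr =>
      (hGd r).add (hBd r hr)
    have hm : MonotoneOn (fun r => G r + B r) (Icc ε R) := by
      apply monotoneOn_of_deriv_nonneg (convex_Icc ε R)
      · intro r hr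
        exact (hd r (lt_of_lt_of_le hε hr.1)).continuousAt.continuousWithinAt
      · intro r hr
        rw [interior_Icc] at hr
        exact (hd r (lt_trans hε hr.1)).differentiableAt.differentiableWithinAt
      · intro r hr
        rw [interior_Icc] at hr
        rw [(hd r (lt_trans hε hr.1)).deriv]
        exact hkey r (lt_trans hε hr.1)
    have := hm (left_mem_Icc.2 hεR) (right_mem_Icc.2 hεR) hεR
    have hBR : B R = 0 := by simp [hB, hHR]
    simpa [hBR] using this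
  -- `B ε → 0`
  have hBlim : Tendsto B (𝓝[>] 0) (𝓝 0) := by
    have hcc : Continuous (fun r : ℝ => (1+r^2)^(α-1) * φ r) := by fun_prop
    obtain ⟨C, hC⟩ := (isCompact_Icc (a := (0:ℝ)) (b := 1)).exists_bound_of_continuousOn
      hcc.continuousOn
    have hHb : ∀ r, 0 < r → r ≤ 1 → |H r| ≤ C * r^n := by
      intro r hr hr1
      have h1 : ∀ t ∈ Set.uIoc (0:ℝ) r, ‖f t‖ ≤ C * r^(n-1) := by
        intro t ht
        rw [uIoc_of_le hr.le] at ht
        have h2 := hC t ⟨ht.1.le, ht.2.trans hr1⟩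
        have h3 : f t = t^(n-1) * ((1+t^2)^(α-1) * φ t) := by simp only [hf]; ring
        rw [h3, norm_mul, Real.norm_of_nonneg (pow_nonneg ht.1.le _), mul_comm]
        have h4 : t^(n-1) ≤ r^(n-1) := pow_le_pow_left₀ ht.1.le ht.2 _
        have hC0 : 0 ≤ C := le_trans (norm_nonneg _) h2
        exact mul_le_mul h2 h4 (pow_nonneg ht.1.le _) hC0
      have h2 := intervalIntegral.norm_integral_le_of_norm_le_const h1
      rw [sub_zero, abs_of_pos hr] at h2
      calc |H r| = ‖∫ t in (0:ℝ)..r, f t‖ := rfl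
        _ ≤ C * r^(n-1) * r := h2
        _ = C * r^n := by
            rw [mul_assoc, ← pow_succ, Nat.sub_add_cancel hn]
    -- bound for `Q H²`
    have h1 : Tendsto (fun r => 2 * (φ r * H r)) (𝓝[>] 0) (𝓝 0) := by
      have hHc : ContinuousAt H 0 := (hHd 0).continuousAt
      have : ContinuousAt (fun r => 2 * (φ r * H r)) 0 := by fun_prop
      have h2 := this.tendsto
      have h3 : H 0 = 0 := by simp [hH]
      simp only [h3, mul_zero] at h2
      exact h2.mono_left nhdsWithin_le_nhds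
    have hQH : Tendsto (fun r => Q r * H r^2) (𝓝[>] 0) (𝓝 0) := by
      have hbd : ∀ᶠ r in 𝓝[>] (0:ℝ), ‖Q r * H r^2‖
          ≤ (n * (1+r^2)^(1-α) + 2 * |b| * (1+r^2)^(-α) * r^2) * C^2 * r^n := by
        have : Ioc (0:ℝ) 1 ∈ 𝓝[>] (0:ℝ) := Ioc_mem_nhdsGT one_pos
        filter_upwards [this] with r hr
        have hr0 : 0 < r := hr.1
        have hW : 0 < 1+r^2 := by positivity
        have h4 : H r^2 ≤ C^2 * (r^n * r^n) := by
          have := pow_le_pow_left₀ (abs_nonneg _) (hHb r hr.1 hr.2) 2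
          rw [sq_abs] at this
          calc _ ≤ _ := this
            _ = _ := by ring
        have h5 : |Q r| ≤ (n * (1+r^2)^(1-α) + 2 * |b| * (1+r^2)^(-α) * r^2) * r^(-(n:ℝ)) := by
          have e8 : r^(2-(n:ℝ)) = r^2 * r^(-(n:ℝ)) := by
            rw [show (2:ℝ) - n = 2 + -(n:ℝ) by ring, Real.rpow_add hr0]
            norm_num
          simp only [hQ]
          rw [e8]
          have a1 : 0 < (1+r^2)^(1-α) := Real.rpow_pos_of_pos hW _
          have a2 : 0 < (1+r^2)^(-α) := Real.rpow_pos_of_pos hW _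
          have a3 : 0 < r^(-(n:ℝ)) := Real.rpow_pos_of_pos hr0 _
          calc |(n:ℝ) * ((1+r^2)^(1-α) * r^(-(n:ℝ))) - 2*b*((1+r^2)^(-α) * (r^2 * r^(-(n:ℝ))))|
              ≤ |(n:ℝ) * ((1+r^2)^(1-α) * r^(-(n:ℝ)))|
                + |2*b*((1+r^2)^(-α) * (r^2 * r^(-(n:ℝ))))| := abs_sub _ _
            _ = _ := by
                rw [abs_mul, abs_mul (2*b), abs_mul 2 b, abs_of_pos (mul_pos a1 a3),
                  abs_of_pos (mul_pos a2 (mul_pos (pow_pos hr0 2) a3)), Nat.abs_cast,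
                  abs_of_pos (two_pos (α := ℝ))]
                ring
        have h6 : r^(-(n:ℝ)) * r^n = 1 := by
          rw [← Real.rpow_natCast r n, ← Real.rpow_add hr0]; simp
        rw [norm_mul, Real.norm_eq_abs, Real.norm_of_nonneg (sq_nonneg (H r))]
        calc |Q r| * H r^2 ≤ ((n * (1+r^2)^(1-α) + 2 * |b| * (1+r^2)^(-α) * r^2) * r^(-(n:ℝ)))
              * (C^2 * (r^n * r^n)) := by
              apply mul_le_mul h5 h4 (sq_nonneg _)
              positivity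
          _ = (n * (1+r^2)^(1-α) + 2 * |b| * (1+r^2)^(-α) * r^2) * C^2 * r^n
              * (r^(-(n:ℝ)) * r^n) := by ring
          _ = _ := by rw [h6, mul_one]
      have hlim : Tendsto (fun r : ℝ => (n * (1+r^2)^(1-α) + 2 * |b| * (1+r^2)^(-α) * r^2) * C^2 * r^n)
          (𝓝[>] 0) (𝓝 0) := by
        have hc1 := hWc (1-α)
        have hc2 := hWc (-α)
        have hcont : Continuous (fun r : ℝ =>
          (n * (1+r^2)^(1-α) + 2 * |b| * (1+r^2)^(-α) * r^2) * C^2 * r^n) := by fun_prop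
        have h7 := hcont.tendsto 0
        have h8 : ((0:ℝ))^n = 0 := by
          apply zero_pow; omega
        simp only [h8, mul_zero] at h7
        exact h7.mono_left nhdsWithin_le_nhds
      exact squeeze_zero_norm' hbd hlim
    have := h1.sub hQH
    simpa using this
  have hGlim : Tendsto G (𝓝[>] 0) (𝓝 0) := by
    have h1 : ContinuousAt G 0 := (hGd 0).continuousAt
    have h2 := h1.tendsto
    have h3 : G 0 = 0 := by simp [hG]
    rw [h3] at h2
    exact h2.mono_left nhdsWithin_le_nhds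
  have hfin : 0 ≤ G R := by
    have h1 := hGlim.add hBlim
    rw [add_zero] at h1
    apply le_of_tendsto h1
    have : Ioc (0:ℝ) R ∈ 𝓝[>] (0:ℝ) := Ioc_mem_nhdsGT hR
    filter_upwards [this] with ε hε
    exact hmono ε hε.1 hε.2
  have hGR : G R = (1/Λ) * (∫ r in (0:ℝ)..R, r^(n-1) * (1+r^2)^α * φ' r^2)
      - ∫ r in (0:ℝ)..R, r^(n-1) * (1+r^2)^(α-1) * φ r^2 := by
    simp only [hG, hg]
    rw [intervalIntegral.integral_sub, intervalIntegral.integral_const_mul]
    · apply Continuous.intervalIntegrable; fun_prop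
    · apply Continuous.intervalIntegrable; fun_prop
  rw [hGR] at hfin
  have h2 := mul_le_mul_of_nonneg_left (sub_nonneg.1 hfin) hΛ.le
  calc _ ≤ _ := h2
    _ = _ := by field_simp

end PoolH296.WHardy
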