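import Pool.Agent.H296R3.Mean
import Pool.Agent.H296R3.Radial

open MeasureTheory Real Filter Topology Set
open scoped ContDiff

namespace PoolH296.WHardy

section neg

variable {n : ℕ} [NeZero n]

theorem integral_Ioi_eq_interval {G : ℝ → ℝ} {R : ℝ} (hR : 0 < R) (hG : ∀ r, R < r → G r = 0) :
    ∫ r in Ioi (0:ℝ), G r = ∫ r in (0:ℝ)..R, G r := by
  rw [intervalIntegral.integral_of_le hR.le]
  apply setIntegral_eq_of_subset_of_forall_diff_eq_zero measurableSet_Ioi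
    (fun x hx => hx.1)
  intro x hx
  apply hG
  by_contra hcon
  exact hx.2 ⟨hx.1, not_lt.1 hcon⟩

theorem polar_radial {q : ℝ → ℝ} (hq : Continuous q) {R : ℝ} (hR : 0 < R)
    (hqR : ∀ r, R < r → q r = 0) :
    ∫ x : E n, q ‖x‖ = (sig n).real univ * ∫ r in (0:ℝ)..R, r^(n-1) * q r := by
  have hi : Integrable (fun x : E n => q ‖x‖) := by
    apply Continuous.integrable_of_hasCompactSupport (hq.comp continuous_norm)
    apply HasCompactSupport.intro (K := Metric.closedBall 0 R) (isCompact_closedBall _ _)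
    intro x hx
    rw [mem_closedBall_zero_iff, not_le] at hx
    exact hqR _ hx
  rw [polar hi, ← integral_Ioi_eq_interval hR (fun r hr => by rw [hqR r hr, mul_zero]),
    ← integral_const_mul]
  apply setIntegral_congr_fun measurableSet_Ioi
  intro r hr
  have hr' : 0 < r := hr
  simp only [smul_sphere_norm, abs_of_pos hr']
  rw [integral_const, smul_eq_mul]
  ring

theorem lower_neg {α b Λ : ℝ} (hα : α < 0) (hΛ : 0 < Λ) (hΛ2 : Λ ≤ -2*α)
    (hcond : ∀ r : ℝ, 0 < r →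
      Λ ≤ 4*b+2*b*n-2*n*(1-α)-4*b*(b+α)*(r^2/(1+r^2)))
    {u : E n → ℝ} (hu : ContDiff ℝ 1 u) (hs : HasCompactSupport u)
    (hmean : ∫ x, (1+‖x‖^2)^(α-1) * u x = 0) :
    Λ * (∫ x, (1+‖x‖^2)^(α-1) * u x^2) ≤ ∫ x, (1+‖x‖^2)^α * ‖gradient u x‖^2 := by
  have hgrad : ∀ x, ‖gradient u x‖ = ‖fderiv ℝ u x‖ := by
    intro x; unfold gradient; rw [LinearIsometryEquiv.norm_map]
  simp_rw [hgrad]
  rw [split_mass hu hs, split_energy hu hs]
  have hn : 1 ≤ n := NeZero.one_le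
  -- nonradial part
  have hdc : Continuous (fderiv ℝ u) := hu.continuous_fderiv one_ne_zero
  have hN := nonradial (n := n) (a := -α) (by linarith) (v := fun x => u x - Phi u x)
    (v' := fun x => fderiv ℝ u x - Phi' u x)
    (fun x => ((hu.differentiable one_ne_zero) x).hasFDerivAt.sub (Phi_hasFDerivAt hu hs x))
    (hdc.sub (Phi'_continuous hu hs)) (hs.sub (Phi_support hs))
    ((hs.fderiv (𝕜 := ℝ)).sub (Phi'_support hs))
    (fun s _ => ortho hu hs (q := fun t => exp (-s*t^2)) (by fun_prop))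
  rw [neg_neg] at hN
  -- radial part
  obtain ⟨R, hR0, hR⟩ := phi_support (u := u) hs
  have hphic : Continuous (phi u) := by
    rw [continuous_iff_continuousAt]
    intro t; exact (phi_hasDerivAt hu hs t).continuousAt
  have hdphic := dphi_continuous hu hs
  have hWc : ∀ c : ℝ, Continuous (fun r : ℝ => (1+r^2)^c) := by
    intro c
    apply Continuous.rpow_const (by fun_prop)
    intro t; left; positivity
  have hWc1 := hWc (α-1)
  have hWc2 := hWc α
  have hR' : ∀ r, R < r → phi u r = 0 ∧ dphi u r = 0 := fun r hr =>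
    hR r (lt_of_lt_of_le hr (le_abs_self r))
  have E1 : ∫ x : E n, (1+‖x‖^2)^(α-1) * Phi u x^2
      = (sig n).real univ * ∫ r in (0:ℝ)..R, r^(n-1) * ((1+r^2)^(α-1) * phi u r^2) :=
    polar_radial (q := fun r => (1+r^2)^(α-1) * phi u r^2) (by fun_prop) hR0
      (fun r hr => by simp [(hR' r hr).1])
  have E2 : ∫ x : E n, (1+‖x‖^2)^α * ‖Phi' u x‖^2
      = (sig n).real univ * ∫ r in (0:ℝ)..R, r^(n-1) * ((1+r^2)^α * dphi u r^2) := by
    simp_rw [Phi'_norm_sq]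
    exact polar_radial (q := fun r => (1+r^2)^α * dphi u r^2) (by fun_prop) hR0
      (fun r hr => by simp [(hR' r hr).2])
  have E3 : ∫ x : E n, (1+‖x‖^2)^(α-1) * Phi u x
      = (sig n).real univ * ∫ r in (0:ℝ)..R, r^(n-1) * ((1+r^2)^(α-1) * phi u r) :=
    polar_radial (q := fun r => (1+r^2)^(α-1) * phi u r) (by fun_prop) hR0
      (fun r hr => by simp [(hR' r hr).1])
  have hWE : Continuous (fun x : E n => (1+‖x‖^2)^(α-1)) := continuous_W _
  have E4 : ∫ x : E n, (1+‖x‖^2)^(α-1) * Phi u x = 0 := by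
    have h0 := ortho hu hs (q := fun r => (1+r^2)^(α-1)) (hWc (α-1))
    have i1 : Integrable (fun x : E n => (1+‖x‖^2)^(α-1) * u x) := by
      apply Continuous.integrable_of_hasCompactSupport
      · exact hWE.mul hu.continuous
      · exact hs.mul_left
    have i2 : Integrable (fun x : E n => (1+‖x‖^2)^(α-1) * Phi u x) := by
      apply Continuous.integrable_of_hasCompactSupport
      · exact hWE.mul (Phi_continuous hu hs)
      · exact (Phi_support hs).mul_left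
    have e : ∀ x : E n, (u x - Phi u x) * (1+‖x‖^2)^(α-1)
        = (1+‖x‖^2)^(α-1) * u x - (1+‖x‖^2)^(α-1) * Phi u x := by
      intro x; ring
    simp_rw [e] at h0
    rw [integral_sub i1 i2, hmean] at h0
    linarith
  have hS := sig_pos (n := n)
  have hmean1 : ∫ r in (0:ℝ)..R, r^(n-1) * (1+r^2)^(α-1) * phi u r = 0 := by
    rw [E4] at E3
    rcases mul_eq_zero.1 E3.symm with h | h
    · exact absurd h hS.ne'
    · simp_rw [← mul_assoc] at h
      exact h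
  have hRad := radial1 hn hΛ hR0 (fun r => phi_hasDerivAt hu hs r) hdphic hmean1 hcond
  rw [E1, E2]
  simp_rw [← mul_assoc]
  have h1 := mul_le_mul_of_nonneg_left hRad hS.le
  have hM0 : 0 ≤ ∫ x : E n, (1+‖x‖^2)^(α-1) * (u x - Phi u x)^2 :=
    integral_nonneg (fun x => by positivity)
  have h2 := mul_le_mul_of_nonneg_right hΛ2 hM0
  linarith

theorem lower_neg1 {α : ℝ} (hα : α ≤ -(n:ℝ)) {u : E n → ℝ} (hu : ContDiff ℝ 1 u) (hs : HasCompactSupport u)
    (hmean : ∫ x, (1+‖x‖^2)^(α-1) * u x = 0) :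
    (-2*α) * (∫ x, (1+‖x‖^2)^(α-1) * u x^2) ≤ ∫ x, (1+‖x‖^2)^α * ‖gradient u x‖^2 := by
  have hn : (1:ℝ) ≤ n := by exact_mod_cast (NeZero.one_le : 1 ≤ n)
  apply lower_neg (b := -α) (by linarith) (by linarith) le_rfl _ hu hs hmean
  intro r hr
  have : 4*(-α)+2*(-α)*n-2*n*(1-α)-4*(-α)*(-α+α)*(r^2/(1+r^2)) = -4*α-2*n := by ring
  rw [this]
  linarith

theorem lower_neg2 {α : ℝ} (hα : -(n:ℝ) ≤ α) (hα2 : α < -((n:ℝ)/2)) {u : E n → ℝ} (hu : ContDiff ℝ 1 u)
    (hs : HasCompactSupport u) (hmean : ∫ x, (1+‖x‖^2)^(α-1) * u x = 0) :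
    (-4*α-2*n) * (∫ x, (1+‖x‖^2)^(α-1) * u x^2) ≤ ∫ x, (1+‖x‖^2)^α * ‖gradient u x‖^2 := by
  have hn : (1:ℝ) ≤ n := by exact_mod_cast (NeZero.one_le : 1 ≤ n)
  apply lower_neg (b := -α) (by linarith) (by linarith) (by linarith) _ hu hs hmean
  intro r hr
  have : 4*(-α)+2*(-α)*n-2*n*(1-α)-4*(-α)*(-α+α)*(r^2/(1+r^2)) = -4*α-2*n := by ring
  rw [this]

theorem lower_neg3 {α : ℝ} (hn2 : 2 ≤ n) (hα : -(((n:ℝ)+2)/2) ≤ α) (hα2 : α < -(((n:ℝ)-2)/2))
    {u : E n → ℝ} (hu : ContDiff ℝ 1 u)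
    (hs : HasCompactSupport u) (hmean : ∫ x, (1+‖x‖^2)^(α-1) * u x = 0) :
    (((n:ℝ)+2*α-2)^2/4) * (∫ x, (1+‖x‖^2)^(α-1) * u x^2)
      ≤ ∫ x, (1+‖x‖^2)^α * ‖gradient u x‖^2 := by
  have hn : (2:ℝ) ≤ n := by exact_mod_cast hn2
  apply lower_neg (b := ((n:ℝ)+2-2*α)/4) (by linarith) _ _ _ hu hs hmean
  · have : (n:ℝ)+2*α-2 < 0 := by linarith
    nlinarith
  · have h1 : (n:ℝ)+2*α-2 < 0 := by linarith
    have h2 : -4 ≤ (n:ℝ)+2*α-2 := by linarith
    nlinarith
  · intro r hr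
    have h1 : r^2/(1+r^2) ≤ 1 := by
      rw [div_le_one (by positivity)]; linarith
    have h2 : 0 ≤ 4*(((n:ℝ)+2-2*α)/4)*(((n:ℝ)+2-2*α)/4+α) := by
      apply mul_nonneg
      · linarith
      · linarith
    have h3 := mul_le_mul_of_nonneg_left h1 h2
    nlinarith

end neg

end PoolH296.WHardy
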