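import Pool.Agent.H296R3.UpperNeg2
import Pool.Agent.H296R3.LowerNeg

open MeasureTheory Real Filter Topology Set
open scoped ContDiff

namespace PoolH296.WHardy

/-- The value of the best constant. -/
noncomputable def value (n : ℕ) (α : ℝ) : ℝ :=
  if -(((n : ℝ) - 2) / 2) < α then
    (if α ≤ 1 + (n : ℝ) / 2 then ((n : ℝ) + 2 * α - 2) ^ 2 / 4 else 2 * n * (α - 1))
  else if α ≤ -(n : ℝ) then -2 * α
  else if α < -(((n : ℝ) + 2) / 2) then -4 * α - 2 * n
  else ((n : ℝ) + 2 * α - 2) ^ 2 / 4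

theorem uX_integral_zero {n : ℕ} (i : Fin n) (m β : ℝ) :
    ∫ x : E n, (1+‖x‖^2)^β * uX i m x = 0 := by
  have h1 : ∫ x : E n, (1+‖-x‖^2)^β * uX i m (-x) = ∫ x : E n, (1+‖x‖^2)^β * uX i m x :=
    integral_neg_eq_self (fun x : E n => (1+‖x‖^2)^β * uX i m x) volume
  have h2 : ∀ x : E n, (1+‖-x‖^2)^β * uX i m (-x) = -((1+‖x‖^2)^β * uX i m x) := by
    intro x
    simp only [uX, uN, norm_neg, PiLp.neg_apply]
    ring
  simp_rw [h2] at h1
  rw [integral_neg] at h1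
  linarith

theorem admissible_nonempty {n : ℕ} (hn : 1 ≤ n) (α : ℝ) : (Admissible n α).Nonempty := by
  refine ⟨uX ⟨0, hn⟩ 1, uX_contDiff _ _, uX_compact _ one_pos, ?_, fun _ => uX_integral_zero _ _ _⟩
  intro h0
  have := congrFun h0 (EuclideanSpace.single ⟨0, hn⟩ (1:ℝ))
  simp [uX, uN, h_one] at this

theorem isGLB_value {n : ℕ} (hn : 2 ≤ n) {α : ℝ} (hα : α ≠ -(((n : ℝ) - 2) / 2)) :
    IsGLB (quotient n α '' Admissible n α) (value n α) := by
  have hn1 : 1 ≤ n := by omega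
  haveI : NeZero n := ⟨by omega⟩
  have hn' : (2:ℝ) ≤ n := by exact_mod_cast hn
  unfold value
  by_cases h1 : -(((n : ℝ) - 2) / 2) < α
  · rw [if_pos h1]
    exact bestConst_eq hn1 h1
  · rw [if_neg h1]
    have h1' : α < -(((n : ℝ) - 2) / 2) := lt_of_le_of_ne (not_lt.1 h1) hα
    constructor
    · rintro _ ⟨u, hu, rfl⟩
      have hm := hu.2.2.2 h1'
      have hu1 : ContDiff ℝ 1 u := hu.1.of_le (by simp)
      apply lower_bound α _ hu1 hu.2.1 hu.2.2.1
      split_ifs with h2 h3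
      · exact lower_neg1 h2 hu1 hu.2.1 hm
      · exact lower_neg2 (not_le.1 h2).le (by linarith) hu1 hu.2.1 hm
      · exact lower_neg3 hn (not_lt.1 h3) h1' hu1 hu.2.1 hm
    · intro c hc
      have hc' : ∀ u ∈ Admissible n α, c ≤ quotient n α u := fun u hu => hc ⟨u, hu, rfl⟩
      split_ifs with h2 h3
      · exact upper_neg1 hn1 (by linarith) hc'
      · exact upper_neg2 hn1 h3 hc'
      · exact upper_neg3 hn1 h1' hc'

end PoolH296.WHardy
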