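import Mathlib

open MeasureTheory Real Filter Topology Set

namespace PoolH296.WHardy

/-- One-dimensional Gaussian Poincaré inequality on a symmetric interval. -/
theorem gauss1_interval {s L : ℝ} (hs : 0 < s) (hL : 0 < L) {f f' : ℝ → ℝ}
    (hf : ∀ t, HasDerivAt f (f' t) t) (hf' : Continuous f') :
    (∫ t in (-L)..L, f t^2 * exp (-s*t^2))
      - (∫ t in (-L)..L, f t * exp (-s*t^2))^2 / (∫ t in (-L)..L, exp (-s*t^2))
      ≤ (1/(2*s)) * ∫ t in (-L)..L, f' t^2 * exp (-s*t^2) := by
  have hfc : Continuous f := by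
    rw [continuous_iff_continuousAt]
    intro t; exact (hf t).continuousAt
  set Z := ∫ t in (-L)..L, exp (-s*t^2) with hZ
  have hZpos : 0 < Z := by
    apply intervalIntegral.intervalIntegral_pos_of_pos_on
    · apply Continuous.intervalIntegrable; fun_prop
    · intro x _; positivity
    · linarith
  set J0 := ∫ t in (-L)..L, f t * exp (-s*t^2) with hI
  set m := J0 / Z with hm
  set H : ℝ → ℝ := fun t => ∫ u in (-L)..t, (f u - m) * exp (-s*u^2) with hH
  have hHd : ∀ t, HasDerivAt H ((f t - m) * exp (-s*t^2)) t := by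
    intro t
    have hc : Continuous (fun u => (f u - m) * exp (-s*u^2)) := by fun_prop
    exact intervalIntegral.integral_hasDerivAt_right (hc.intervalIntegrable _ _)
      (hc.stronglyMeasurableAtFilter _ _) hc.continuousAt
  have hHL : H L = 0 := by
    simp only [hH]
    have : ∀ u, (f u - m) * exp (-s*u^2) = f u * exp (-s*u^2) - m * exp (-s*u^2) := by
      intro u; ring
    simp_rw [this]
    rw [intervalIntegral.integral_sub, intervalIntegral.integral_const_mul, ← hI, ← hZ, hm]
    · field_simp
      ring
    · apply Continuous.intervalIntegrable; fun_prop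
    · apply Continuous.intervalIntegrable; fun_prop
  have hHL' : H (-L) = 0 := by simp [hH]
  have hHc : Continuous H := by
    rw [continuous_iff_continuousAt]
    intro t; exact (hHd t).continuousAt
  set B : ℝ → ℝ := fun t => 2 * (f t - m) * H t + 2 * s * (t * H t^2 * exp (s*t^2)) with hB
  set B' : ℝ → ℝ := fun t => (2 * f' t * H t + 2 * (f t - m) * ((f t - m) * exp (-s*t^2)))
    + 2 * s * ((1 * H t^2 + t * (2 * H t * ((f t - m) * exp (-s*t^2)))) * exp (s*t^2)
      + t * H t^2 * (exp (s*t^2) * (s * (2 * t)))) with hB'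
  have hBd : ∀ t, HasDerivAt B (B' t) t := by
    intro t
    have h1 : HasDerivAt (fun t => 2 * (f t - m)) (2 * f' t) t := ((hf t).sub_const m).const_mul 2
    have h2 := h1.mul (hHd t)
    have h3 : HasDerivAt (fun t => H t^2) (2 * H t * ((f t - m) * exp (-s*t^2))) t := by
      have := (hHd t).fun_pow 2
      simpa using this
    have h4 : HasDerivAt (fun t => t * H t^2)
        (1 * H t^2 + t * (2 * H t * ((f t - m) * exp (-s*t^2)))) t :=
      (hasDerivAt_id' t).mul h3
    have h5 : HasDerivAt (fun t : ℝ => exp (s*t^2)) (exp (s*t^2) * (s * (2 * t))) t := by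
      have : HasDerivAt (fun t : ℝ => s*t^2) (s * (2 * t)) t := by
        have := (hasDerivAt_pow 2 t).const_mul s
        simpa using this
      exact this.exp
    have h6 := (h4.mul h5).const_mul (2*s)
    exact h2.add h6
  have hB'c : Continuous B' := by
    simp only [hB']
    fun_prop
  have hBL : B L = 0 := by simp [hB, hHL]
  have hBL' : B (-L) = 0 := by simp [hB, hHL']
  have hint : ∫ t in (-L)..L, B' t = 0 := by
    rw [intervalIntegral.integral_eq_sub_of_hasDerivAt (fun t _ => hBd t)
      (hB'c.intervalIntegrable _ _), hBL, hBL', sub_zero]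
  have hpt : ∀ t, 0 ≤ (1/(2*s)) * (f' t^2 * exp (-s*t^2)) - (f t - m)^2 * exp (-s*t^2) + B' t := by
    intro t
    have he : exp (s*t^2) = (exp (-s*t^2))⁻¹ := by rw [← exp_neg]; congr 1; ring
    have hg : 0 < exp (-s*t^2) := exp_pos _
    simp only [hB', he]
    set g := exp (-s*t^2)
    have : (1/(2*s)) * (f' t^2 * g) - (f t - m)^2 * g
        + ((2 * f' t * H t + 2 * (f t - m) * ((f t - m) * g))
        + 2 * s * ((1 * H t^2 + t * (2 * H t * ((f t - m) * g))) * g⁻¹
        + t * H t^2 * (g⁻¹ * (s * (2 * t)))))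
        = (1/(2*s)) * g⁻¹ * (f' t * g + 2 * s * H t)^2
          + g⁻¹ * ((f t - m) * g + 2 * s * t * H t)^2 := by
      field_simp
      ring
    rw [this]
    positivity
  have h0 : 0 ≤ ∫ t in (-L)..L, ((1/(2*s)) * (f' t^2 * exp (-s*t^2))
      - (f t - m)^2 * exp (-s*t^2) + B' t) :=
    intervalIntegral.integral_nonneg (by linarith) (fun t _ => hpt t)
  have i1 : IntervalIntegrable (fun t => (1/(2*s)) * (f' t^2 * exp (-s*t^2))) volume (-L) L := by
    apply Continuous.intervalIntegrable; fun_prop
  have i2 : IntervalIntegrable (fun t => (f t - m)^2 * exp (-s*t^2)) volume (-L) L := by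
    apply Continuous.intervalIntegrable; fun_prop
  rw [intervalIntegral.integral_add (i1.sub i2) (hB'c.intervalIntegrable _ _), hint,
    intervalIntegral.integral_sub i1 i2, intervalIntegral.integral_const_mul] at h0
  have e : ∫ t in (-L)..L, (f t - m)^2 * exp (-s*t^2)
      = (∫ t in (-L)..L, f t^2 * exp (-s*t^2)) - J0^2/Z := by
    have : ∀ t, (f t - m)^2 * exp (-s*t^2)
        = (f t^2 * exp (-s*t^2) - 2 * m * (f t * exp (-s*t^2))) + m^2 * exp (-s*t^2) := by
      intro t; ring
    simp_rw [this]
    rw [intervalIntegral.integral_add, intervalIntegral.integral_sub,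
      intervalIntegral.integral_const_mul, intervalIntegral.integral_const_mul, ← hI, ← hZ, hm]
    · field_simp
      ring
    all_goals
      apply Continuous.intervalIntegrable; fun_prop
  rw [e] at h0
  linarith

/-- One-dimensional Gaussian Poincaré inequality for `C¹` functions with compact support. -/
theorem gauss1 {s : ℝ} (hs : 0 < s) {f f' : ℝ → ℝ}
    (hf : ∀ t, HasDerivAt f (f' t) t) (hf' : Continuous f') (hfs : HasCompactSupport f)
    (hfs' : HasCompactSupport f') :
    (∫ t, exp (-s*t^2)) * (∫ t, f t^2 * exp (-s*t^2)) - (∫ t, f t * exp (-s*t^2))^2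
      ≤ (∫ t, exp (-s*t^2)) * ((1/(2*s)) * ∫ t, f' t^2 * exp (-s*t^2)) := by
  have hfc : Continuous f := by
    rw [continuous_iff_continuousAt]
    intro t; exact (hf t).continuousAt
  have hZ : 0 < ∫ t, exp (-s*t^2) := by
    rw [integral_gaussian]; positivity
  have hs2 : HasCompactSupport (fun t => f t^2) := hfs.comp_left (g := fun t : ℝ => t^2) (by simp)
  have hs3 : HasCompactSupport (fun t => f' t^2) := hfs'.comp_left (g := fun t : ℝ => t^2) (by simp)
  have i0 : Integrable (fun t : ℝ => exp (-s*t^2)) := integrable_exp_neg_mul_sq hs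
  have i1 : Integrable (fun t => f t^2 * exp (-s*t^2)) := by
    apply Continuous.integrable_of_hasCompactSupport (by fun_prop)
    exact hs2.mul_right
  have i2 : Integrable (fun t => f t * exp (-s*t^2)) := by
    apply Continuous.integrable_of_hasCompactSupport (by fun_prop)
    exact hfs.mul_right
  have i3 : Integrable (fun t => f' t^2 * exp (-s*t^2)) := by
    apply Continuous.integrable_of_hasCompactSupport (by fun_prop)
    exact hs3.mul_right
  have T0 := intervalIntegral_tendsto_integral i0 tendsto_neg_atTop_atBot tendsto_id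
  have T1 := intervalIntegral_tendsto_integral i1 tendsto_neg_atTop_atBot tendsto_id
  have T2 := intervalIntegral_tendsto_integral i2 tendsto_neg_atTop_atBot tendsto_id
  have T3 := intervalIntegral_tendsto_integral i3 tendsto_neg_atTop_atBot tendsto_id
  have L1 := T1.sub ((T2.pow 2).div T0 hZ.ne')
  have L2 := T3.const_mul (1/(2*s))
  have := le_of_tendsto_of_tendsto L1 L2 (by
    filter_upwards [eventually_gt_atTop 0] with L hL
    exact gauss1_interval hs hL hf hf')
  set Z := ∫ t, exp (-s*t^2)
  set J1 := ∫ t, f t^2 * exp (-s*t^2)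
  set J2 := ∫ t, f t * exp (-s*t^2)
  calc Z * J1 - J2^2 = Z * (J1 - J2^2/Z) := by
        field_simp
    _ ≤ _ := mul_le_mul_of_nonneg_left this hZ.le

end PoolH296.WHardy
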