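import Mathlib

open MeasureTheory Real Filter Topology Set
open scoped ContDiff

namespace PoolH296.WHardy

/-- Euclidean `n`-space. -/
abbrev E (n : ℕ) := EuclideanSpace ℝ (Fin n)

/-- Integration by parts for the radial field: `∫ x·∇F = -n ∫ F`. -/
theorem ibp {n : ℕ} {F : E n → ℝ} (hF : ContDiff ℝ 1 F) (hs : HasCompactSupport F) :
    ∫ x, fderiv ℝ F x x = -(n:ℝ) * ∫ x, F x := by
  have hd : Differentiable ℝ F := hF.differentiable one_ne_zero
  have hc : Continuous (fderiv ℝ F) := hF.continuous_fderiv one_ne_zero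
  have h1 : ∀ x : E n, fderiv ℝ F x x
      = ∑ i : Fin n, x i * fderiv ℝ F x (EuclideanSpace.single i (1:ℝ)) := by
    intro x
    have hx : x = ∑ i : Fin n, x i • EuclideanSpace.single i (1:ℝ) := by
      ext j
      simp [Finset.sum_apply, Pi.single_apply]
    have := congrArg (fderiv ℝ F x) hx
    rw [map_sum] at this
    simpa using this
  have hint : ∀ i : Fin n, Integrable
      (fun x : E n => x i * fderiv ℝ F x (EuclideanSpace.single i (1:ℝ))) := by
    intro i
    apply Continuous.integrable_of_hasCompactSupport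
    · fun_prop
    · apply HasCompactSupport.mul_left
      exact (hs.fderiv (𝕜 := ℝ)).comp_left (g := fun L : E n →L[ℝ] ℝ => L (EuclideanSpace.single i (1:ℝ))) (by simp)
  have hi : ∀ i : Fin n, ∫ x : E n, x i * fderiv ℝ F x (EuclideanSpace.single i (1:ℝ))
      = - ∫ x, F x := by
    intro i
    have hf : ∀ x : E n, HasFDerivAt (fun x : E n => x i)
        (EuclideanSpace.proj i : E n →L[ℝ] ℝ) x := fun x =>
      (EuclideanSpace.proj i : E n →L[ℝ] ℝ).hasFDerivAt
    have hfd : ∀ x : E n, fderiv ℝ (fun x : E n => x i) x (EuclideanSpace.single i (1:ℝ)) = 1 := by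
      intro x
      rw [(hf x).fderiv]
      simp
    have := integral_mul_fderiv_eq_neg_fderiv_mul_of_integrable (μ := volume)
      (f := fun x : E n => x i) (g := F) (v := EuclideanSpace.single i (1:ℝ)) ?_ (hint i) ?_
      (fun x _ => (hf x).differentiableAt) (fun x _ => hd x)
    · rw [this]
      simp [hfd]
    · simp only [hfd, one_mul]
      exact hF.continuous.integrable_of_hasCompactSupport hs
    · apply Continuous.integrable_of_hasCompactSupport
      · have := hF.continuous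
        fun_prop
      · exact hs.mul_left
  simp_rw [h1]
  rw [integral_finsetSum _ (fun i _ => hint i)]
  simp [hi]


theorem W_pos {n : ℕ} (x : E n) : 0 < 1 + ‖x‖^2 := by positivity

theorem contDiff_W {n : ℕ} (s : ℝ) : ContDiff ℝ ∞ (fun x : E n => (1 + ‖x‖^2)^s) := by
  apply ContDiff.rpow_const_of_ne
  · exact contDiff_const.add (contDiff_norm_sq ℝ)
  · intro x; exact (W_pos x).ne'

theorem hasFDerivAt_W {n : ℕ} (s : ℝ) (x : E n) :
    HasFDerivAt (fun x : E n => (1 + ‖x‖^2)^s)
      ((s * (1+‖x‖^2)^(s-1)) • (2 • innerSL ℝ x)) x := by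
  have h1 : HasFDerivAt (fun x : E n => 1 + ‖x‖^2) (2 • innerSL ℝ x) x :=
    (hasStrictFDerivAt_norm_sq x).hasFDerivAt.const_add 1
  have h2 : HasDerivAt (fun t : ℝ => t^s) (s * (1+‖x‖^2)^(s-1)) (1+‖x‖^2) := by
    exact Real.hasDerivAt_rpow_const (Or.inl (W_pos x).ne')
  exact h2.comp_hasFDerivAt x h1

theorem gradient_inner {n : ℕ} (u : E n → ℝ) (x y : E n) :
    fderiv ℝ u x y = inner ℝ (gradient u x) y := by
  unfold gradient
  simp

theorem lower_pointwise {n : ℕ} (α b : ℝ) (u : E n → ℝ) (hu : Differentiable ℝ u) (x : E n) :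
    -2*b*(fderiv ℝ (fun x : E n => (1+‖x‖^2)^(α-1) * u x^2) x x)
      + 4*b*(α-1-b) * (‖x‖^2*(1+‖x‖^2)^(α-2)* u x^2) ≤ (1+‖x‖^2)^α * ‖gradient u x‖^2 := by
  have hW := W_pos x
  have hF : HasFDerivAt (fun x : E n => (1+‖x‖^2)^(α-1) * u x^2)
      ((1+‖x‖^2)^(α-1) • ((2 * u x) • fderiv ℝ u x)
        + (u x^2) • (((α-1) * (1+‖x‖^2)^(α-1-1)) • (2 • innerSL ℝ x))) x := by
    have h1 := hasFDerivAt_W (α-1) x
    have h2 : HasFDerivAt (fun x => u x^2) ((2 * u x) • fderiv ℝ u x) x := by
      have := (hu x).hasFDerivAt.pow 2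
      simpa using this
    exact h1.mul h2
  rw [hF.fderiv]
  have hsq : 0 ≤ ‖gradient u x + (2*b*u x/(1+‖x‖^2)) • x‖^2 := by positivity
  rw [norm_add_sq_real, inner_smul_right, norm_smul, mul_pow] at hsq
  simp only [_root_.add_apply, _root_.smul_apply, smul_eq_mul,
    innerSL_apply_apply, nsmul_eq_mul, real_inner_self_eq_norm_sq]
  rw [gradient_inner]
  set D := inner ℝ (gradient u x) x
  set N := ‖x‖^2
  set G := ‖gradient u x‖^2
  set W := 1 + N
  have e1 : W^(α-1) = W^α / W := by rw [Real.rpow_sub_one hW.ne']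
  have e2 : W^(α-1-1) = W^α / W^2 := by
    rw [Real.rpow_sub_one hW.ne', e1]; field_simp
  have e3 : W^(α-2) = W^α / W^2 := by
    rw [← e2]; congr 1; ring
  rw [e1, e2, e3]
  have hA : 0 < W^α := Real.rpow_pos_of_pos hW _
  have : 0 ≤ W^α * (G + 2 * (2*b*u x/W * D) + ‖2*b*u x/W‖^2 * N) := by positivity
  rw [Real.norm_eq_abs, sq_abs] at this
  have key : W^α * (G + 2 * (2*b*u x/W * D) + (2*b*u x/W)^2 * N)
    = W^α * G - (-2*b*(W^α / W * (2 * u x * D) + u x^2 * ((α-1) * (W^α/W^2) * ((2:ℕ) * N)))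
      + 4*b*(α-1-b) * (N * (W^α/W^2) * u x^2)) := by
    field_simp
    push_cast
    ring
  rw [key] at this
  linarith

theorem lower_key {n : ℕ} (α b : ℝ) {u : E n → ℝ} (hu : ContDiff ℝ 1 u)
    (hs : HasCompactSupport u) :
    2*b*n * (∫ x, (1+‖x‖^2)^(α-1) * u x^2)
      + 4*b*(α-1-b) * (∫ x, ‖x‖^2*(1+‖x‖^2)^(α-2)* u x^2)
      ≤ ∫ x, (1+‖x‖^2)^α * ‖gradient u x‖^2 := by
  have hd : Differentiable ℝ u := hu.differentiable one_ne_zero
  have hs2 : HasCompactSupport (fun x => u x^2) := hs.comp_left (g := fun t : ℝ => t^2) (by simp)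
  have hF : ContDiff ℝ 1 (fun x : E n => (1+‖x‖^2)^(α-1) * u x^2) :=
    ((contDiff_W (α-1)).of_le (by simp)).mul (hu.pow 2)
  have hFs : HasCompactSupport (fun x : E n => (1+‖x‖^2)^(α-1) * u x^2) := hs2.mul_left
  have hFc : Continuous (fderiv ℝ (fun x : E n => (1+‖x‖^2)^(α-1) * u x^2)) :=
    hF.continuous_fderiv one_ne_zero
  have hgc : Continuous (gradient u) := by
    unfold gradient
    exact (InnerProductSpace.toDual ℝ (E n)).symm.continuous.comp
      (hu.continuous_fderiv one_ne_zero)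
  have hgs : HasCompactSupport (fun x => ‖gradient u x‖^2) := by
    have : HasCompactSupport (gradient u) := by
      unfold gradient
      exact (hs.fderiv (𝕜 := ℝ)).comp_left
        (g := (InnerProductSpace.toDual ℝ (E n)).symm) (by simp)
    exact this.comp_left (g := fun v : E n => ‖v‖^2) (by simp)
  have huc : Continuous u := hu.continuous
  have hWc : ∀ s : ℝ, Continuous (fun x : E n => (1+‖x‖^2)^s) := fun s =>
    (contDiff_W s).continuous
  have I1 : Integrable (fun x : E n => fderiv ℝ (fun x : E n => (1+‖x‖^2)^(α-1) * u x^2) x x) := by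
    apply Continuous.integrable_of_hasCompactSupport
    · fun_prop
    · rw [hasCompactSupport_iff_eventuallyEq]
      have := (hFs.fderiv (𝕜 := ℝ))
      rw [hasCompactSupport_iff_eventuallyEq] at this
      filter_upwards [this] with x hx
      rw [hx]; simp
  have I2 : Integrable (fun x : E n => ‖x‖^2*(1+‖x‖^2)^(α-2)* u x^2) := by
    apply Continuous.integrable_of_hasCompactSupport
    · have := hWc (α-2)
      fun_prop
    · exact hs2.mul_left
  have I3 : Integrable (fun x : E n => (1+‖x‖^2)^α * ‖gradient u x‖^2) := by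
    apply Continuous.integrable_of_hasCompactSupport
    · have := hWc α
      fun_prop
    · exact hgs.mul_left
  have h := integral_mono ((I1.const_mul (-2*b)).add (I2.const_mul (4*b*(α-1-b)))) I3
    (fun x => lower_pointwise α b u hd x)
  have e : ∫ x : E n, ((-2*b) * (fderiv ℝ (fun x : E n => (1+‖x‖^2)^(α-1) * u x^2) x x)
      + 4*b*(α-1-b) * (‖x‖^2*(1+‖x‖^2)^(α-2)* u x^2))
      = 2*b*n * (∫ x, (1+‖x‖^2)^(α-1) * u x^2)
      + 4*b*(α-1-b) * (∫ x, ‖x‖^2*(1+‖x‖^2)^(α-2)* u x^2) := by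
    rw [integral_add (I1.const_mul (-2*b)) (I2.const_mul (4*b*(α-1-b))),
      integral_const_mul, integral_const_mul, ibp hF hFs]
    ring
  rw [← e]
  exact h

end PoolH296.WHardy
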