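import Pool.Agent.H296R3.GaussN
import Pool.Agent.H296R3.Hardy1

open MeasureTheory Real Filter Topology Set

namespace PoolH296.WHardy

theorem gW_eq (s : ℝ) {n : ℕ} (x : Fin n → ℝ) :
    gW s x = exp (-s * ‖(WithLp.toLp 2 x : E n)‖^2) := by
  unfold gW
  rw [← Real.exp_sum, EuclideanSpace.real_norm_sq_eq, Finset.mul_sum]

theorem norm_functional_sq {n : ℕ} (L : E n →L[ℝ] ℝ) :
    ‖L‖^2 = ∑ i, (L (EuclideanSpace.single i (1:ℝ)))^2 := by
  set G := (InnerProductSpace.toDual ℝ (E n)).symm L with hG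
  have h1 : ‖L‖ = ‖G‖ := by rw [hG, LinearIsometryEquiv.norm_map]
  rw [h1, EuclideanSpace.real_norm_sq_eq]
  congr 1
  ext i
  have : L (EuclideanSpace.single i (1:ℝ)) = inner ℝ G (EuclideanSpace.single i (1:ℝ)) := by
    rw [hG, InnerProductSpace.toDual_symm_apply]
  rw [this, EuclideanSpace.inner_single_right]
  simp

theorem integral_toLp {n : ℕ} (F : E n → ℝ) :
    ∫ x : E n, F x = ∫ x : Fin n → ℝ, F (WithLp.toLp 2 x) := by
  have h := PiLp.volume_preserving_toLp (Fin n)
  exact ((EuclideanSpace.volume_preserving_symm_measurableEquiv_toLp (Fin n)).symm.integral_comp'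
    F).symm

/-- Gaussian Poincaré inequality on Euclidean space for mean-zero `C¹_c` functions. -/
theorem gaussE {n : ℕ} {s : ℝ} (hs : 0 < s) {v : E n → ℝ} {v' : E n → (E n →L[ℝ] ℝ)}
    (hv : ∀ x, HasFDerivAt v (v' x) x) (hv' : Continuous v') (hvs : HasCompactSupport v)
    (hvs' : HasCompactSupport v') (hmean : ∫ x, v x * exp (-s*‖x‖^2) = 0) :
    2 * s * (∫ x, v x^2 * exp (-s*‖x‖^2)) ≤ ∫ x, ‖v' x‖^2 * exp (-s*‖x‖^2) := by
  have hvc : Continuous v := by
    rw [continuous_iff_continuousAt]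
    intro t; exact (hv t).continuousAt
  have htoc : Continuous (fun x : Fin n → ℝ => (WithLp.toLp 2 x : E n)) :=
    PiLp.continuous_toLp 2 _
  set f : (Fin n → ℝ) → ℝ := fun x => v (WithLp.toLp 2 x) with hf
  set g : Fin n → (Fin n → ℝ) → ℝ :=
    fun i x => v' (WithLp.toLp 2 x) (EuclideanSpace.single i (1:ℝ)) with hg
  have hPD : PD n f g := by
    refine ⟨hvc.comp htoc, ?_, ?_, ?_⟩
    · intro i
      have h1 : Continuous (fun x : Fin n → ℝ => v' (WithLp.toLp 2 x)) := hv'.comp htoc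
      exact h1.clm_apply continuous_const
    · obtain ⟨R1, hR1⟩ := hvs.isCompact.isBounded.subset_closedBall 0
      obtain ⟨R2, hR2⟩ := hvs'.isCompact.isBounded.subset_closedBall 0
      refine ⟨max R1 R2, ?_⟩
      rintro x ⟨i, hi⟩
      have hn : |x i| ≤ ‖(WithLp.toLp 2 x : E n)‖ := by
        have := PiLp.norm_apply_le (p := 2) (WithLp.toLp 2 x : E n) i
        simpa using this
      have h1 : f x = 0 := by
        by_contra hcon
        have := hR1 (subset_tsupport _ hcon)
        rw [mem_closedBall_zero_iff] at this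
        have := lt_of_le_of_lt (le_max_left R1 R2) hi
        linarith
      have h2 : v' (WithLp.toLp 2 x) = 0 := by
        by_contra hcon
        have := hR2 (subset_tsupport _ hcon)
        rw [mem_closedBall_zero_iff] at this
        have := lt_of_le_of_lt (le_max_right R1 R2) hi
        linarith
      refine ⟨h1, fun j => ?_⟩
      simp only [hg, h2]
      simp
    · intro x i
      have h1 : HasDerivAt (fun t : ℝ => (WithLp.toLp 2 (Function.update x i t) : E n))
          (EuclideanSpace.single i (1:ℝ)) (x i) := by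
        have h2 := hasDerivAt_update x i (x i)
        have h3 := ((EuclideanSpace.equiv (Fin n) ℝ).symm : (Fin n → ℝ) →L[ℝ] E n).hasFDerivAt.comp_hasDerivAt (x i) h2
        exact h3
      have h4 : HasFDerivAt v (v' (WithLp.toLp 2 x)) (WithLp.toLp 2 (Function.update x i (x i))) := by
        rw [Function.update_eq_self]
        exact hv _
      exact h4.comp_hasDerivAt (x i) h1
  have h := gaussN hs n f g hPD
  have e1 : ∫ x, f x * gW s x = 0 := by
    rw [← hmean, integral_toLp]
    simp_rw [gW_eq]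
    rfl
  have e2 : ∫ x, f x^2 * gW s x = ∫ x, v x^2 * exp (-s*‖x‖^2) := by
    rw [integral_toLp]
    simp_rw [gW_eq]
    rfl
  have hgi : ∀ i, Integrable (fun x => g i x^2 * gW s x) := by
    intro i
    have hs2 : HasCompactSupport (fun x => g i x^2) :=
      (hPD.gsupp i).comp_left (g := fun t : ℝ => t^2) (by simp)
    apply Continuous.integrable_of_hasCompactSupport
    · exact ((hPD.gcont i).pow 2).mul (gW_cont s)
    · exact hs2.mul_right
  have e3 : ∑ i, ∫ x, g i x^2 * gW s x = ∫ x, ‖v' x‖^2 * exp (-s*‖x‖^2) := by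
    rw [← integral_finsetSum _ (fun i _ => hgi i), integral_toLp]
    congr 1
    funext x
    rw [norm_functional_sq, Finset.sum_mul, gW_eq]
  rw [e1, e2, e3] at h
  have hZ : 0 < (∫ t, exp (-s*t^2))^n := by
    apply pow_pos
    rw [integral_gaussian]; positivity
  rw [zero_pow two_ne_zero, sub_zero] at h
  have h5 := le_of_mul_le_mul_left h hZ
  have h6 : 2 * s * (∫ x, v x^2 * exp (-s*‖x‖^2))
      ≤ 2 * s * (1/(2*s) * ∫ x, ‖v' x‖^2 * exp (-s*‖x‖^2)) :=
    mul_le_mul_of_nonneg_left h5 (by positivity)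
  calc _ ≤ _ := h6
    _ = _ := by field_simp

theorem integrableOn_gamma {a : ℝ} (ha : 0 < a) :
    IntegrableOn (fun s : ℝ => s^(a-1) * exp (-s)) (Ioi 0) := by
  have := Real.GammaIntegral_convergent ha
  refine this.congr_fun (fun s _ => by ring) measurableSet_Ioi

/-- The prod-integrability behind the Gamma mixture. -/
theorem gamma_mix_integrable {n : ℕ} {a : ℝ} (ha : 0 < a) {q : E n → ℝ} (hq : Continuous q)
    (hqs : HasCompactSupport q) :
    Integrable (fun z : ℝ × E n => z.1^(a-1) * exp (-z.1) * (q z.2 * exp (-z.1*‖z.2‖^2)))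
      ((volume.restrict (Ioi 0)).prod volume) := by
  have h1 : Integrable (fun s : ℝ => s^(a-1) * exp (-s)) (volume.restrict (Ioi 0)) :=
    integrableOn_gamma ha
  have h2 : Integrable (fun x : E n => ‖q x‖) := (hq.integrable_of_hasCompactSupport hqs).norm
  have h3 := h1.mul_prod h2
  refine h3.mono' ?_ ?_
  · apply Measurable.aestronglyMeasurable
    have hqm : Measurable q := hq.measurable
    fun_prop
  · have hae : ∀ᵐ z : ℝ × E n ∂((volume.restrict (Ioi 0)).prod volume), 0 < z.1 := by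
      have : ∀ᵐ s : ℝ ∂(volume.restrict (Ioi (0:ℝ))), 0 < s :=
        (ae_restrict_iff' measurableSet_Ioi).2 (Eventually.of_forall (fun s hs => hs))
      exact Measure.quasiMeasurePreserving_fst.ae this
    filter_upwards [hae] with z hz
    rw [norm_mul, norm_mul (q z.2), Real.norm_of_nonneg (by positivity : 0 ≤ z.1^(a-1) * exp (-z.1))]
    have : ‖exp (-z.1*‖z.2‖^2)‖ ≤ 1 := by
      rw [Real.norm_of_nonneg (exp_pos _).le]
      apply exp_le_one_iff.2
      have : 0 ≤ z.1 * ‖z.2‖^2 := by positivity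
      linarith
    gcongr
    exact mul_le_of_le_one_right (norm_nonneg _) this

theorem gamma_mix {n : ℕ} {a : ℝ} (ha : 0 < a) {q : E n → ℝ} (hq : Continuous q)
    (hqs : HasCompactSupport q) :
    ∫ s in Ioi (0:ℝ), s^(a-1) * exp (-s) * ∫ x : E n, q x * exp (-s*‖x‖^2)
      = Gamma a * ∫ x : E n, (1+‖x‖^2)^(-a) * q x := by
  have hint := gamma_mix_integrable ha hq hqs
  calc ∫ s in Ioi (0:ℝ), s^(a-1) * exp (-s) * ∫ x : E n, q x * exp (-s*‖x‖^2)
      = ∫ s in Ioi (0:ℝ), ∫ x : E n, s^(a-1) * exp (-s) * (q x * exp (-s*‖x‖^2)) := by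
        simp_rw [integral_const_mul]
    _ = ∫ x : E n, ∫ s in Ioi (0:ℝ), s^(a-1) * exp (-s) * (q x * exp (-s*‖x‖^2)) :=
        integral_integral_swap hint
    _ = ∫ x : E n, Gamma a * ((1+‖x‖^2)^(-a) * q x) := by
        congr 1
        funext x
        have hW := W_pos x
        have e : ∀ s : ℝ, s^(a-1) * exp (-s) * (q x * exp (-s*‖x‖^2))
            = q x * (s^(a-1) * exp (-((1+‖x‖^2) * s))) := by
          intro s
          have : exp (-((1+‖x‖^2) * s)) = exp (-s) * exp (-s*‖x‖^2) := by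
            rw [← exp_add]; congr 1; ring
          rw [this]; ring
        simp_rw [e]
        rw [integral_const_mul, integral_rpow_mul_exp_neg_mul_Ioi ha hW, one_div,
          Real.inv_rpow hW.le, Real.rpow_neg hW.le]
        ring
    _ = _ := integral_const_mul _ _

theorem gamma_mix_integrable_left {n : ℕ} {a : ℝ} (ha : 0 < a) {q : E n → ℝ} (hq : Continuous q)
    (hqs : HasCompactSupport q) :
    IntegrableOn (fun s : ℝ => s^(a-1) * exp (-s) * ∫ x : E n, q x * exp (-s*‖x‖^2)) (Ioi 0) := by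
  have hint := (gamma_mix_integrable ha hq hqs).integral_prod_left
  have e : (fun s : ℝ => s^(a-1) * exp (-s) * ∫ x : E n, q x * exp (-s*‖x‖^2))
      = fun s : ℝ => ∫ x : E n, s^(a-1) * exp (-s) * (q x * exp (-s*‖x‖^2)) := by
    funext s
    rw [integral_const_mul]
  rw [e]
  exact hint

/-- Weighted Poincaré inequality with constant `2a` for functions orthogonal to all Gaussians. -/
theorem nonradial {n : ℕ} {a : ℝ} (ha : 0 < a) {v : E n → ℝ} {v' : E n → (E n →L[ℝ] ℝ)}
    (hv : ∀ x, HasFDerivAt v (v' x) x) (hv' : Continuous v') (hvs : HasCompactSupport v)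
    (hvs' : HasCompactSupport v')
    (hmean : ∀ s : ℝ, 0 < s → ∫ x, v x * exp (-s*‖x‖^2) = 0) :
    2 * a * (∫ x : E n, (1+‖x‖^2)^(-a-1) * v x^2) ≤ ∫ x : E n, (1+‖x‖^2)^(-a) * ‖v' x‖^2 := by
  have hvc : Continuous v := by
    rw [continuous_iff_continuousAt]
    intro t; exact (hv t).continuousAt
  have hq1 : Continuous (fun x => v x^2) := hvc.pow 2
  have hq1s : HasCompactSupport (fun x => v x^2) :=
    hvs.comp_left (g := fun t : ℝ => t^2) (by simp)
  have hq2 : Continuous (fun x => ‖v' x‖^2) := hv'.norm.pow 2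
  have hq2s : HasCompactSupport (fun x => ‖v' x‖^2) :=
    hvs'.comp_left (g := fun L : E n →L[ℝ] ℝ => ‖L‖^2) (by simp)
  have ha1 : 0 < a + 1 := by linarith
  have h1 := gamma_mix ha1 hq1 hq1s
  have h2 := gamma_mix ha hq2 hq2s
  have i1 := gamma_mix_integrable_left ha1 hq1 hq1s
  have i2 := gamma_mix_integrable_left ha hq2 hq2s
  have hle : ∫ s in Ioi (0:ℝ), 2 * (s^(a+1-1) * exp (-s) * ∫ x : E n, v x^2 * exp (-s*‖x‖^2))
      ≤ ∫ s in Ioi (0:ℝ), s^(a-1) * exp (-s) * ∫ x : E n, ‖v' x‖^2 * exp (-s*‖x‖^2) := by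
    apply setIntegral_mono_on (i1.const_mul 2) i2 measurableSet_Ioi
    intro s hs
    have hs' : 0 < s := hs
    have h3 := gaussE hs' hv hv' hvs hvs' (hmean s hs')
    have e : s^(a+1-1) = s^(a-1) * s := by
      rw [← Real.rpow_add_one hs'.ne']; congr 1; ring
    rw [e]
    calc 2 * (s^(a-1) * s * exp (-s) * ∫ x : E n, v x^2 * exp (-s*‖x‖^2))
        = s^(a-1) * exp (-s) * (2 * s * ∫ x : E n, v x^2 * exp (-s*‖x‖^2)) := by ring
      _ ≤ _ := by gcongr
  rw [integral_const_mul, h1, h2, Real.Gamma_add_one ha.ne'] at hle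
  have hG : 0 < Gamma a := Real.Gamma_pos_of_pos ha
  have e1 : -(a+1) = -a-1 := by ring
  rw [e1] at hle
  have : Gamma a * (2 * a * (∫ x : E n, (1+‖x‖^2)^(-a-1) * v x^2))
      ≤ Gamma a * ∫ x : E n, (1+‖x‖^2)^(-a) * ‖v' x‖^2 := by
    calc _ = 2 * (a * Gamma a * ∫ x : E n, (1+‖x‖^2)^(-a-1) * v x^2) := by ring
      _ ≤ _ := hle
  exact le_of_mul_le_mul_left this hG

end PoolH296.WHardy
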