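import Pool.Agent.H296R3.Gauss1

open MeasureTheory Real Filter Topology Set

namespace PoolH296.WHardy

/-- Product Gaussian weight. -/
noncomputable def gW (s : ℝ) {n : ℕ} (x : Fin n → ℝ) : ℝ := ∏ i, exp (-s * x i^2)

/-- `f` has continuous partial derivatives `g i`, all with bounded support. -/
structure PD (n : ℕ) (f : (Fin n → ℝ) → ℝ) (g : Fin n → (Fin n → ℝ) → ℝ) : Prop where
  cont : Continuous f
  gcont : ∀ i, Continuous (g i)
  supp : ∃ R : ℝ, ∀ x, (∃ i, R < |x i|) → f x = 0 ∧ ∀ j, g j x = 0
  deriv : ∀ x i, HasDerivAt (fun t => f (Function.update x i t)) (g i x) (x i)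

theorem compact_of_bound {n : ℕ} {f : (Fin n → ℝ) → ℝ} {R : ℝ}
    (h : ∀ x, (∃ i, R < |x i|) → f x = 0) : HasCompactSupport f := by
  apply HasCompactSupport.intro (K := Set.pi univ (fun _ => Icc (-R) R))
    (isCompact_univ_pi (fun _ => isCompact_Icc))
  intro x hx
  apply h
  by_contra hcon
  apply hx
  intro i _
  push Not at hcon
  exact abs_le.1 (hcon i)

theorem PD.fsupp {n : ℕ} {f : (Fin n → ℝ) → ℝ} {g : Fin n → (Fin n → ℝ) → ℝ}
    (h : PD n f g) : HasCompactSupport f := by
  obtain ⟨R, hR⟩ := h.supp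
  exact compact_of_bound (fun x hx => (hR x hx).1)

theorem PD.gsupp {n : ℕ} {f : (Fin n → ℝ) → ℝ} {g : Fin n → (Fin n → ℝ) → ℝ}
    (h : PD n f g) (i : Fin n) : HasCompactSupport (g i) := by
  obtain ⟨R, hR⟩ := h.supp
  exact compact_of_bound (fun x hx => (hR x hx).2 i)

theorem gW_cont (s : ℝ) {n : ℕ} : Continuous (gW s (n := n)) := by
  unfold gW
  fun_prop

theorem gW_pos (s : ℝ) {n : ℕ} (x : Fin n → ℝ) : 0 < gW s x := by
  unfold gW
  exact Finset.prod_pos (fun i _ => exp_pos _)

theorem gW_cons (s : ℝ) {n : ℕ} (t : ℝ) (y : Fin n → ℝ) :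
    gW s (Fin.cons t y : Fin (n+1) → ℝ) = exp (-s * t^2) * gW s y := by
  unfold gW
  rw [Fin.prod_univ_succ]
  simp

theorem gW_integrable {s : ℝ} (hs : 0 < s) {n : ℕ} : Integrable (gW s (n := n)) := by
  unfold gW
  exact Integrable.fintype_prod (f := fun (_ : Fin n) (t : ℝ) => exp (-s * t^2))
    (μ := fun _ => (volume : Measure ℝ)) (fun _ => integrable_exp_neg_mul_sq hs)

theorem gW_integral (s : ℝ) {n : ℕ} :
    ∫ x, gW s (n := n) x = (∫ t, exp (-s * t^2))^n := by
  unfold gW
  rw [integral_fintype_prod_volume_eq_pow (fun t => exp (-s * t^2))]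
  simp

theorem piFin_symm {n : ℕ} (z : ℝ × (Fin n → ℝ)) :
    (MeasurableEquiv.piFinSuccAbove (fun _ : Fin (n+1) => ℝ) 0).symm z
      = (Fin.cons z.1 z.2 : Fin (n+1) → ℝ) := by
  rw [MeasurableEquiv.piFinSuccAbove_symm_apply]
  simp only [Fin.insertNthEquiv, Equiv.coe_fn_mk]
  exact Fin.insertNth_zero' z.1 z.2

theorem integral_fin_succ {n : ℕ} (F : (Fin (n+1) → ℝ) → ℝ) (hF : Integrable F) :
    ∫ x, F x = ∫ t : ℝ, ∫ y : Fin n → ℝ, F (Fin.cons t y) := by
  have hmp := (volume_preserving_piFinSuccAbove (fun _ : Fin (n+1) => ℝ) 0).symm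
  have h1 : ∫ x, F x = ∫ z : ℝ × (Fin n → ℝ), F (Fin.cons z.1 z.2) := by
    rw [← hmp.integral_comp']
    simp_rw [piFin_symm]
  have h2 : Integrable (fun z : ℝ × (Fin n → ℝ) => F (Fin.cons z.1 z.2)) := by
    rw [← hmp.integrable_comp_emb (MeasurableEquiv.measurableEmbedding _)] at hF
    have e : F ∘ ⇑(MeasurableEquiv.piFinSuccAbove (fun _ : Fin (n+1) => ℝ) 0).symm
        = fun z : ℝ × (Fin n → ℝ) => F (Fin.cons z.1 z.2) := by
      funext z
      simp only [Function.comp_apply, piFin_symm]
    rwa [e] at hF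
  rw [h1, Measure.volume_eq_prod, integral_prod]
  rw [← Measure.volume_eq_prod]
  exact h2

theorem integrable_fin_succ {n : ℕ} (F : (Fin (n+1) → ℝ) → ℝ) (hF : Integrable F) :
    Integrable (fun t : ℝ => ∫ y : Fin n → ℝ, F (Fin.cons t y)) := by
  have hmp := (volume_preserving_piFinSuccAbove (fun _ : Fin (n+1) => ℝ) 0).symm
  have h2 : Integrable (fun z : ℝ × (Fin n → ℝ) => F (Fin.cons z.1 z.2)) := by
    rw [← hmp.integrable_comp_emb (MeasurableEquiv.measurableEmbedding _)] at hF
    have e : F ∘ ⇑(MeasurableEquiv.piFinSuccAbove (fun _ : Fin (n+1) => ℝ) 0).symm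
        = fun z : ℝ × (Fin n → ℝ) => F (Fin.cons z.1 z.2) := by
      funext z
      simp only [Function.comp_apply, piFin_symm]
    rwa [e] at hF
  rw [Measure.volume_eq_prod] at h2
  exact h2.integral_prod_left


/-- Gaussian Poincaré inequality in dimension `n`. -/
theorem gaussN {s : ℝ} (hs : 0 < s) : ∀ (n : ℕ) (f : (Fin n → ℝ) → ℝ)
    (g : Fin n → (Fin n → ℝ) → ℝ), PD n f g →
    (∫ t, exp (-s*t^2))^n * (∫ x, f x^2 * gW s x) - (∫ x, f x * gW s x)^2
      ≤ (∫ t, exp (-s*t^2))^n * ((1/(2*s)) * ∑ i, ∫ x, g i x^2 * gW s x) := by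
  have hZ : 0 < ∫ t, exp (-s*t^2) := by
    rw [integral_gaussian]; positivity
  set Z := ∫ t, exp (-s*t^2) with hZdef
  intro n
  induction n with
  | zero =>
    intro f g h
    simp only [pow_zero, Finset.univ_eq_empty, Finset.sum_empty, mul_zero]
    rw [integral_unique, integral_unique]
    have hv : (volume (Set.univ : Set (Fin 0 → ℝ))).toReal = 1 := by
      rw [volume_pi, Measure.pi_empty_univ]; simp
    simp only [gW, measureReal_def, hv, Finset.univ_eq_empty, Finset.prod_empty, mul_one,
      smul_eq_mul, one_mul, sub_self, le_refl]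
  | succ n ih =>
    intro f g h
    obtain ⟨R, hR⟩ := h.supp
    -- slices
    have hslice : ∀ t : ℝ, PD n (fun y => f (Fin.cons t y)) (fun i y => g i.succ (Fin.cons t y)) := by
      intro t
      refine ⟨?_, ?_, ⟨R, ?_⟩, ?_⟩
      · have := h.cont; fun_prop
      · intro i; have := h.gcont i.succ; fun_prop
      · rintro x ⟨i, hi⟩
        have := hR (Fin.cons t x) ⟨i.succ, by simpa using hi⟩
        exact ⟨this.1, fun j => this.2 j.succ⟩
      · intro x i
        have := h.deriv (Fin.cons t x) i.succ
        simpa [Fin.cons_update] using this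
    obtain ⟨C, hC⟩ := (h.gcont 0).bounded_above_of_compact_support (h.gsupp 0)
    have hWc : Continuous (gW s (n := n)) := gW_cont s
    have hWi : Integrable (gW s (n := n)) := gW_integrable hs
    have hWint : ∫ x, gW s (n := n) x = Z^n := gW_integral s
    set I1 : ℝ → ℝ := fun t => ∫ y : Fin n → ℝ, f (Fin.cons t y) * gW s y with hI1
    set I2 : ℝ → ℝ := fun t => ∫ y : Fin n → ℝ, g 0 (Fin.cons t y) * gW s y with hI2
    set J : ℝ → ℝ := fun t => ∫ y : Fin n → ℝ, f (Fin.cons t y)^2 * gW s y with hJ
    set K : Fin (n+1) → ℝ → ℝ := fun i t => ∫ y : Fin n → ℝ, g i (Fin.cons t y)^2 * gW s y with hK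
    have hcons : ∀ t : ℝ, Continuous (fun y : Fin n → ℝ => (Fin.cons t y : Fin (n+1) → ℝ)) := by
      intro t; fun_prop
    have hcons2 : ∀ y : Fin n → ℝ, Continuous (fun t : ℝ => (Fin.cons t y : Fin (n+1) → ℝ)) := by
      intro y; fun_prop
    -- integrability in `y`
    have hf_int : ∀ t : ℝ, Integrable (fun y : Fin n → ℝ => f (Fin.cons t y) * gW s y) := by
      intro t
      apply Continuous.integrable_of_hasCompactSupport
      · exact (h.cont.comp (hcons t)).mul hWc
      · exact (hslice t).fsupp.mul_right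
    have hf2_int : ∀ t : ℝ, Integrable (fun y : Fin n → ℝ => f (Fin.cons t y)^2 * gW s y) := by
      intro t
      apply Continuous.integrable_of_hasCompactSupport
      · exact ((h.cont.comp (hcons t)).pow 2).mul hWc
      · exact ((hslice t).fsupp.comp_left (g := fun t : ℝ => t^2) (by simp)).mul_right
    have hgs : ∀ (t : ℝ) (i : Fin (n+1)), HasCompactSupport (fun y : Fin n → ℝ => g i (Fin.cons t y)) := by
      intro t i
      apply compact_of_bound (R := R)
      rintro x ⟨j, hj⟩
      exact (hR (Fin.cons t x) ⟨j.succ, by simpa using hj⟩).2 i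
    have hg_int : ∀ (t : ℝ) (i : Fin (n+1)),
        Integrable (fun y : Fin n → ℝ => g i (Fin.cons t y) * gW s y) := by
      intro t i
      apply Continuous.integrable_of_hasCompactSupport
      · exact ((h.gcont i).comp (hcons t)).mul hWc
      · exact (hgs t i).mul_right
    have hg2_int : ∀ (t : ℝ) (i : Fin (n+1)),
        Integrable (fun y : Fin n → ℝ => g i (Fin.cons t y)^2 * gW s y) := by
      intro t i
      apply Continuous.integrable_of_hasCompactSupport
      · exact (((h.gcont i).comp (hcons t)).pow 2).mul hWc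
      · exact ((hgs t i).comp_left (g := fun t : ℝ => t^2) (by simp)).mul_right
    -- derivative of `I1`
    have hI1d : ∀ t, HasDerivAt I1 (I2 t) t := by
      intro t
      refine (hasDerivAt_integral_of_dominated_loc_of_deriv_le
        (F := fun t (y : Fin n → ℝ) => f (Fin.cons t y) * gW s y)
        (F' := fun t (y : Fin n → ℝ) => g 0 (Fin.cons t y) * gW s y)
        (bound := fun y => C * gW s y) (s := Set.univ) univ_mem ?_ (hf_int t) ?_ ?_ ?_ ?_).2
      · filter_upwards with u
        exact (hf_int u).aestronglyMeasurable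
      · exact (hg_int t 0).aestronglyMeasurable
      · filter_upwards with y
        intro u _
        rw [norm_mul, Real.norm_of_nonneg (gW_pos s y).le]
        exact mul_le_mul_of_nonneg_right (hC _) (gW_pos s y).le
      · exact hWi.const_mul C
      · filter_upwards with y
        intro u _
        have := h.deriv (Fin.cons u y) 0
        simp only [Fin.update_cons_zero, Fin.cons_zero] at this
        exact this.mul_const _
    have hI2c : Continuous I2 := by
      apply continuous_of_dominated (bound := fun y => C * gW s y)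
      · intro t
        exact (hg_int t 0).aestronglyMeasurable
      · intro t
        filter_upwards with y
        rw [norm_mul, Real.norm_of_nonneg (gW_pos s y).le]
        exact mul_le_mul_of_nonneg_right (hC _) (gW_pos s y).le
      · exact hWi.const_mul C
      · filter_upwards with y
        exact ((h.gcont 0).comp (hcons2 y)).mul continuous_const
    have hsuppR : ∀ t : ℝ, R < |t| → ∀ y : Fin n → ℝ,
        f (Fin.cons t y) = 0 ∧ ∀ j, g j (Fin.cons t y) = 0 := by
      intro t ht y
      exact hR _ ⟨0, by simpa using ht⟩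
    have hI1s : HasCompactSupport I1 := by
      apply HasCompactSupport.intro (K := Icc (-R) R) isCompact_Icc
      intro t ht
      have ht' : R < |t| := by
        by_contra hcon
        exact ht (abs_le.1 (not_lt.1 hcon))
      simp only [hI1]
      simp [fun y => (hsuppR t ht' y).1]
    have hI2s : HasCompactSupport I2 := by
      apply HasCompactSupport.intro (K := Icc (-R) R) isCompact_Icc
      intro t ht
      have ht' : R < |t| := by
        by_contra hcon
        exact ht (abs_le.1 (not_lt.1 hcon))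
      simp only [hI2]
      simp [fun y => (hsuppR t ht' y).2 0]
    have hI1c : Continuous I1 := by
      rw [continuous_iff_continuousAt]
      intro t; exact (hI1d t).continuousAt
    -- Fubini for the three kinds of integrals
    have hFub : ∀ F : (Fin (n+1) → ℝ) → ℝ, Integrable (fun x => F x * gW s x) →
        ∫ x, F x * gW s x = ∫ t, (∫ y : Fin n → ℝ, F (Fin.cons t y) * gW s y) * exp (-s*t^2) := by
      intro F hF
      rw [integral_fin_succ _ hF]
      congr 1
      funext t
      rw [← integral_mul_const]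
      congr 1
      funext y
      rw [gW_cons]; ring
    have hFubI : ∀ F : (Fin (n+1) → ℝ) → ℝ, Integrable (fun x => F x * gW s x) →
        Integrable (fun t => (∫ y : Fin n → ℝ, F (Fin.cons t y) * gW s y) * exp (-s*t^2)) := by
      intro F hF
      have h1 := integrable_fin_succ _ hF
      have e : (fun t : ℝ => (∫ y : Fin n → ℝ, F (Fin.cons t y) * gW s y) * exp (-s*t^2))
          = fun t : ℝ => ∫ y : Fin n → ℝ, F (Fin.cons t y) * gW s (Fin.cons t y : Fin (n+1) → ℝ) := by
        funext t
        rw [← integral_mul_const]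
        congr 1
        funext y
        rw [gW_cons]; ring
      rw [e]
      exact h1
    have hWc' : Continuous (gW s (n := n+1)) := gW_cont s
    have iF : Integrable (fun x => f x * gW s x) :=
      (h.cont.mul hWc').integrable_of_hasCompactSupport h.fsupp.mul_right
    have hsq : ∀ F : (Fin (n+1) → ℝ) → ℝ, Continuous F → HasCompactSupport F →
        Integrable (fun x => F x^2 * gW s x) := by
      intro F hFc hFs
      have hFs2 : HasCompactSupport (fun x => F x^2) :=
        hFs.comp_left (g := fun t : ℝ => t^2) (by simp)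
      apply Continuous.integrable_of_hasCompactSupport
      · exact (hFc.pow 2).mul hWc'
      · exact hFs2.mul_right
    have iF2 : Integrable (fun x => f x^2 * gW s x) := hsq f h.cont h.fsupp
    have iG : ∀ i, Integrable (fun x => g i x^2 * gW s x) := fun i =>
      hsq (g i) (h.gcont i) (h.gsupp i)
    have E1 : ∫ x, f x * gW s x = ∫ t, I1 t * exp (-s*t^2) := hFub f iF
    have E2 : ∫ x, f x^2 * gW s x = ∫ t, J t * exp (-s*t^2) := hFub (fun x => f x^2) iF2
    have E3 : ∀ i, ∫ x, g i x^2 * gW s x = ∫ t, K i t * exp (-s*t^2) := fun i =>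
      hFub (fun x => g i x^2) (iG i)
    have iJ : Integrable (fun t => J t * exp (-s*t^2)) := hFubI (fun x => f x^2) iF2
    have iK : ∀ i, Integrable (fun t => K i t * exp (-s*t^2)) := fun i =>
      hFubI (fun x => g i x^2) (iG i)
    have iI1 : Integrable (fun t => I1 t^2 * exp (-s*t^2)) := by
      apply Continuous.integrable_of_hasCompactSupport (by fun_prop)
      exact (hI1s.comp_left (g := fun t : ℝ => t^2) (by simp)).mul_right
    have iI2 : Integrable (fun t => I2 t^2 * exp (-s*t^2)) := by
      apply Continuous.integrable_of_hasCompactSupport (by fun_prop)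
      exact (hI2s.comp_left (g := fun t : ℝ => t^2) (by simp)).mul_right
    -- (d)
    have hd : ∀ t, I2 t^2 ≤ Z^n * K 0 t := by
      intro t
      have hZn : 0 < Z^n := pow_pos hZ n
      set c := I2 t / Z^n with hc
      have h0 : 0 ≤ ∫ y : Fin n → ℝ, (g 0 (Fin.cons t y) - c)^2 * gW s y :=
        integral_nonneg (fun y => mul_nonneg (sq_nonneg _) (gW_pos s y).le)
      have e : ∀ y : Fin n → ℝ, (g 0 (Fin.cons t y) - c)^2 * gW s y
          = (g 0 (Fin.cons t y)^2 * gW s y - 2 * c * (g 0 (Fin.cons t y) * gW s y))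
            + c^2 * gW s y := by
        intro y; ring
      simp_rw [e] at h0
      have i12 : Integrable (fun y : Fin n → ℝ => g 0 (Fin.cons t y)^2 * gW s y
          - 2 * c * (g 0 (Fin.cons t y) * gW s y)) := (hg2_int t 0).sub ((hg_int t 0).const_mul _)
      rw [integral_add i12 (hWi.const_mul _),
        integral_sub (hg2_int t 0) ((hg_int t 0).const_mul _), integral_const_mul,
        integral_const_mul, hWint] at h0
      have h0' : 0 ≤ K 0 t - 2 * c * I2 t + c^2 * Z^n := h0
      rw [hc] at h0'
      have : K 0 t - 2 * (I2 t / Z^n) * I2 t + (I2 t / Z^n)^2 * Z^n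
          = K 0 t - I2 t^2/Z^n := by
        field_simp; ring
      rw [this, sub_nonneg, div_le_iff₀ hZn] at h0'
      linarith
    have hb : ∀ t, Z^n * J t - I1 t^2 ≤ Z^n * ((1/(2*s)) * ∑ i : Fin n, K i.succ t) :=
      fun t => ih _ _ (hslice t)
    have hb' := integral_mono (((iJ.const_mul (Z^n)).sub iI1))
      (((integrable_finsetSum Finset.univ (fun i _ => iK (Fin.succ i))).const_mul
        (Z^n * (1/(2*s))))) (fun t => by
        have h1 := mul_le_mul_of_nonneg_right (hb t) (exp_pos (-s*t^2)).le
        show Z^n * (J t * exp (-s*t^2)) - I1 t^2 * exp (-s*t^2)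
          ≤ Z^n * (1/(2*s)) * ∑ i : Fin n, K i.succ t * exp (-s*t^2)
        rw [← Finset.sum_mul]
        linarith)
    have hb2 : Z^n * (∫ t, J t * exp (-s*t^2)) - (∫ t, I1 t^2 * exp (-s*t^2))
        ≤ Z^n * (1/(2*s)) * ∑ i : Fin n, ∫ t, K i.succ t * exp (-s*t^2) := by
      rw [← integral_finsetSum Finset.univ (fun i _ => iK (Fin.succ i)), ← integral_const_mul,
        ← integral_const_mul, ← integral_sub (iJ.const_mul (Z^n)) iI1]
      exact hb'
    have hc1 := gauss1 hs hI1d hI2c hI1s hI2s
    have hd2 : ∫ t, I2 t^2 * exp (-s*t^2) ≤ Z^n * ∫ t, K 0 t * exp (-s*t^2) := by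
      rw [← integral_const_mul]
      apply integral_mono iI2 ((iK 0).const_mul _)
      intro t
      have h1 := mul_le_mul_of_nonneg_right (hd t) (exp_pos (-s*t^2)).le
      show I2 t^2 * exp (-s*t^2) ≤ Z^n * (K 0 t * exp (-s*t^2))
      linarith
    rw [E1, E2, Fin.sum_univ_succ]
    simp_rw [E3]
    rw [← hZdef] at hc1
    have h1 := mul_le_mul_of_nonneg_left hb2 hZ.le
    have hs2 : 0 < 1/(2*s) := by positivity
    have h2 := mul_le_mul_of_nonneg_left hd2 (mul_pos hZ hs2).le
    rw [pow_succ]
    linarith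

end PoolH296.WHardy
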