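import Pool.Agent.H296R3.Hardy1

open MeasureTheory Real Filter Topology Set
open scoped ContDiff

namespace PoolH296.WHardy

/-- smooth cutoff on the line: `1` for `t ≤ 1`, `0` for `t ≥ 2`. -/
noncomputable def h (t : ℝ) : ℝ := Real.smoothTransition (2 - t)

theorem h_contDiff : ContDiff ℝ ∞ h := by
  unfold h
  exact Real.smoothTransition.contDiff.comp (contDiff_const.sub contDiff_id)

theorem h_one {t : ℝ} (ht : t ≤ 1) : h t = 1 :=
  Real.smoothTransition.one_of_one_le (by linarith)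

theorem h_zero {t : ℝ} (ht : 2 ≤ t) : h t = 0 :=
  Real.smoothTransition.zero_of_nonpos (by linarith)

theorem h_nonneg (t : ℝ) : 0 ≤ h t := Real.smoothTransition.nonneg _
theorem h_le_one (t : ℝ) : h t ≤ 1 := Real.smoothTransition.le_one _

theorem h_deriv_lt {t : ℝ} (ht : t < 1) : deriv h t = 0 := by
  have : h =ᶠ[𝓝 t] fun _ => 1 := by
    filter_upwards [Iio_mem_nhds ht] with s hs
    exact h_one (le_of_lt hs)
  rw [this.deriv_eq]; simp

theorem h_deriv_gt {t : ℝ} (ht : 2 < t) : deriv h t = 0 := by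
  have : h =ᶠ[𝓝 t] fun _ => 0 := by
    filter_upwards [Ioi_mem_nhds ht] with s hs
    exact h_zero (le_of_lt hs)
  rw [this.deriv_eq]; simp

theorem h_deriv_bound : ∃ K : ℝ, 0 ≤ K ∧ ∀ t, |deriv h t| ≤ K := by
  have hc : Continuous (deriv h) := h_contDiff.continuous_deriv (by simp)
  obtain ⟨K, hK⟩ := (isCompact_Icc (a := (1:ℝ)) (b := 2)).exists_bound_of_continuousOn
    hc.continuousOn
  refine ⟨max K 0, le_max_right _ _, fun t => ?_⟩
  by_cases h1 : t < 1
  · rw [h_deriv_lt h1]; simp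
  by_cases h2 : 2 < t
  · rw [h_deriv_gt h2]; simp
  · exact (hK t ⟨not_lt.1 h1, not_lt.1 h2⟩).trans (le_max_left _ _)

/-- the test functions -/
noncomputable def uN {n : ℕ} (b m : ℝ) (x : E n) : ℝ := (1 + ‖x‖^2)^(-b) * h (‖x‖^2 / m)

/-- the radial derivative factor of the test functions -/
noncomputable def gN {n : ℕ} (b m : ℝ) (x : E n) : ℝ :=
  -b * (1 + ‖x‖^2)^(-b-1) * h (‖x‖^2 / m) + (1 + ‖x‖^2)^(-b) * (deriv h (‖x‖^2 / m) / m)

theorem uN_contDiff {n : ℕ} (b m : ℝ) : ContDiff ℝ ∞ (uN (n := n) b m) := by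
  unfold uN
  apply (contDiff_W (-b)).mul
  apply h_contDiff.comp
  exact (contDiff_norm_sq ℝ).div_const m

theorem uN_hasFDerivAt {n : ℕ} (b m : ℝ) (x : E n) :
    HasFDerivAt (uN (n := n) b m) ((gN b m x) • (2 • innerSL ℝ x)) x := by
  have h1 := hasFDerivAt_W (n := n) (-b) x
  have h2 : HasFDerivAt (fun x : E n => h (‖x‖^2/m))
      (deriv h (‖x‖^2/m) • ((1/m) • (2 • innerSL ℝ x))) x := by
    have h3 : HasDerivAt h (deriv h (‖x‖^2/m)) (‖x‖^2/m) :=
      (h_contDiff.differentiable (by simp) _).hasDerivAt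
    have h4 : HasFDerivAt (fun x : E n => ‖x‖^2/m) ((1/m) • (2 • innerSL ℝ x)) x := by
      have := (hasStrictFDerivAt_norm_sq x).hasFDerivAt.const_mul (1/m)
      have e : (fun x : E n => ‖x‖^2/m) = fun x : E n => 1/m * ‖x‖^2 := by
        ext y; ring
      rw [e]
      exact this
    exact HasDerivAt.comp_hasFDerivAt (h₂ := h) (f := fun x : E n => ‖x‖^2/m) x h3 h4
  have h4 := h1.mul h2
  have e : (gN b m x) • (2 • innerSL ℝ x) = (1 + ‖x‖^2)^(-b) • (deriv h (‖x‖^2/m) • ((1/m) • (2 • innerSL ℝ x)))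
      + h (‖x‖^2/m) • ((-b * (1+‖x‖^2)^(-b-1)) • (2 • innerSL ℝ x)) := by
    ext y
    simp only [gN, _root_.add_apply, _root_.smul_apply, smul_eq_mul, innerSL_apply_apply,
      nsmul_eq_mul]
    ring
  rw [e]
  exact h4

theorem uN_compact {n : ℕ} (b : ℝ) {m : ℝ} (hm : 0 < m) :
    HasCompactSupport (uN (n := n) b m) := by
  apply HasCompactSupport.of_support_subset_isCompact
    (isCompact_closedBall (0 : E n) (Real.sqrt (2*m)))
  intro x hx
  rw [mem_closedBall_zero_iff]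
  by_contra hcon
  apply hx
  have h1 : Real.sqrt (2*m) ^ 2 < ‖x‖^2 := by
    apply pow_lt_pow_left₀ (not_le.1 hcon) (Real.sqrt_nonneg _) (by norm_num)
  rw [Real.sq_sqrt (by positivity)] at h1
  unfold uN
  rw [h_zero, mul_zero]
  rw [le_div_iff₀ hm]
  exact h1.le

theorem uN_grad {n : ℕ} (b m : ℝ) (x : E n) :
    ‖gradient (uN (n := n) b m) x‖^2 = 4 * ‖x‖^2 * (gN b m x)^2 := by
  unfold gradient
  rw [(uN_hasFDerivAt b m x).fderiv, LinearIsometryEquiv.norm_map, norm_smul]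
  rw [← Nat.cast_smul_eq_nsmul ℝ 2, norm_smul, innerSL_apply_norm]
  rw [mul_pow, mul_pow, Real.norm_eq_abs, sq_abs]
  norm_num
  ring

theorem gN_bound {n : ℕ} (b : ℝ) : ∃ C : ℝ, 0 ≤ C ∧ ∀ m : ℝ, 1 ≤ m → ∀ x : E n,
    |gN b m x| ≤ C * (1+‖x‖^2)^(-b-1) := by
  obtain ⟨K, hK0, hK⟩ := h_deriv_bound
  refine ⟨|b| + 4*K, by positivity, fun m hm x => ?_⟩
  have hW := W_pos x
  have hm0 : 0 < m := by linarith
  have hA : 0 < (1+‖x‖^2)^(-b-1) := Real.rpow_pos_of_pos hW _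
  have h1 : |-b * (1 + ‖x‖^2)^(-b-1) * h (‖x‖^2 / m)| ≤ |b| * (1+‖x‖^2)^(-b-1) := by
    rw [abs_mul, abs_mul, abs_neg, abs_of_pos hA, abs_of_nonneg (h_nonneg _)]
    exact mul_le_of_le_one_right (by positivity) (h_le_one _)
  have h2 : |(1 + ‖x‖^2)^(-b) * (deriv h (‖x‖^2 / m) / m)| ≤ 4*K * (1+‖x‖^2)^(-b-1) := by
    by_cases hc : 2 < ‖x‖^2/m
    · rw [h_deriv_gt hc]
      simp only [zero_div, mul_zero, abs_zero]
      positivity
    · have hc' : ‖x‖^2 ≤ 2 * m := by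
        have := not_lt.1 hc
        rwa [div_le_iff₀ hm0] at this
      have e : (1 + ‖x‖^2)^(-b) = (1+‖x‖^2)^(-b-1) * (1+‖x‖^2) := by
        rw [Real.rpow_sub_one hW.ne']; field_simp
      rw [e, abs_mul, abs_mul, abs_div, abs_of_pos hA, abs_of_pos hW, abs_of_pos hm0]
      calc (1+‖x‖^2)^(-b-1) * (1+‖x‖^2) * (|deriv h (‖x‖^2/m)| / m)
          = (1+‖x‖^2)^(-b-1) * |deriv h (‖x‖^2/m)| * ((1+‖x‖^2) / m) := by ring
        _ ≤ (1+‖x‖^2)^(-b-1) * K * 4 := by
            gcongr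
            · exact hK _
            · rw [div_le_iff₀ hm0]; linarith
        _ = 4*K * (1+‖x‖^2)^(-b-1) := by ring
  unfold gN
  calc _ ≤ _ := abs_add_le _ _
    _ ≤ |b| * (1+‖x‖^2)^(-b-1) + 4*K * (1+‖x‖^2)^(-b-1) := add_le_add h1 h2
    _ = _ := by ring

theorem eventually_lt {n : ℕ} (x : E n) : ∀ᶠ k : ℕ in atTop, ‖x‖^2/((k:ℝ)+1) < 1 := by
  obtain ⟨N, hN⟩ := exists_nat_gt (‖x‖^2)
  filter_upwards [eventually_ge_atTop N] with k hk
  have : (N:ℝ) ≤ k := by exact_mod_cast hk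
  rw [div_lt_one (by positivity)]
  linarith

theorem uN_eventually {n : ℕ} (b : ℝ) (x : E n) :
    ∀ᶠ k : ℕ in atTop, uN b ((k:ℝ)+1) x = (1+‖x‖^2)^(-b) := by
  filter_upwards [eventually_lt x] with k hk
  unfold uN
  rw [h_one hk.le, mul_one]

theorem gN_eventually {n : ℕ} (b : ℝ) (x : E n) :
    ∀ᶠ k : ℕ in atTop, gN b ((k:ℝ)+1) x = -b * (1+‖x‖^2)^(-b-1) := by
  filter_upwards [eventually_lt x] with k hk
  unfold gN
  rw [h_one hk.le, h_deriv_lt hk]
  simp

theorem uN_nonneg {n : ℕ} (b m : ℝ) (x : E n) : 0 ≤ uN b m x := by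
  unfold uN
  have := h_nonneg (‖x‖^2/m)
  positivity

theorem uN_le {n : ℕ} (b m : ℝ) (x : E n) : uN b m x ≤ (1+‖x‖^2)^(-b) := by
  unfold uN
  exact mul_le_of_le_one_right (by positivity) (h_le_one _)

theorem integrable_W {n : ℕ} {s : ℝ} (hs : s < -((n:ℝ)/2)) :
    Integrable (fun x : E n => (1+‖x‖^2)^s) := by
  have := integrable_rpow_neg_one_add_norm_sq (E := E n) (μ := volume) (r := -2*s)
    (by simp; linarith)
  convert this using 2
  congr 1; ring

theorem continuous_W {n : ℕ} (s : ℝ) : Continuous (fun x : E n => (1+‖x‖^2)^s) :=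
  (contDiff_W s).continuous

theorem continuous_gN {n : ℕ} (b m : ℝ) : Continuous (gN (n := n) b m) := by
  unfold gN
  have h1 := continuous_W (n := n) (-b)
  have h2 := continuous_W (n := n) (-b-1)
  have h3 : Continuous h := h_contDiff.continuous
  have h4 : Continuous (deriv h) := h_contDiff.continuous_deriv (by simp)
  fun_prop

theorem N_le_W {n : ℕ} (x : E n) : ‖x‖^2 ≤ 1 + ‖x‖^2 := by linarith

/-- `∫ ‖x‖² w^{s-1} = -(n/(2s)) ∫ w^s` for `s < -n/2`. -/
theorem integral_identity {n : ℕ} {s : ℝ} (hs : s < -((n:ℝ)/2)) :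
    2 * s * ∫ x : E n, ‖x‖^2 * (1+‖x‖^2)^(s-1) = -(n:ℝ) * ∫ x : E n, (1+‖x‖^2)^s := by
  have hI := integrable_W hs
  obtain ⟨C, hC0, hC⟩ := gN_bound (n := n) (-s)
  have hk1 : ∀ k : ℕ, (1:ℝ) ≤ (k:ℝ) + 1 := fun k => by
    have : (0:ℝ) ≤ k := Nat.cast_nonneg k
    linarith
  have L1 : Tendsto (fun k : ℕ => ∫ x : E n, uN (-s) ((k:ℝ)+1) x) atTop
      (𝓝 (∫ x : E n, (1+‖x‖^2)^s)) := by
    apply tendsto_integral_of_dominated_convergence (fun x : E n => (1+‖x‖^2)^s)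
    · intro k
      exact (uN_contDiff _ _).continuous.aestronglyMeasurable
    · exact hI
    · intro k
      filter_upwards with x
      rw [Real.norm_eq_abs, abs_of_nonneg (uN_nonneg _ _ _)]
      have := uN_le (-s) ((k:ℝ)+1) x
      rwa [neg_neg] at this
    · filter_upwards with x
      apply tendsto_const_nhds.congr'
      filter_upwards [uN_eventually (-s) x] with k hk
      rw [hk, neg_neg]
  have L2 : Tendsto (fun k : ℕ => ∫ x : E n, 2 * ‖x‖^2 * gN (-s) ((k:ℝ)+1) x) atTop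
      (𝓝 (∫ x : E n, 2 * s * (‖x‖^2 * (1+‖x‖^2)^(s-1)))) := by
    apply tendsto_integral_of_dominated_convergence (fun x : E n => 2 * C * (1+‖x‖^2)^s)
    · intro k
      have := continuous_gN (n := n) (-s) ((k:ℝ)+1)
      apply Continuous.aestronglyMeasurable
      fun_prop
    · exact hI.const_mul _
    · intro k
      filter_upwards with x
      rw [Real.norm_eq_abs, abs_mul, abs_of_nonneg (by positivity)]
      have := hC ((k:ℝ)+1) (hk1 k) x
      have hW := W_pos x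
      have e : (1+‖x‖^2)^(- -s - 1) = (1+‖x‖^2)^s / (1+‖x‖^2) := by
        rw [neg_neg, Real.rpow_sub_one hW.ne']
      rw [e] at this
      have hA : 0 < (1+‖x‖^2)^s := Real.rpow_pos_of_pos hW _
      calc 2 * ‖x‖^2 * |gN (-s) ((k:ℝ)+1) x|
          ≤ 2 * (1+‖x‖^2) * (C * ((1+‖x‖^2)^s / (1+‖x‖^2))) := by
            gcongr
            linarith
        _ = 2 * C * (1+‖x‖^2)^s := by field_simp
    · filter_upwards with x
      apply tendsto_const_nhds.congr'
      filter_upwards [gN_eventually (-s) x] with k hk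
      rw [hk, neg_neg]
      ring
  have E1 : ∀ k : ℕ, ∫ x : E n, 2 * ‖x‖^2 * gN (-s) ((k:ℝ)+1) x
      = -(n:ℝ) * ∫ x : E n, uN (-s) ((k:ℝ)+1) x := by
    intro k
    rw [← ibp ((uN_contDiff _ _).of_le (by simp)) (uN_compact _ (by positivity))]
    congr 1
    ext x
    rw [(uN_hasFDerivAt _ _ x).fderiv]
    simp only [_root_.smul_apply, smul_eq_mul, innerSL_apply_apply, nsmul_eq_mul,
      real_inner_self_eq_norm_sq]
    push_cast
    ring
  have L3 := L1.const_mul (-(n:ℝ))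
  have := tendsto_nhds_unique (L2.congr E1) L3
  rw [← this, integral_const_mul]

end PoolH296.WHardy
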