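import Pool.Agent.H296R3.Hardy2

open MeasureTheory Real Filter Topology Set
open scoped ContDiff

namespace PoolH296.WHardy

/-- Admissible functions: nonzero `u ∈ C_c^∞(ℝⁿ)`, with the constraint
`∫ (1+|x|²)^{α-1} u = 0` when `α < -(n-2)/2`. -/
def Admissible (n : ℕ) (α : ℝ) : Set (E n → ℝ) :=
  {u | ContDiff ℝ ∞ u ∧ HasCompactSupport u ∧ u ≠ 0 ∧
    (α < -(((n:ℝ)-2)/2) → ∫ x, (1+‖x‖^2)^(α-1) * u x = 0)}

/-- The quotient of the weighted Hardy inequality. -/
noncomputable def quotient (n : ℕ) (α : ℝ) (u : E n → ℝ) : ℝ :=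
  (∫ x, (1+‖x‖^2)^α * ‖gradient u x‖^2) / (∫ x, (1+‖x‖^2)^(α-1) * u x^2)

/-- `C(α,n)`: the infimum of the quotient over the admissible functions. -/
noncomputable def bestConst (n : ℕ) (α : ℝ) : ℝ := sInf (quotient n α '' Admissible n α)

theorem mass_pos {n : ℕ} (α : ℝ) {u : E n → ℝ} (hu : Continuous u) (hs : HasCompactSupport u)
    (h0 : u ≠ 0) : 0 < ∫ x, (1+‖x‖^2)^(α-1) * u x^2 := by
  have hs2 : HasCompactSupport (fun x => u x^2) := hs.comp_left (g := fun t : ℝ => t^2) (by simp)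
  have hne : (fun x : E n => (1+‖x‖^2)^(α-1) * u x^2) ≠ 0 := by
    intro h
    apply h0
    ext x
    have := congrFun h x
    simp only [Pi.zero_apply] at this ⊢
    have hA : 0 < (1+‖x‖^2)^(α-1) := Real.rpow_pos_of_pos (W_pos x) _
    simpa [hA.ne'] using this
  obtain ⟨x0, hx0⟩ := Function.ne_iff.1 hne
  apply Continuous.integral_pos_of_hasCompactSupport_nonneg_nonzero (x := x0)
  · have := continuous_W (n := n) (α-1)
    fun_prop
  · exact hs2.mul_left
  · intro x; positivity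
  · exact hx0

theorem lower_bound {n : ℕ} (α c : ℝ) {u : E n → ℝ} (hu : ContDiff ℝ 1 u)
    (hs : HasCompactSupport u) (h0 : u ≠ 0)
    (hc : c * (∫ x, (1+‖x‖^2)^(α-1) * u x^2) ≤ ∫ x, (1+‖x‖^2)^α * ‖gradient u x‖^2) :
    c ≤ quotient n α u := by
  unfold quotient
  rw [le_div_iff₀ (mass_pos α hu.continuous hs h0)]
  exact hc

theorem lower_large {n : ℕ} {α : ℝ} {u : E n → ℝ} (hu : ContDiff ℝ 1 u)
    (hs : HasCompactSupport u) :
    2*n*(α-1) * (∫ x, (1+‖x‖^2)^(α-1) * u x^2) ≤ ∫ x, (1+‖x‖^2)^α * ‖gradient u x‖^2 := by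
  have := lower_key α (α-1) hu hs
  rw [sub_self] at this
  linarith

theorem lower_small {n : ℕ} {α : ℝ} (hα : -(((n:ℝ)-2)/2) < α) (hα2 : α ≤ 1 + n/2)
    {u : E n → ℝ} (hu : ContDiff ℝ 1 u) (hs : HasCompactSupport u) :
    ((n:ℝ)+2*α-2)^2/4 * (∫ x, (1+‖x‖^2)^(α-1) * u x^2)
      ≤ ∫ x, (1+‖x‖^2)^α * ‖gradient u x‖^2 := by
  have h1 := lower_key α (((n:ℝ)+2*α-2)/4) hu hs
  have hs2 : HasCompactSupport (fun x => u x^2) := hs.comp_left (g := fun t : ℝ => t^2) (by simp)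
  have huc := hu.continuous
  have hmono : ∫ x, ‖x‖^2*(1+‖x‖^2)^(α-2)* u x^2 ≤ ∫ x, (1+‖x‖^2)^(α-1) * u x^2 := by
    apply integral_mono
    · apply Continuous.integrable_of_hasCompactSupport
      · have := continuous_W (n := n) (α-2)
        fun_prop
      · exact hs2.mul_left
    · apply Continuous.integrable_of_hasCompactSupport
      · have := continuous_W (n := n) (α-1)
        fun_prop
      · exact hs2.mul_left
    · intro x
      have hW := W_pos x
      have e : (1+‖x‖^2)^(α-1) = (1+‖x‖^2) * (1+‖x‖^2)^(α-2) := by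
        rw [show α - 1 = (α-2) + 1 by ring, Real.rpow_add_one hW.ne']; ring
      show ‖x‖^2*(1+‖x‖^2)^(α-2)* u x^2 ≤ (1+‖x‖^2)^(α-1) * u x^2
      rw [e]
      gcongr
      linarith
  have hb : 0 < ((n:ℝ)+2*α-2)/4 := by linarith
  have hc : 4*(((n:ℝ)+2*α-2)/4)*(α-1-((n:ℝ)+2*α-2)/4) ≤ 0 := by
    apply mul_nonpos_of_nonneg_of_nonpos
    · linarith
    · linarith
  have h2 := mul_le_mul_of_nonpos_left hmono hc
  nlinarith

theorem uN_admissible {n : ℕ} {α : ℝ} (hα : -(((n:ℝ)-2)/2) < α) (b : ℝ) {m : ℝ} (hm : 0 < m) :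
    uN b m ∈ Admissible n α := by
  refine ⟨uN_contDiff b m, uN_compact b hm, ?_, fun h => absurd hα (not_lt.2 h.le)⟩
  intro h0
  have := congrFun h0 0
  simp [uN, h_one] at this

theorem upper_bound {n : ℕ} (hn : 1 ≤ n) {α : ℝ} (hα : -(((n:ℝ)-2)/2) < α) {b c : ℝ}
    (hb : (n:ℝ)/2 < 2*b+1-α) (hc : ∀ u ∈ Admissible n α, c ≤ quotient n α u) :
    c ≤ 2*n*b^2/(2*b+1-α) := by
  set s := α - 1 - 2*b with hsdef
  have hs : s < -((n:ℝ)/2) := by rw [hsdef]; linarith
  have hI := integrable_W hs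
  obtain ⟨C, hC0, hC⟩ := gN_bound (n := n) b
  have hk1 : ∀ k : ℕ, (1:ℝ) ≤ (k:ℝ) + 1 := fun k => by
    have : (0:ℝ) ≤ k := Nat.cast_nonneg k
    linarith
  have L1 : Tendsto (fun k : ℕ => ∫ x : E n, (1+‖x‖^2)^(α-1) * uN b ((k:ℝ)+1) x^2) atTop
      (𝓝 (∫ x : E n, (1+‖x‖^2)^s)) := by
    apply tendsto_integral_of_dominated_convergence (fun x : E n => (1+‖x‖^2)^s)
    · intro k
      have h1 := continuous_W (n := n) (α-1)
      have h2 := (uN_contDiff (n := n) b ((k:ℝ)+1)).continuous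
      apply Continuous.aestronglyMeasurable
      fun_prop
    · exact hI
    · intro k
      filter_upwards with x
      have hW := W_pos x
      have e : (1+‖x‖^2)^s = (1+‖x‖^2)^(α-1) * ((1+‖x‖^2)^(-b))^2 := by
        rw [← Real.rpow_natCast ((1+‖x‖^2)^(-b)) 2, ← Real.rpow_mul hW.le, ← Real.rpow_add hW]
        congr 1
        rw [hsdef]; push_cast; ring
      rw [Real.norm_eq_abs, abs_of_nonneg (by positivity), e]
      have := uN_le b ((k:ℝ)+1) x
      have := uN_nonneg b ((k:ℝ)+1) x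
      gcongr
    · filter_upwards with x
      have hW := W_pos x
      have e : (1+‖x‖^2)^s = (1+‖x‖^2)^(α-1) * ((1+‖x‖^2)^(-b))^2 := by
        rw [← Real.rpow_natCast ((1+‖x‖^2)^(-b)) 2, ← Real.rpow_mul hW.le, ← Real.rpow_add hW]
        congr 1
        rw [hsdef]; push_cast; ring
      apply tendsto_const_nhds.congr'
      filter_upwards [uN_eventually b x] with k hk
      rw [hk, e]
  have L2 : Tendsto (fun k : ℕ => ∫ x : E n, (1+‖x‖^2)^α * ‖gradient (uN b ((k:ℝ)+1)) x‖^2) atTop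
      (𝓝 (∫ x : E n, 4 * b^2 * (‖x‖^2 * (1+‖x‖^2)^(s-1)))) := by
    have e0 : ∀ x : E n, (1+‖x‖^2)^α * ((1+‖x‖^2)^(-b-1))^2 = (1+‖x‖^2)^(s-1) := by
      intro x
      have hW := W_pos x
      rw [← Real.rpow_natCast ((1+‖x‖^2)^(-b-1)) 2, ← Real.rpow_mul hW.le, ← Real.rpow_add hW]
      congr 1
      rw [hsdef]; push_cast; ring
    apply tendsto_integral_of_dominated_convergence (fun x : E n => 4 * C^2 * (1+‖x‖^2)^s)
    · intro k
      have h1 := continuous_W (n := n) α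
      have h2 := continuous_gN (n := n) b ((k:ℝ)+1)
      simp_rw [uN_grad]
      apply Continuous.aestronglyMeasurable
      fun_prop
    · exact hI.const_mul _
    · intro k
      filter_upwards with x
      have hW := W_pos x
      rw [Real.norm_eq_abs, abs_of_nonneg (by positivity), uN_grad, ← sq_abs (gN b _ x)]
      have h1 := hC ((k:ℝ)+1) (hk1 k) x
      calc (1+‖x‖^2)^α * (4 * ‖x‖^2 * |gN b ((k:ℝ)+1) x|^2)
          ≤ (1+‖x‖^2)^α * (4 * (1+‖x‖^2) * (C * (1+‖x‖^2)^(-b-1))^2) := by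
            gcongr
            linarith
        _ = 4 * C^2 * (((1+‖x‖^2)^α * ((1+‖x‖^2)^(-b-1))^2) * (1+‖x‖^2)) := by ring
        _ = 4 * C^2 * (1+‖x‖^2)^s := by
            rw [e0, ← Real.rpow_add_one hW.ne']
            congr 2; ring
    · filter_upwards with x
      apply tendsto_const_nhds.congr'
      filter_upwards [gN_eventually b x] with k hk
      rw [uN_grad, hk, ← e0 x]
      ring
  have hB : 0 < ∫ x : E n, (1+‖x‖^2)^s := by
    rw [integral_pos_iff_support_of_nonneg_ae]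
    · have : Function.support (fun x : E n => (1+‖x‖^2)^s) = Set.univ := by
        ext x
        simp only [Function.mem_support, Set.mem_univ, iff_true]
        exact (Real.rpow_pos_of_pos (W_pos x) _).ne'
      rw [this]
      exact isOpen_univ.measure_pos volume univ_nonempty
    · filter_upwards with x
      have := W_pos x
      show 0 ≤ (1+‖x‖^2)^s
      positivity
    · exact hI
  have hid := integral_identity hs
  have hk : ∀ k : ℕ, c * (∫ x : E n, (1+‖x‖^2)^(α-1) * uN b ((k:ℝ)+1) x^2)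
      ≤ ∫ x : E n, (1+‖x‖^2)^α * ‖gradient (uN b ((k:ℝ)+1)) x‖^2 := by
    intro k
    have hm : (0:ℝ) < (k:ℝ)+1 := by positivity
    have hA := uN_admissible hα b hm
    have h1 := hc _ hA
    unfold quotient at h1
    rwa [le_div_iff₀ (mass_pos α hA.1.continuous hA.2.1 hA.2.2.1)] at h1
  have hlim := le_of_tendsto_of_tendsto' (L1.const_mul c) L2 hk
  rw [integral_const_mul] at hlim
  have hs0 : s < 0 := by
    have : (0:ℝ) ≤ n := Nat.cast_nonneg n
    linarith
  set B := ∫ x : E n, (1+‖x‖^2)^s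
  set J := ∫ x : E n, ‖x‖^2 * (1+‖x‖^2)^(s-1)
  have hJ : J = (-(n:ℝ) / (2*s)) * B := by
    rw [div_mul_eq_mul_div, eq_div_iff (by linarith)]
    linarith
  rw [hJ] at hlim
  have e2 : 4 * b^2 * (-(n:ℝ) / (2*s) * B) = (2*n*b^2/(2*b+1-α)) * B := by
    have : 2*b+1-α = -s := by rw [hsdef]; ring
    rw [this]
    field_simp
    ring
  rw [e2] at hlim
  exact le_of_mul_le_mul_right hlim hB

/-- The value of `C(α,n)` for `α > -(n-2)/2`. -/
theorem bestConst_eq {n : ℕ} (hn : 1 ≤ n) {α : ℝ} (hα : -(((n:ℝ)-2)/2) < α) :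
    IsGLB (quotient n α '' Admissible n α)
      (if α ≤ 1 + n/2 then ((n:ℝ)+2*α-2)^2/4 else 2*n*(α-1)) := by
  have hn' : (1:ℝ) ≤ n := by exact_mod_cast hn
  constructor
  · rintro _ ⟨u, hu, rfl⟩
    apply lower_bound α _ (hu.1.of_le (by simp)) hu.2.1 hu.2.2.1
    split_ifs with h1
    · exact lower_small hα h1 (hu.1.of_le (by simp)) hu.2.1
    · exact lower_large (hu.1.of_le (by simp)) hu.2.1
  · intro c hc
    have hc' : ∀ u ∈ Admissible n α, c ≤ quotient n α u := fun u hu => hc ⟨u, hu, rfl⟩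
    split_ifs with h1
    · -- limit b ↓ β_c
      have hlim : Tendsto (fun ε : ℝ => 2*n*(((n:ℝ)+2*α-2)/4+ε)^2/(2*(((n:ℝ)+2*α-2)/4+ε)+1-α))
          (𝓝[>] 0) (𝓝 (2*n*(((n:ℝ)+2*α-2)/4+0)^2/(2*(((n:ℝ)+2*α-2)/4+0)+1-α))) := by
        apply tendsto_nhdsWithin_of_tendsto_nhds
        apply ContinuousAt.tendsto
        apply ContinuousAt.div
        · fun_prop
        · fun_prop
        · have : 2*(((n:ℝ)+2*α-2)/4+0)+1-α = n/2 := by ring
          rw [this]; positivity
      have e : 2*n*(((n:ℝ)+2*α-2)/4+0)^2/(2*(((n:ℝ)+2*α-2)/4+0)+1-α) = ((n:ℝ)+2*α-2)^2/4 := by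
        have : 2*(((n:ℝ)+2*α-2)/4+0)+1-α = n/2 := by ring
        rw [this]
        field_simp
        ring
      rw [e] at hlim
      apply ge_of_tendsto hlim
      filter_upwards [self_mem_nhdsWithin] with ε hε
      apply upper_bound hn hα _ hc'
      have : (0:ℝ) < ε := hε
      linarith
    · have h1' : 1 + (n:ℝ)/2 < α := not_le.1 h1
      have := upper_bound hn hα (b := α-1) (by linarith) hc'
      have e : 2*n*(α-1)^2/(2*(α-1)+1-α) = 2*n*(α-1) := by
        have : 2*(α-1)+1-α = α-1 := by ring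
        rw [this]
        have : α - 1 ≠ 0 := by
          have : 0 < α - 1 := by linarith
          exact this.ne'
        field_simp
      rwa [e] at this

end PoolH296.WHardy
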