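import Pool.Agent.H296R3.Polar
import Pool.Agent.H296R3.GaussE

open MeasureTheory Real Filter Topology Set
open scoped ContDiff

namespace PoolH296.WHardy

section mean

variable {n : ℕ} [NeZero n]

/-- spherical mean -/
noncomputable def phi (u : E n → ℝ) (r : ℝ) : ℝ :=
  ((sig n).real univ)⁻¹ * ∫ θ, u (r • θ.1) ∂(sig n)

/-- spherical mean of the radial derivative -/
noncomputable def dphi (u : E n → ℝ) (r : ℝ) : ℝ :=
  ((sig n).real univ)⁻¹ * ∫ θ, fderiv ℝ u (r • θ.1) θ.1 ∂(sig n)

theorem linear_mean_zero (L : E n →L[ℝ] ℝ) : ∫ θ, L θ.1 ∂(sig n) = 0 := by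
  set F : E n → ℝ := fun x => L x * h (‖x‖^2) with hF
  have hhc : Continuous h := h_contDiff.continuous
  have hcs : HasCompactSupport (fun x : E n => h (‖x‖^2)) := by
    have := uN_compact (n := n) 0 (m := 1) one_pos
    have e : (uN (n := n) 0 1) = fun x : E n => h (‖x‖^2) := by
      funext x; simp [uN]
    rwa [e] at this
  have hFi : Integrable F := by
    apply Continuous.integrable_of_hasCompactSupport
    · fun_prop
    · exact hcs.mul_left
  have h0 : ∫ x, F x = 0 := by
    have h1 : ∫ x, F (-x) = ∫ x, F x := integral_neg_eq_self F volume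
    have h2 : ∀ x, F (-x) = - F x := by intro x; simp [hF]
    simp_rw [h2] at h1
    rw [integral_neg] at h1
    linarith
  have h1 := polar hFi
  rw [h0] at h1
  have h2 : ∀ r ∈ Ioi (0:ℝ), r^(n-1) * ∫ θ, F (r • θ.1) ∂(sig n)
      = (r^(n-1) * (r * h (r^2))) * ∫ θ, L θ.1 ∂(sig n) := by
    intro r hr
    have : ∀ θ : Metric.sphere (0 : E n) 1, F (r • θ.1) = (r * h (r^2)) * L θ.1 := by
      intro θ
      have hθ : ‖θ.1‖ = 1 := by simpa using θ.2
      simp only [hF, map_smul, smul_eq_mul, norm_smul, hθ, mul_one, Real.norm_eq_abs, sq_abs]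
      ring
    simp_rw [this]
    rw [integral_const_mul]
    ring
  rw [setIntegral_congr_fun measurableSet_Ioi h2, integral_mul_const] at h1
  have hpos : 0 < ∫ r in Ioi (0:ℝ), r^(n-1) * (r * h (r^2)) := by
    have hc : Continuous (fun r : ℝ => r^(n-1) * (r * h (r^2))) := by fun_prop
    have hcs' : HasCompactSupport (fun r : ℝ => r^(n-1) * (r * h (r^2))) := by
      apply HasCompactSupport.intro (K := Icc (-2) 2) isCompact_Icc
      intro r hr
      rw [h_zero, mul_zero, mul_zero]
      by_contra hcon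
      apply hr
      rw [not_le] at hcon
      constructor <;> nlinarith
    rw [setIntegral_pos_iff_support_of_nonneg_ae]
    · have hsub : Ioo (0:ℝ) 1 ⊆ Function.support (fun r : ℝ => r^(n-1) * (r * h (r^2))) ∩ Ioi 0 := by
        intro r hr
        refine ⟨?_, hr.1⟩
        rw [Function.mem_support, h_one (by nlinarith [hr.1, hr.2]), mul_one]
        have := hr.1
        positivity
      refine lt_of_lt_of_le ?_ (measure_mono hsub)
      simp
    · rw [EventuallyLE, ae_restrict_iff' measurableSet_Ioi]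
      filter_upwards with r hr
      have := h_nonneg (r^2)
      have hr' : 0 < r := hr
      show 0 ≤ r^(n-1) * (r * h (r^2))
      positivity
    · exact (hc.integrable_of_hasCompactSupport hcs').integrableOn
  rcases mul_eq_zero.1 h1.symm with h3 | h3
  · exact absurd h3 hpos.ne'
  · exact h3

variable {u : E n → ℝ}

theorem smul_sphere_norm (r : ℝ) (θ : Metric.sphere (0 : E n) 1) : ‖r • θ.1‖ = |r| := by
  have hθ : ‖θ.1‖ = 1 := by simpa using θ.2
  rw [norm_smul, hθ, mul_one, Real.norm_eq_abs]

theorem smul_sphere_cont (r : ℝ) : Continuous (fun θ : Metric.sphere (0 : E n) 1 => r • θ.1) := by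
  fun_prop

theorem phi_hasDerivAt (hu : ContDiff ℝ 1 u) (hs : HasCompactSupport u) (r : ℝ) :
    HasDerivAt (phi u) (dphi u r) r := by
  have hdc : Continuous (fderiv ℝ u) := hu.continuous_fderiv one_ne_zero
  obtain ⟨C, hC⟩ := hdc.bounded_above_of_compact_support (hs.fderiv (𝕜 := ℝ))
  obtain ⟨C', hC'⟩ := hu.continuous.bounded_above_of_compact_support hs
  have hcomp : ∀ r : ℝ, Continuous (fun θ : Metric.sphere (0 : E n) 1 => u (r • θ.1)) := fun r =>
    hu.continuous.comp (smul_sphere_cont r)
  have hcomp' : ∀ r : ℝ, Continuous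
      (fun θ : Metric.sphere (0 : E n) 1 => fderiv ℝ u (r • θ.1) θ.1) := fun r =>
    (hdc.comp (smul_sphere_cont r)).clm_apply continuous_subtype_val
  unfold phi dphi
  apply HasDerivAt.const_mul
  refine (hasDerivAt_integral_of_dominated_loc_of_deriv_le
    (F := fun r (θ : Metric.sphere (0 : E n) 1) => u (r • θ.1))
    (F' := fun r (θ : Metric.sphere (0 : E n) 1) => fderiv ℝ u (r • θ.1) θ.1)
    (bound := fun _ => C) (s := Set.univ) univ_mem ?_ ?_ ?_ ?_ ?_ ?_).2
  · filter_upwards with r
    exact (hcomp r).aestronglyMeasurable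
  · exact (integrable_const C').mono' (hcomp r).aestronglyMeasurable
      (Eventually.of_forall fun θ => hC' _)
  · exact (hcomp' r).aestronglyMeasurable
  · filter_upwards with θ
    intro r _
    have hθ : ‖θ.1‖ = 1 := by simpa using θ.2
    calc ‖fderiv ℝ u (r • θ.1) θ.1‖ ≤ ‖fderiv ℝ u (r • θ.1)‖ * ‖θ.1‖ :=
          ContinuousLinearMap.le_opNorm _ _
      _ ≤ C := by rw [hθ, mul_one]; exact hC _
  · exact integrable_const _
  · filter_upwards with θ
    intro r _
    have h1 : HasDerivAt (fun r : ℝ => r • θ.1) θ.1 r := by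
      have := (hasDerivAt_id r).smul_const θ.1
      simpa using this
    exact ((hu.differentiable one_ne_zero) _).hasFDerivAt.comp_hasDerivAt r h1

theorem dphi_continuous (hu : ContDiff ℝ 1 u) (hs : HasCompactSupport u) :
    Continuous (dphi u) := by
  have hdc : Continuous (fderiv ℝ u) := hu.continuous_fderiv one_ne_zero
  obtain ⟨C, hC⟩ := hdc.bounded_above_of_compact_support (hs.fderiv (𝕜 := ℝ))
  unfold dphi
  apply Continuous.mul continuous_const
  apply continuous_of_dominated (bound := fun _ => C)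
  · intro r
    exact ((hdc.comp (smul_sphere_cont r)).clm_apply continuous_subtype_val).aestronglyMeasurable
  · intro r
    filter_upwards with θ
    have hθ : ‖θ.1‖ = 1 := by simpa using θ.2
    calc ‖fderiv ℝ u (r • θ.1) θ.1‖ ≤ ‖fderiv ℝ u (r • θ.1)‖ * ‖θ.1‖ :=
          ContinuousLinearMap.le_opNorm _ _
      _ ≤ C := by rw [hθ, mul_one]; exact hC _
  · exact integrable_const _
  · filter_upwards with θ
    have h1 : Continuous (fun r : ℝ => r • θ.1) := by fun_prop
    exact (hdc.comp h1).clm_apply continuous_const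

theorem dphi_zero : dphi u 0 = 0 := by
  unfold dphi
  simp only [zero_smul]
  rw [linear_mean_zero, mul_zero]

theorem phi_support (hs : HasCompactSupport u) :
    ∃ R : ℝ, 0 < R ∧ ∀ r, R < |r| → phi u r = 0 ∧ dphi u r = 0 := by
  obtain ⟨R1, hR1⟩ := hs.isCompact.isBounded.subset_closedBall 0
  obtain ⟨R2, hR2⟩ := (hs.fderiv (𝕜 := ℝ)).isCompact.isBounded.subset_closedBall 0
  refine ⟨max (max R1 R2) 1, by positivity, fun r hr => ⟨?_, ?_⟩⟩
  · have : ∀ θ : Metric.sphere (0 : E n) 1, u (r • θ.1) = 0 := by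
      intro θ
      by_contra hcon
      have h1 := hR1 (subset_tsupport _ hcon)
      rw [mem_closedBall_zero_iff, smul_sphere_norm] at h1
      have := lt_of_le_of_lt (le_trans (le_max_left R1 R2) (le_max_left _ _)) hr
      linarith
    unfold phi
    simp [this]
  · have : ∀ θ : Metric.sphere (0 : E n) 1, fderiv ℝ u (r • θ.1) = 0 := by
      intro θ
      by_contra hcon
      have h1 := hR2 (subset_tsupport _ hcon)
      rw [mem_closedBall_zero_iff, smul_sphere_norm] at h1
      have := lt_of_le_of_lt (le_trans (le_max_right R1 R2) (le_max_left _ _)) hr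
      linarith
    unfold dphi
    simp [this]

theorem integral_sphere_eq (r : ℝ) :
    ∫ θ, u (r • θ.1) ∂(sig n) = (sig n).real univ * phi u r := by
  unfold phi
  have := sig_pos (n := n)
  field_simp

theorem integral_sphere_deriv_eq (r : ℝ) :
    ∫ θ, fderiv ℝ u (r • θ.1) θ.1 ∂(sig n) = (sig n).real univ * dphi u r := by
  unfold dphi
  have := sig_pos (n := n)
  field_simp

/-- radial part -/
noncomputable def Phi (u : E n → ℝ) (x : E n) : ℝ := phi u ‖x‖

/-- derivative of the radial part -/
noncomputable def Phi' (u : E n → ℝ) (x : E n) : E n →L[ℝ] ℝ :=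
  (dphi u ‖x‖ / ‖x‖) • innerSL ℝ x

theorem Phi_hasFDerivAt (hu : ContDiff ℝ 1 u) (hs : HasCompactSupport u) (x : E n) :
    HasFDerivAt (Phi u) (Phi' u x) x := by
  by_cases hx : x = 0
  · subst hx
    have h0 : Phi' u (0 : E n) = 0 := by
      unfold Phi'; simp
    rw [h0]
    have h1 := phi_hasDerivAt hu hs 0
    rw [dphi_zero] at h1
    rw [hasFDerivAt_iff_isLittleO_nhds_zero]
    rw [hasDerivAt_iff_isLittleO_nhds_zero] at h1
    have h2 : Tendsto (fun x : E n => ‖x‖) (𝓝 0) (𝓝 0) := by
      have := (continuous_norm (E := E n)).tendsto 0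
      simpa using this
    have h3 := (h1.comp_tendsto h2).norm_right
    simp only [Function.comp_def, norm_norm] at h3
    have h4 := h3.of_norm_right
    refine h4.congr_left ?_
    intro y
    simp [Phi]
  · have hn : ‖x‖ ≠ 0 := norm_ne_zero_iff.2 hx
    have h1 : HasFDerivAt (fun x : E n => ‖x‖) (‖x‖⁻¹ • innerSL ℝ x) x := by
      have h2 := (hasStrictFDerivAt_norm_sq x).hasFDerivAt
      have h3 : HasDerivAt Real.sqrt (1/(2*√(‖x‖^2))) (‖x‖^2) :=
        Real.hasDerivAt_sqrt (by positivity)
      have h4 := h3.comp_hasFDerivAt x h2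
      have e1 : (Real.sqrt ∘ fun x : E n => ‖x‖^2) = fun x : E n => ‖x‖ := by
        funext y
        simp only [Function.comp_apply]
        exact Real.sqrt_sq (norm_nonneg y)
      rw [e1] at h4
      have e2 : (1/(2*√(‖x‖^2))) • (2 • innerSL ℝ x) = ‖x‖⁻¹ • innerSL ℝ x := by
        rw [Real.sqrt_sq (norm_nonneg x)]
        ext y
        simp only [_root_.smul_apply, smul_eq_mul, nsmul_eq_mul]
        push_cast
        field_simp
      rwa [e2] at h4
    have h5 := (phi_hasDerivAt hu hs ‖x‖).comp_hasFDerivAt x h1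
    have e3 : Phi' u x = dphi u ‖x‖ • ‖x‖⁻¹ • innerSL ℝ x := by
      unfold Phi'
      rw [smul_smul, div_eq_mul_inv]
    rw [e3]
    exact h5

theorem Phi'_norm (x : E n) : ‖Phi' u x‖ = |dphi u ‖x‖| * (‖x‖/‖x‖) := by
  unfold Phi'
  rw [norm_smul, innerSL_apply_norm, norm_div, norm_norm, Real.norm_eq_abs]
  ring

theorem Phi'_norm_sq (x : E n) : ‖Phi' u x‖^2 = (dphi u ‖x‖)^2 := by
  rw [Phi'_norm]
  by_cases hx : x = 0
  · subst hx; simp [dphi_zero]
  · have hn : ‖x‖ ≠ 0 := norm_ne_zero_iff.2 hx
    rw [div_self hn, mul_one, sq_abs]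

theorem Phi'_continuous (hu : ContDiff ℝ 1 u) (hs : HasCompactSupport u) :
    Continuous (Phi' u) := by
  have hd := dphi_continuous hu hs
  rw [continuous_iff_continuousAt]
  intro x
  by_cases hx : x = 0
  · subst hx
    have h0 : Phi' u (0 : E n) = 0 := by
      unfold Phi'; simp
    rw [ContinuousAt, h0]
    rw [tendsto_zero_iff_norm_tendsto_zero]
    have h1 : Tendsto (fun x : E n => |dphi u ‖x‖|) (𝓝 0) (𝓝 0) := by
      have h2 : Continuous (fun x : E n => |dphi u ‖x‖|) := by fun_prop
      have := h2.tendsto 0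
      simpa [dphi_zero] using this
    refine squeeze_zero (fun x => norm_nonneg _) (fun x => ?_) h1
    rw [Phi'_norm]
    exact mul_le_of_le_one_right (abs_nonneg _) (div_self_le_one _)
  · have hn : ‖x‖ ≠ 0 := norm_ne_zero_iff.2 hx
    have hA : ContinuousAt (fun x : E n => dphi u ‖x‖ / ‖x‖) x := by
      apply ContinuousAt.div
      · exact (hd.comp continuous_norm).continuousAt
      · exact continuous_norm.continuousAt
      · exact hn
    have hB : ContinuousAt (fun x : E n => innerSL ℝ x) x :=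
      (innerSL ℝ (E := E n)).continuous.continuousAt
    exact hA.smul hB

theorem Phi_continuous (hu : ContDiff ℝ 1 u) (hs : HasCompactSupport u) : Continuous (Phi u) := by
  rw [continuous_iff_continuousAt]
  intro x; exact (Phi_hasFDerivAt hu hs x).continuousAt

theorem Phi_support (hs : HasCompactSupport u) : HasCompactSupport (Phi u) := by
  obtain ⟨R, hR0, hR⟩ := phi_support hs
  apply HasCompactSupport.intro (K := Metric.closedBall 0 R) (isCompact_closedBall _ _)
  intro x hx
  rw [mem_closedBall_zero_iff, not_le] at hx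
  exact (hR ‖x‖ (by rwa [abs_of_nonneg (norm_nonneg x)])).1

theorem Phi'_support (hs : HasCompactSupport u) : HasCompactSupport (Phi' u) := by
  obtain ⟨R, hR0, hR⟩ := phi_support hs
  apply HasCompactSupport.intro (K := Metric.closedBall 0 R) (isCompact_closedBall _ _)
  intro x hx
  rw [mem_closedBall_zero_iff, not_le] at hx
  unfold Phi'
  rw [(hR ‖x‖ (by rwa [abs_of_nonneg (norm_nonneg x)])).2]
  simp

theorem ortho (hu : ContDiff ℝ 1 u) (hs : HasCompactSupport u) {q : ℝ → ℝ} (hq : Continuous q) :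
    ∫ x : E n, (u x - Phi u x) * q ‖x‖ = 0 := by
  have hvc : Continuous (fun x => u x - Phi u x) := hu.continuous.sub (Phi_continuous hu hs)
  have hvs : HasCompactSupport (fun x => u x - Phi u x) := hs.sub (Phi_support hs)
  have hi : Integrable (fun x : E n => (u x - Phi u x) * q ‖x‖) := by
    apply Continuous.integrable_of_hasCompactSupport
    · exact hvc.mul (hq.comp continuous_norm)
    · exact hvs.mul_right
  rw [polar hi]
  have h2 : ∀ r ∈ Ioi (0:ℝ), r^(n-1) * ∫ θ, (u (r • θ.1) - Phi u (r • θ.1)) * q ‖r • θ.1‖ ∂(sig n)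
      = 0 := by
    intro r hr
    have hr' : 0 < r := hr
    have : ∀ θ : Metric.sphere (0 : E n) 1, (u (r • θ.1) - Phi u (r • θ.1)) * q ‖r • θ.1‖
        = (u (r • θ.1) - phi u r) * q r := by
      intro θ
      unfold Phi
      rw [smul_sphere_norm, abs_of_pos hr']
    simp_rw [this]
    have hint : Integrable (fun θ : Metric.sphere (0 : E n) 1 => u (r • θ.1)) (sig n) := by
      obtain ⟨C', hC'⟩ := hu.continuous.bounded_above_of_compact_support hs
      exact (integrable_const C').mono'
        (hu.continuous.comp (smul_sphere_cont r)).aestronglyMeasurable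
        (Eventually.of_forall fun θ => hC' _)
    rw [integral_mul_const, integral_sub hint (integrable_const _), integral_sphere_eq]
    simp
  rw [setIntegral_congr_fun measurableSet_Ioi h2]
  simp

theorem dual_norm_add_sq (A B : E n →L[ℝ] ℝ) :
    ‖A + B‖^2 = ‖A‖^2 + 2 * A ((InnerProductSpace.toDual ℝ (E n)).symm B) + ‖B‖^2 := by
  set T := (InnerProductSpace.toDual ℝ (E n)).symm with hT
  have h1 : ∀ L : E n →L[ℝ] ℝ, ‖L‖ = ‖T L‖ := fun L => by rw [hT, LinearIsometryEquiv.norm_map]
  have h2 : A (T B) = inner ℝ (T A) (T B) := by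
    rw [hT, InnerProductSpace.toDual_symm_apply]
  rw [h1 (A+B), map_add, norm_add_sq_real, ← h1 A, ← h1 B, h2]

theorem toDual_symm_Phi' (x : E n) :
    (InnerProductSpace.toDual ℝ (E n)).symm (Phi' u x) = (dphi u ‖x‖ / ‖x‖) • x := by
  unfold Phi'
  rw [LinearIsometryEquiv.symm_apply_eq]
  ext y
  simp

theorem ortho' (hu : ContDiff ℝ 1 u) (hs : HasCompactSupport u) (α : ℝ) :
    ∫ x : E n, (1+‖x‖^2)^α * ((fderiv ℝ u x - Phi' u x)
      ((InnerProductSpace.toDual ℝ (E n)).symm (Phi' u x))) = 0 := by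
  have hdc : Continuous (fderiv ℝ u) := hu.continuous_fderiv one_ne_zero
  have hpc := Phi'_continuous hu hs
  have hi : Integrable (fun x : E n => (1+‖x‖^2)^α * ((fderiv ℝ u x - Phi' u x)
      ((InnerProductSpace.toDual ℝ (E n)).symm (Phi' u x)))) := by
    apply Continuous.integrable_of_hasCompactSupport
    · apply (continuous_W α).mul
      apply (hdc.sub hpc).clm_apply
      exact (InnerProductSpace.toDual ℝ (E n)).symm.continuous.comp hpc
    · apply HasCompactSupport.mul_left
      rw [hasCompactSupport_iff_eventuallyEq]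
      have := Phi'_support (u := u) hs
      rw [hasCompactSupport_iff_eventuallyEq] at this
      filter_upwards [this] with x hx
      rw [hx]; simp
  rw [polar hi]
  have h2 : ∀ r ∈ Ioi (0:ℝ), r^(n-1) * ∫ θ, (1+‖r • θ.1‖^2)^α * ((fderiv ℝ u (r • θ.1)
      - Phi' u (r • θ.1)) ((InnerProductSpace.toDual ℝ (E n)).symm (Phi' u (r • θ.1)))) ∂(sig n)
      = 0 := by
    intro r hr
    have hr' : 0 < r := hr
    have : ∀ θ : Metric.sphere (0 : E n) 1, (1+‖r • θ.1‖^2)^α * ((fderiv ℝ u (r • θ.1)
      - Phi' u (r • θ.1)) ((InnerProductSpace.toDual ℝ (E n)).symm (Phi' u (r • θ.1))))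
        = ((1+r^2)^α * dphi u r) * (fderiv ℝ u (r • θ.1) θ.1 - dphi u r) := by
      intro θ
      have hθ : ‖θ.1‖ = 1 := by simp
      rw [toDual_symm_Phi', smul_sphere_norm, abs_of_pos hr', smul_smul,
        div_mul_cancel₀ _ hr'.ne', map_smul, _root_.sub_apply]
      unfold Phi'
      rw [smul_sphere_norm, abs_of_pos hr', _root_.smul_apply, innerSL_apply_apply,
        real_inner_smul_left, real_inner_self_eq_norm_sq, hθ]
      simp only [smul_eq_mul]
      field_simp
    simp_rw [this]
    have hint : Integrable (fun θ : Metric.sphere (0 : E n) 1 => fderiv ℝ u (r • θ.1) θ.1)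
        (sig n) := by
      obtain ⟨C', hC'⟩ := hdc.bounded_above_of_compact_support (hs.fderiv (𝕜 := ℝ))
      apply (integrable_const C').mono'
        ((hdc.comp (smul_sphere_cont r)).clm_apply continuous_subtype_val).aestronglyMeasurable
      filter_upwards with θ
      have hθ : ‖θ.1‖ = 1 := by simp
      calc ‖fderiv ℝ u (r • θ.1) θ.1‖ ≤ ‖fderiv ℝ u (r • θ.1)‖ * ‖θ.1‖ :=
            ContinuousLinearMap.le_opNorm _ _
        _ ≤ C' := by rw [hθ, mul_one]; exact hC' _
    rw [integral_const_mul, integral_sub hint (integrable_const _), integral_sphere_deriv_eq]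
    simp
  rw [setIntegral_congr_fun measurableSet_Ioi h2]
  simp

/-- Orthogonal splitting of the mass. -/
theorem split_mass (hu : ContDiff ℝ 1 u) (hs : HasCompactSupport u) (β : ℝ) :
    ∫ x : E n, (1+‖x‖^2)^β * u x^2
      = (∫ x : E n, (1+‖x‖^2)^β * (u x - Phi u x)^2) + ∫ x : E n, (1+‖x‖^2)^β * Phi u x^2 := by
  have hPc := Phi_continuous hu hs
  have hvc : Continuous (fun x => u x - Phi u x) := hu.continuous.sub hPc
  have hvs : HasCompactSupport (fun x => u x - Phi u x) := hs.sub (Phi_support hs)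
  have hphic : Continuous (phi u) := by
    rw [continuous_iff_continuousAt]
    intro t; exact (phi_hasDerivAt hu hs t).continuousAt
  have hWc := continuous_W (n := n) β
  have i1 : Integrable (fun x : E n => (1+‖x‖^2)^β * (u x - Phi u x)^2) := by
    have h2 : HasCompactSupport (fun x => (u x - Phi u x)^2) :=
      hvs.comp_left (g := fun t : ℝ => t^2) (by simp)
    exact (hWc.mul (hvc.pow 2)).integrable_of_hasCompactSupport h2.mul_left
  have i2 : Integrable (fun x : E n => (1+‖x‖^2)^β * Phi u x^2) := by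
    have h2 : HasCompactSupport (fun x => Phi u x^2) :=
      (Phi_support hs).comp_left (g := fun t : ℝ => t^2) (by simp)
    exact (hWc.mul (hPc.pow 2)).integrable_of_hasCompactSupport h2.mul_left
  have hq : Continuous (fun t : ℝ => 2 * (1+t^2)^β * phi u t) := by
    have : Continuous (fun t : ℝ => (1+t^2)^β) := by
      apply Continuous.rpow_const (by fun_prop)
      intro t; left; positivity
    fun_prop
  have h0 := ortho hu hs hq
  have i3 : Integrable (fun x : E n => (u x - Phi u x) * (2 * (1+‖x‖^2)^β * phi u ‖x‖)) := by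
    apply Continuous.integrable_of_hasCompactSupport
    · exact hvc.mul (hq.comp continuous_norm)
    · exact hvs.mul_right
  have i12 : Integrable (fun x : E n => (1+‖x‖^2)^β * (u x - Phi u x)^2
      + (1+‖x‖^2)^β * Phi u x^2) := i1.add i2
  rw [← add_zero ((∫ x : E n, (1+‖x‖^2)^β * (u x - Phi u x)^2) + _), ← h0,
    ← integral_add i1 i2, ← integral_add i12 i3]
  congr 1
  funext x
  simp only [Phi]
  ring

/-- Orthogonal splitting of the energy. -/
theorem split_energy (hu : ContDiff ℝ 1 u) (hs : HasCompactSupport u) (α : ℝ) :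
    ∫ x : E n, (1+‖x‖^2)^α * ‖fderiv ℝ u x‖^2
      = (∫ x : E n, (1+‖x‖^2)^α * ‖fderiv ℝ u x - Phi' u x‖^2)
        + ∫ x : E n, (1+‖x‖^2)^α * ‖Phi' u x‖^2 := by
  have hdc : Continuous (fderiv ℝ u) := hu.continuous_fderiv one_ne_zero
  have hpc := Phi'_continuous hu hs
  have hps := Phi'_support (u := u) hs
  have hvs : HasCompactSupport (fun x => fderiv ℝ u x - Phi' u x) := (hs.fderiv (𝕜 := ℝ)).sub hps
  have hWc := continuous_W (n := n) α
  have i1 : Integrable (fun x : E n => (1+‖x‖^2)^α * ‖fderiv ℝ u x - Phi' u x‖^2) := by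
    have h2 : HasCompactSupport (fun x => ‖fderiv ℝ u x - Phi' u x‖^2) :=
      hvs.comp_left (g := fun L : E n →L[ℝ] ℝ => ‖L‖^2) (by simp)
    exact (hWc.mul ((hdc.sub hpc).norm.pow 2)).integrable_of_hasCompactSupport h2.mul_left
  have i2 : Integrable (fun x : E n => (1+‖x‖^2)^α * ‖Phi' u x‖^2) := by
    have h2 : HasCompactSupport (fun x => ‖Phi' u x‖^2) :=
      hps.comp_left (g := fun L : E n →L[ℝ] ℝ => ‖L‖^2) (by simp)
    exact (hWc.mul (hpc.norm.pow 2)).integrable_of_hasCompactSupport h2.mul_left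
  have h0 := ortho' hu hs α
  have i3 : Integrable (fun x : E n => 2 * ((1+‖x‖^2)^α * ((fderiv ℝ u x - Phi' u x)
      ((InnerProductSpace.toDual ℝ (E n)).symm (Phi' u x))))) := by
    apply Integrable.const_mul
    apply Continuous.integrable_of_hasCompactSupport
    · apply (continuous_W α).mul
      apply (hdc.sub hpc).clm_apply
      exact (InnerProductSpace.toDual ℝ (E n)).symm.continuous.comp hpc
    · apply HasCompactSupport.mul_left
      rw [hasCompactSupport_iff_eventuallyEq] at hps ⊢
      filter_upwards [hps] with x hx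
      rw [hx]; simp
  have h0' : ∫ x : E n, 2 * ((1+‖x‖^2)^α * ((fderiv ℝ u x - Phi' u x)
      ((InnerProductSpace.toDual ℝ (E n)).symm (Phi' u x)))) = 0 := by
    rw [integral_const_mul, h0, mul_zero]
  have i12 : Integrable (fun x : E n => (1+‖x‖^2)^α * ‖fderiv ℝ u x - Phi' u x‖^2
      + (1+‖x‖^2)^α * ‖Phi' u x‖^2) := i1.add i2
  rw [← add_zero ((∫ x : E n, (1+‖x‖^2)^α * ‖fderiv ℝ u x - Phi' u x‖^2) + _), ← h0',
    ← integral_add i1 i2, ← integral_add i12 i3]
  congr 1
  funext x
  have := dual_norm_add_sq (fderiv ℝ u x - Phi' u x) (Phi' u x)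
  rw [sub_add_cancel] at this
  rw [this]
  ring

end mean

end PoolH296.WHardy
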