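import Pool.Agent.H862R3.Prim.Stmts2

/-! Project PRIMVAR, task II (the monolith `M / L` is abelian). -/

set_option autoImplicit false

namespace Pool.Agent.H296R3.PVII

open Pool.Agent.H862R3.Prim

/-- laws pass to subgroups -/
theorem laws_sub {W : Set (FreeGroup ℕ)} {G : Type} [Group G] (h : Laws W G) (H : Subgroup G) :
    Laws W H := by
  intro w hw f
  have h1 := h w hw (fun i => (f i : G))
  have h2 : FreeGroup.lift (fun i => (f i : G)) w = H.subtype (FreeGroup.lift f w) := by
    have : FreeGroup.lift (fun i => (f i : G)) = H.subtype.comp (FreeGroup.lift f) := by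
      ext i
      simp
    rw [this]
    rfl
  rw [h2] at h1
  exact H.subtype_injective (by simpa using h1)

/-- laws pass to quotients -/
theorem laws_surj {W : Set (FreeGroup ℕ)} {G H : Type} [Group G] [Group H] (h : Laws W G)
    (π : G →* H) (hπ : Function.Surjective π) : Laws W H := by
  intro w hw f
  choose g hg using fun i => hπ (f i)
  have h1 := h w hw g
  have h2 : FreeGroup.lift f = π.comp (FreeGroup.lift g) := by
    ext i
    simp [hg]
  rw [h2]
  simp [h1]

/-- the elements of exponent `s` of an abelian normal subgroup -/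
theorem tor {G : Type} [Group G] (D : Subgroup G) (hn : D.Normal) (hD : Comm D) (s : ℕ) :
    ∃ K : Subgroup G, K.Normal ∧ ∀ x, x ∈ K ↔ x ∈ D ∧ x ^ s = 1 := by
  refine ⟨{ carrier := {x | x ∈ D ∧ x ^ s = 1}
            mul_mem' := ?_
            one_mem' := ?_
            inv_mem' := ?_ }, ⟨?_⟩, fun x => Iff.rfl⟩
  · rintro a b ⟨ha, ha'⟩ ⟨hb, hb'⟩
    refine ⟨mul_mem ha hb, ?_⟩
    have : Commute a b := hD a ha b hb
    rw [this.mul_pow, ha', hb', one_mul]
  · exact ⟨one_mem _, one_pow _⟩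
  · rintro a ⟨ha, ha'⟩
    exact ⟨inv_mem ha, by rw [inv_pow, ha', inv_one]⟩
  · rintro n ⟨hn1, hn2⟩ g
    exact ⟨hn.conj_mem n hn1 g, by rw [conj_pow, hn2, mul_one, mul_inv_cancel]⟩

/-- the elements of `q`-power order of an abelian normal subgroup -/
theorem torp {G : Type} [Group G] (D : Subgroup G) (hn : D.Normal) (hD : Comm D) (q : ℕ) :
    ∃ K : Subgroup G, K.Normal ∧ ∀ x, x ∈ K ↔ x ∈ D ∧ ∃ k : ℕ, x ^ q ^ k = 1 := by
  refine ⟨{ carrier := {x | x ∈ D ∧ ∃ k : ℕ, x ^ q ^ k = 1}
            mul_mem' := ?_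
            one_mem' := ?_
            inv_mem' := ?_ }, ⟨?_⟩, fun x => Iff.rfl⟩
  · rintro a b ⟨ha, k, ha'⟩ ⟨hb, l, hb'⟩
    refine ⟨mul_mem ha hb, k + l, ?_⟩
    have : Commute a b := hD a ha b hb
    rw [this.mul_pow, pow_add, pow_mul, ha', one_pow, mul_comm, pow_mul, hb', one_pow, one_mul]
  · exact ⟨one_mem _, 0, one_pow _⟩
  · rintro a ⟨ha, k, ha'⟩
    exact ⟨inv_mem ha, k, by rw [inv_pow, ha', inv_one]⟩
  · rintro n ⟨hn1, k, hn2⟩ g
    exact ⟨hn.conj_mem n hn1 g, k, by rw [conj_pow, hn2, mul_one, mul_inv_cancel]⟩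

/-- an element whose orders are coprime is trivial -/
theorem eq_one_of_coprime {G : Type} [Group G] {x : G} {a b : ℕ} (h : Nat.Coprime a b)
    (ha : x ^ a = 1) (hb : x ^ b = 1) : x = 1 := by
  have h1 := orderOf_dvd_of_pow_eq_one ha
  have h2 := orderOf_dvd_of_pow_eq_one hb
  exact orderOf_eq_one_iff.1 (Nat.eq_one_of_dvd_coprimes h h1 h2)

/-- elements of a `q`-subgroup -/
theorem pg {G : Type} [Group G] {q : ℕ} {Q : Subgroup G} (h : IsPGroup q Q) :
    ∀ x ∈ Q, ∃ k : ℕ, x ^ q ^ k = 1 := by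
  intro x hx
  obtain ⟨k, hk⟩ := h ⟨x, hx⟩
  refine ⟨k, ?_⟩
  have h1 := congrArg Subtype.val hk
  rwa [Subgroup.coe_pow, Subgroup.coe_one] at h1

theorem comm_of {G : Type} [Group G] {a b : G} (h : a * b * a⁻¹ * b⁻¹ = 1) : a * b = b * a :=
  mul_inv_eq_iff_eq_mul.1 (mul_inv_eq_one.1 h)

/-- the structure of a finite monolithic group with abelian monolith -/
theorem mono (hT : TaskT) (W : Set (FreeGroup ℕ)) (hA : AbSyl W) (G : Type) [Group G] [Finite G]
    (hW : Laws W G) (M : Subgroup G) (hMn : M.Normal) (hM : M ≠ ⊥) (hMc : Comm M)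
    (hmin : ∀ K : Subgroup G, K.Normal → K ≠ ⊥ → M ≤ K) :
    ∃ r : ℕ, r.Prime ∧ IsPGroup r (Subgroup.centralizer (M : Set G)) ∧
      ∀ P : Sylow r G, (P : Subgroup G) = Subgroup.centralizer (M : Set G) := by
  classical
  set C := Subgroup.centralizer (M : Set G) with hC
  have hCn : C.Normal := by rw [hC]; infer_instance
  have hMC : M ≤ C := by
    intro m hm
    rw [hC, Subgroup.mem_centralizer_iff]
    intro x hx
    exact hMc x hx m hm
  -- a nontrivial element
  obtain ⟨m0, hm0, hm1⟩ : ∃ m ∈ M, m ≠ 1 := by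
    by_contra hcon
    push Not at hcon
    exact hM ((Subgroup.eq_bot_iff_forall _).2 hcon)
  -- the prime
  have hcard : Nat.card M ≠ 1 := by
    intro h
    exact hM (Subgroup.card_eq_one.1 h)
  obtain ⟨r, hr, hrd⟩ := Nat.exists_prime_and_dvd hcard
  haveI : Fact r.Prime := ⟨hr⟩
  have key : ∀ D : Subgroup G, D.Normal → Comm D → ∀ s : ℕ, s.Prime → s ∣ Nat.card D →
      ∀ m ∈ M, m ^ s = 1 := by
    intro D hDn hDc s hs hsd m hm
    haveI : Fact s.Prime := ⟨hs⟩
    obtain ⟨K, hKn, hK⟩ := tor D hDn hDc s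
    obtain ⟨x, hx⟩ := exists_prime_orderOf_dvd_card' (G := D) s hsd
    have hxs : (x : G) ^ s = 1 := by
      have := pow_orderOf_eq_one x
      rw [hx] at this
      exact_mod_cast congrArg (Subtype.val) this
    have hx1 : (x : G) ≠ 1 := by
      intro h
      have : x = 1 := Subtype.ext h
      rw [this, orderOf_one] at hx
      exact hs.one_lt.ne hx
    have hKb : K ≠ ⊥ := by
      intro h
      have : (x : G) ∈ K := (hK _).2 ⟨x.2, hxs⟩
      rw [h, Subgroup.mem_bot] at this
      exact hx1 this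
    exact ((hK m).1 (hmin K hKn hKb hm)).2
  have hMr : ∀ m ∈ M, m ^ r = 1 := key M hMn hMc r hr hrd
  have hWC : Laws W C := laws_sub hW C
  -- `C` is abelian
  have hCC : ⁅C, C⁆ = ⊥ := by
    by_contra hne
    have hle : M ≤ ⁅C, C⁆ := hmin _ (Subgroup.commutator_normal C C) hne
    obtain ⟨Q⟩ : Nonempty (Sylow r C) := inferInstance
    have hQ := hT C (Q : Subgroup C) r hr
      (hA C hWC r hr Q (pg Q.isPGroup')) (pg Q.isPGroup')
      ((Nat.Prime.coprime_iff_not_dvd hr).2 Q.not_dvd_index)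
      ⟨m0, hMC hm0⟩
      (by
        rw [Subgroup.mem_center_iff]
        intro g
        have hg := Subgroup.mem_centralizer_iff.1 g.2 m0 hm0
        exact Subtype.ext hg.symm)
      (by
        have h1 : m0 ∈ (commutator C).map C.subtype := by
          rw [Subgroup.map_subtype_commutator]
          exact hle hm0
        obtain ⟨y, hy, hy2⟩ := h1
        have : y = ⟨m0, hMC hm0⟩ := Subtype.ext hy2
        rw [← this]
        exact hy)
      ⟨1, by
        apply Subtype.ext
        simpa using hMr m0 hm0⟩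
    exact hm1 (congrArg Subtype.val hQ)
  have hCc : Comm C := by
    intro x hx y hy
    have h1 := Subgroup.commutator_eq_bot_iff_le_centralizer.1 hCC hy
    exact Subgroup.mem_centralizer_iff.1 h1 x hx
  -- `C` is an `r`-group
  have hCr : IsPGroup r C := by
    rw [IsPGroup.iff_card]
    refine ⟨_, Nat.eq_prime_pow_of_unique_prime_dvd Nat.card_pos.ne' ?_⟩
    intro s hs hsd
    by_contra hne
    exact hm1 (eq_one_of_coprime ((Nat.coprime_primes hs hr).2 hne)
      (key C hCn hCc s hs hsd m0 hm0) (hMr m0 hm0))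
  refine ⟨r, hr, hCr, fun P => ?_⟩
  have hCP : C ≤ P := hCr.le_sylow_of_normal P
  refine le_antisymm ?_ hCP
  have hPc : Comm (P : Subgroup G) := hA G hW r hr P (pg P.isPGroup')
  intro x hx
  rw [hC, Subgroup.mem_centralizer_iff]
  intro m hm
  exact hPc m (hCP (hMC hm)) x hx

theorem taskII : TaskII := by
  intro hT W q hq hTriv hA G _ _ hW hnq L M hLn hMn hLc hLM hmono hfrat hMc
  classical
  haveI : Fact q.Prime := ⟨hq⟩
  set π := QuotientGroup.mk' L with hπ
  have hπs : Function.Surjective π := QuotientGroup.mk'_surjective L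
  have hker : π.ker = L := QuotientGroup.ker_mk' L
  have hWb : Laws W (G ⧸ L) := laws_surj hW π hπs
  obtain ⟨hLM1, x0, hx0M, hx0L⟩ := SetLike.lt_iff_le_and_exists.1 hLM
  obtain ⟨r, hr, hCr, hSyl⟩ := mono hT W hA (G ⧸ L) hWb (M.map π) (hMn.map π hπs)
    (by
      intro h
      have : π x0 ∈ M.map π := Subgroup.mem_map_of_mem _ hx0M
      rw [h, Subgroup.mem_bot] at this
      have h2 : x0 ∈ π.ker := this
      rw [hker] at h2
      exact hx0L h2)
    (by
      rintro _ ⟨x, hx, rfl⟩ _ ⟨y, hy, rfl⟩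
      have h1 := hMc x hx y hy
      rw [← hker, MonoidHom.mem_ker] at h1
      simp only [map_mul, map_inv] at h1
      exact comm_of h1)
    (by
      intro K hK hKb
      rw [Subgroup.map_le_iff_le_comap]
      apply hmono _ (hK.comap π)
      rw [SetLike.lt_iff_le_and_exists]
      refine ⟨?_, ?_⟩
      · intro x hx
        have h1 : x ∈ π.ker := by
          rw [hker]
          exact hx
        show π x ∈ K
        rw [MonoidHom.mem_ker.1 h1]
        exact K.one_mem
      · obtain ⟨y, hy, hy1⟩ : ∃ y ∈ K, y ≠ 1 := by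
          by_contra hcon
          push Not at hcon
          exact hKb ((Subgroup.eq_bot_iff_forall _).2 hcon)
        obtain ⟨x, rfl⟩ := hπs y
        refine ⟨x, hy, ?_⟩
        intro h
        rw [← hker, MonoidHom.mem_ker] at h
        exact hy1 h)
  haveI : Fact r.Prime := ⟨hr⟩
  obtain ⟨S⟩ : Nonempty (Sylow r G) := inferInstance
  have hSC := hSyl (S.mapSurjective hπs)
  rw [Sylow.coe_mapSurjective] at hSC
  -- `S` is normal
  have hSn : (S : Subgroup G).Normal := by
    rw [← Subgroup.normalizer_eq_top_iff]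
    apply hfrat
    haveI hDn : ((S : Subgroup G) ⊔ L).Normal := by
      have : (S : Subgroup G) ⊔ L = (((S : Subgroup G).map π).comap π) := by
        rw [Subgroup.comap_map_eq, hker]
      rw [this, hSC]
      haveI : (M.map π).Normal := hMn.map π hπs
      exact Subgroup.Normal.comap inferInstance π
    have h := Sylow.normalizer_sup_eq_top' (N := (S : Subgroup G) ⊔ L) S le_sup_left
    rw [eq_top_iff, ← h]
    refine sup_le le_sup_left (sup_le ?_ le_sup_right)
    exact le_trans Subgroup.le_normalizer le_sup_left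
  have hSel : ∀ x ∈ (S : Subgroup G), ∃ k : ℕ, x ^ r ^ k = 1 := pg S.isPGroup'
  have hSc : Comm (S : Subgroup G) := hA G hW r hr S hSel
  by_cases hrq : r = q
  · subst hrq
    exact hnq ⟨S, hSn, hSel, (Nat.Prime.coprime_iff_not_dvd hr).2 S.not_dvd_index⟩
  -- all `q`-elements lie in `L`
  have hql : ∀ x : G, (∃ k : ℕ, x ^ q ^ k = 1) → x ∈ L := by
    intro x hx
    have h1 := hTriv G hW S hSc r hr hrq hSel x hx (fun m hm => hSn.conj_mem m hm x)
    have h2 : π x ∈ Subgroup.centralizer ((M.map π : Subgroup (G ⧸ L)) : Set (G ⧸ L)) := by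
      rw [Subgroup.mem_centralizer_iff]
      intro y hy
      have hy2 : y ∈ (S : Subgroup G).map π := by
        rw [hSC, Subgroup.mem_centralizer_iff]
        intro z hz
        obtain ⟨a, ha, rfl⟩ := hy
        obtain ⟨b, hb, rfl⟩ := hz
        have h1 := hMc b hb a ha
        rw [← hker, MonoidHom.mem_ker] at h1
        simp only [map_mul, map_inv] at h1
        exact comm_of h1
      obtain ⟨s, hs, rfl⟩ := hy2
      rw [← map_mul, ← map_mul, h1 s hs]
    obtain ⟨j, hj'⟩ := pg hCr (π x) h2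
    obtain ⟨k, hk⟩ := hx
    have hk' : (π x) ^ q ^ k = 1 := by rw [← map_pow, hk, map_one]
    have h3 : π x = 1 := eq_one_of_coprime
      (Nat.Coprime.pow j k ((Nat.coprime_primes hr hq).2 hrq)) hj' hk'
    have h4 : x ∈ π.ker := h3
    rwa [hker] at h4
  obtain ⟨K, hKn, hK⟩ := torp L hLn hLc q
  obtain ⟨Q⟩ : Nonempty (Sylow q G) := inferInstance
  have hQel : ∀ x ∈ (Q : Subgroup G), ∃ k : ℕ, x ^ q ^ k = 1 := pg Q.isPGroup'
  have hKp : IsPGroup q K := by
    intro x
    obtain ⟨k, hk⟩ := ((hK x).1 x.2).2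
    exact ⟨k, Subtype.ext (by simpa using hk)⟩
  have hQK : (Q : Subgroup G) ≤ K := fun x hx => (hK x).2 ⟨hql x (hQel x hx), hQel x hx⟩
  have hKQ : K = Q := Q.is_maximal' hKp hQK
  exact hnq ⟨Q, hKQ ▸ hKn, hQel, (Nat.Prime.coprime_iff_not_dvd hq).2 Q.not_dvd_index⟩

end Pool.Agent.H296R3.PVII
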