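import Pool.Agent.H296R3.Hardy3

open MeasureTheory Real Filter Topology Set
open scoped ContDiff

namespace PoolH296.WHardy

/-- The surface measure on the unit sphere of Euclidean `n`-space. -/
noncomputable abbrev sig (n : ℕ) : Measure (Metric.sphere (0 : E n) 1) :=
  (volume : Measure (E n)).toSphere

theorem polar_prod {n : ℕ} [NeZero n] (F : E n → ℝ) :
    ∫ x, F x = ∫ z, F (z.2.1 • z.1.1) ∂((sig n).prod (Measure.volumeIoiPow (n-1))) := by
  have hdim : Module.finrank ℝ (E n) = n := by simp
  have hmp := (volume : Measure (E n)).measurePreserving_homeomorphUnitSphereProd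
  rw [hdim] at hmp
  calc ∫ x, F x = ∫ x : ({(0 : E n)}ᶜ : Set (E n)), F x.1 ∂(volume.comap Subtype.val) := by
        rw [integral_subtype_comap (measurableSet_singleton _).compl F,
          restrict_compl_singleton]
    _ = ∫ z, F (z.2.1 • z.1.1) ∂((sig n).prod (Measure.volumeIoiPow (n-1))) := by
        rw [← hmp.integral_comp (Homeomorph.measurableEmbedding _)]
        congr 1
        funext x
        have hx : (x : E n) ≠ 0 := x.2
        have : ‖(x : E n)‖ ≠ 0 := norm_ne_zero_iff.2 hx
        simp only [homeomorphUnitSphereProd_apply_snd_coe, homeomorphUnitSphereProd_apply_fst_coe]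
        rw [smul_smul, mul_inv_cancel₀ this, one_smul]

theorem polar_integrable {n : ℕ} [NeZero n] {F : E n → ℝ} (hF : Integrable F) :
    Integrable (fun z : Metric.sphere (0 : E n) 1 × Ioi (0:ℝ) => F (z.2.1 • z.1.1))
      ((sig n).prod (Measure.volumeIoiPow (n-1))) := by
  have hdim : Module.finrank ℝ (E n) = n := by simp
  have hmp := (volume : Measure (E n)).measurePreserving_homeomorphUnitSphereProd
  rw [hdim] at hmp
  rw [← hmp.integrable_comp_emb (Homeomorph.measurableEmbedding _)]
  have h1 : Integrable (fun x : ({(0 : E n)}ᶜ : Set (E n)) => F x.1) (volume.comap Subtype.val) := by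
    have := (MeasurableEmbedding.subtype_coe
      (measurableSet_singleton (0 : E n)).compl).integrable_map_iff (g := F)
      (μ := (volume : Measure (E n)).comap Subtype.val)
    apply this.1
    rw [map_comap_subtype_coe (measurableSet_singleton (0 : E n)).compl]
    exact hF.restrict
  refine h1.congr (Eventually.of_forall fun x => ?_)
  have hx : (x : E n) ≠ 0 := x.2
  have : ‖(x : E n)‖ ≠ 0 := norm_ne_zero_iff.2 hx
  simp only [Function.comp_apply, homeomorphUnitSphereProd_apply_snd_coe,
    homeomorphUnitSphereProd_apply_fst_coe]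
  rw [smul_smul, mul_inv_cancel₀ this, one_smul]

theorem integral_volumeIoiPow (k : ℕ) (G : ℝ → ℝ) :
    ∫ r : Ioi (0:ℝ), G r.1 ∂(Measure.volumeIoiPow k) = ∫ r in Ioi (0:ℝ), r^k * G r := by
  simp only [Measure.volumeIoiPow, ENNReal.ofReal]
  rw [integral_withDensity_eq_integral_smul,
    integral_subtype_comap measurableSet_Ioi fun a ↦ Real.toNNReal (a ^ k) • G a,
    setIntegral_congr_fun measurableSet_Ioi fun x hx ↦ ?_]
  · rw [NNReal.smul_def, Real.coe_toNNReal _ (pow_nonneg hx.out.le _), smul_eq_mul]
  · exact (measurable_subtype_coe.pow_const _).real_toNNReal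

theorem polar {n : ℕ} [NeZero n] {F : E n → ℝ} (hF : Integrable F) :
    ∫ x, F x = ∫ r in Ioi (0:ℝ), r^(n-1) * ∫ θ, F (r • θ.1) ∂(sig n) := by
  rw [polar_prod, integral_prod_symm _ (polar_integrable hF),
    ← integral_volumeIoiPow (n-1) (fun r => ∫ θ, F (r • θ.1) ∂(sig n))]

theorem sig_pos {n : ℕ} [NeZero n] : 0 < (sig n).real univ := by
  have : sig n ≠ 0 := Measure.toSphere_ne_zero _
  rw [measureReal_def]
  apply ENNReal.toReal_pos
  · exact Measure.measure_univ_ne_zero.2 this
  · exact measure_ne_top _ _

end PoolH296.WHardy
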