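import Pool.Agent.H296R3.Hardy3

open MeasureTheory Real Filter Topology Set
open scoped ContDiff

namespace PoolH296.WHardy

section upper

variable {n : ℕ}

theorem one_le_k (k : ℕ) : (1:ℝ) ≤ (k:ℝ) + 1 := by
  have : (0:ℝ) ≤ k := Nat.cast_nonneg k
  linarith

/-- limit of the weighted integrals of the test functions -/
theorem lim_mass1 {β b : ℝ} (hs : β - b < -((n:ℝ)/2)) :
    Tendsto (fun k : ℕ => ∫ x : E n, (1+‖x‖^2)^β * uN b ((k:ℝ)+1) x) atTop
      (𝓝 (∫ x : E n, (1+‖x‖^2)^(β-b))) := by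
  apply tendsto_integral_of_dominated_convergence (fun x : E n => (1+‖x‖^2)^(β-b))
  · intro k
    have h1 := continuous_W (n := n) β
    have h2 := (uN_contDiff (n := n) b ((k:ℝ)+1)).continuous
    apply Continuous.aestronglyMeasurable
    fun_prop
  · exact integrable_W hs
  · intro k
    filter_upwards with x
    have hW := W_pos x
    have h0 := uN_nonneg b ((k:ℝ)+1) x
    have h1 := uN_le b ((k:ℝ)+1) x
    rw [Real.norm_eq_abs, abs_of_nonneg (by positivity), sub_eq_add_neg, Real.rpow_add hW]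
    gcongr
  · filter_upwards with x
    have hW := W_pos x
    apply tendsto_const_nhds.congr'
    filter_upwards [uN_eventually b x] with k hk
    rw [hk, sub_eq_add_neg, Real.rpow_add hW]

theorem lim_mass2 {β b c : ℝ} (hs : β - b - c < -((n:ℝ)/2)) :
    Tendsto (fun k : ℕ => ∫ x : E n, (1+‖x‖^2)^β * (uN b ((k:ℝ)+1) x * uN c ((k:ℝ)+1) x)) atTop
      (𝓝 (∫ x : E n, (1+‖x‖^2)^(β-b-c))) := by
  apply tendsto_integral_of_dominated_convergence (fun x : E n => (1+‖x‖^2)^(β-b-c))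
  · intro k
    have h1 := continuous_W (n := n) β
    have h2 := (uN_contDiff (n := n) b ((k:ℝ)+1)).continuous
    have h3 := (uN_contDiff (n := n) c ((k:ℝ)+1)).continuous
    apply Continuous.aestronglyMeasurable
    fun_prop
  · exact integrable_W hs
  · intro k
    filter_upwards with x
    have hW := W_pos x
    have h0 := uN_nonneg b ((k:ℝ)+1) x
    have h1 := uN_le b ((k:ℝ)+1) x
    have h2 := uN_nonneg c ((k:ℝ)+1) x
    have h3 := uN_le c ((k:ℝ)+1) x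
    rw [Real.norm_eq_abs, abs_of_nonneg (by positivity), show β - b - c = β + (-b + -c) by ring,
      Real.rpow_add hW, Real.rpow_add hW]
    gcongr
  · filter_upwards with x
    have hW := W_pos x
    apply tendsto_const_nhds.congr'
    filter_upwards [uN_eventually b x, uN_eventually c x] with k hk hk'
    rw [hk, hk', show β - b - c = β + (-b + -c) by ring, Real.rpow_add hW, Real.rpow_add hW]

theorem lim_energy2 {α b c : ℝ} (hs : α - 1 - b - c < -((n:ℝ)/2)) :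
    Tendsto (fun k : ℕ => ∫ x : E n, (1+‖x‖^2)^α *
        (4 * ‖x‖^2 * (gN b ((k:ℝ)+1) x * gN c ((k:ℝ)+1) x))) atTop
      (𝓝 (∫ x : E n, 4 * b * c * (‖x‖^2 * (1+‖x‖^2)^(α-1-b-c-1)))) := by
  obtain ⟨C, hC0, hC⟩ := gN_bound (n := n) b
  obtain ⟨D, hD0, hD⟩ := gN_bound (n := n) c
  have e0 : ∀ x : E n, (1+‖x‖^2)^(α-1-b-c-1)
      = (1+‖x‖^2)^α * ((1+‖x‖^2)^(-b-1) * (1+‖x‖^2)^(-c-1)) := by
    intro x
    have hW := W_pos x
    rw [← Real.rpow_add hW, ← Real.rpow_add hW]; congr 1; ring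
  apply tendsto_integral_of_dominated_convergence
    (fun x : E n => 4 * C * D * (1+‖x‖^2)^(α-1-b-c))
  · intro k
    have h1 := continuous_W (n := n) α
    have h2 := continuous_gN (n := n) b ((k:ℝ)+1)
    have h3 := continuous_gN (n := n) c ((k:ℝ)+1)
    apply Continuous.aestronglyMeasurable
    fun_prop
  · exact (integrable_W hs).const_mul _
  · intro k
    filter_upwards with x
    have hW := W_pos x
    have h1 := hC _ (one_le_k k) x
    have h2 := hD _ (one_le_k k) x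
    rw [norm_mul, norm_mul (4 * ‖x‖^2), norm_mul (gN b _ x), Real.norm_of_nonneg (by positivity),
      Real.norm_of_nonneg (by positivity), Real.norm_eq_abs, Real.norm_eq_abs]
    calc (1+‖x‖^2)^α * (4 * ‖x‖^2 * (|gN b ((k:ℝ)+1) x| * |gN c ((k:ℝ)+1) x|))
        ≤ (1+‖x‖^2)^α * (4 * (1+‖x‖^2) * ((C * (1+‖x‖^2)^(-b-1)) * (D * (1+‖x‖^2)^(-c-1)))) := by
          gcongr
          linarith
      _ = 4 * C * D * (((1+‖x‖^2)^α * ((1+‖x‖^2)^(-b-1) * (1+‖x‖^2)^(-c-1))) * (1+‖x‖^2)) := by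
          ring
      _ = _ := by
          rw [← e0, ← Real.rpow_add_one hW.ne']
          congr 2; ring
  · filter_upwards with x
    apply tendsto_const_nhds.congr'
    filter_upwards [gN_eventually b x, gN_eventually c x] with k hk hk'
    rw [hk, hk', e0 x]
    ring

/-- A lower bound of the quotients gives the inequality on the whole constrained space. -/
theorem ineq_of_lower {α c : ℝ} (hc : ∀ u ∈ Admissible n α, c ≤ quotient n α u)
    {u : E n → ℝ} (hu : ContDiff ℝ ∞ u) (hs : HasCompactSupport u)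
    (hm : α < -(((n:ℝ)-2)/2) → ∫ x, (1+‖x‖^2)^(α-1) * u x = 0) :
    c * (∫ x, (1+‖x‖^2)^(α-1) * u x^2) ≤ ∫ x, (1+‖x‖^2)^α * ‖gradient u x‖^2 := by
  by_cases h0 : u = 0
  · subst h0
    have h1 : ∀ x : E n, ‖gradient (0 : E n → ℝ) x‖ = 0 := by
      intro x
      unfold gradient
      simp
    simp [h1]
  · have h1 := hc u ⟨hu, hs, h0, hm⟩
    unfold quotient at h1
    rwa [le_div_iff₀ (mass_pos α hu.continuous hs h0)] at h1

theorem I_pos {s : ℝ} (hs : s < -((n:ℝ)/2)) : 0 < ∫ x : E n, (1+‖x‖^2)^s := by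
  rw [integral_pos_iff_support_of_nonneg_ae]
  · have : Function.support (fun x : E n => (1+‖x‖^2)^s) = Set.univ := by
      ext x
      simp only [Function.mem_support, Set.mem_univ, iff_true]
      exact (Real.rpow_pos_of_pos (W_pos x) _).ne'
    rw [this]
    exact isOpen_univ.measure_pos volume univ_nonempty
  · filter_upwards with x
    have := W_pos x
    show 0 ≤ (1+‖x‖^2)^s
    positivity
  · exact integrable_W hs

/-- The inequality obtained from the test functions `w^{-b} - κ`. -/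
theorem test_ineq {α b c : ℝ} (hα : α < -(((n:ℝ)-2)/2))
    (hb : α - 1 - 2*b < -((n:ℝ)/2)) (hc : ∀ u ∈ Admissible n α, c ≤ quotient n α u) :
    c * ((∫ x : E n, (1+‖x‖^2)^(α-1-2*b))
        - (∫ x : E n, (1+‖x‖^2)^(α-1-b))^2 / (∫ x : E n, (1+‖x‖^2)^(α-1)))
      ≤ 4 * b^2 * ∫ x : E n, ‖x‖^2 * (1+‖x‖^2)^(α-1-2*b-1) := by
  have hs0 : α - 1 < -((n:ℝ)/2) := by linarith
  have hs1 : α - 1 - b < -((n:ℝ)/2) := by linarith
  set P1 : ℕ → ℝ := fun k => ∫ x : E n, (1+‖x‖^2)^(α-1) * uN b ((k:ℝ)+1) x with hP1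
  set P0 : ℕ → ℝ := fun k => ∫ x : E n, (1+‖x‖^2)^(α-1) * uN 0 ((k:ℝ)+1) x with hP0
  set κ : ℕ → ℝ := fun k => P1 k / P0 k with hκ
  have hWc : ∀ s : ℝ, Continuous (fun x : E n => (1+‖x‖^2)^s) := fun s => continuous_W s
  have huc : ∀ (b : ℝ) (k : ℕ), Continuous (uN (n := n) b ((k:ℝ)+1)) := fun b k =>
    (uN_contDiff b _).continuous
  have hus : ∀ (b : ℝ) (k : ℕ), HasCompactSupport (uN (n := n) b ((k:ℝ)+1)) := fun b k =>
    uN_compact b (by positivity)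
  have hgc : ∀ (b : ℝ) (k : ℕ), Continuous (gN (n := n) b ((k:ℝ)+1)) := fun b k =>
    continuous_gN b _
  have hP0pos : ∀ k, 0 < P0 k := by
    intro k
    apply Continuous.integral_pos_of_hasCompactSupport_nonneg_nonzero (x := (0 : E n))
    · exact (hWc _).mul (huc 0 k)
    · exact (hus 0 k).mul_left
    · intro x
      have := uN_nonneg 0 ((k:ℝ)+1) x
      positivity
    · simp [uN, h_one]
  have L1 : Tendsto P1 atTop (𝓝 (∫ x : E n, (1+‖x‖^2)^(α-1-b))) := lim_mass1 hs1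
  have L0 : Tendsto P0 atTop (𝓝 (∫ x : E n, (1+‖x‖^2)^(α-1))) := by
    have := lim_mass1 (n := n) (β := α-1) (b := 0) (by linarith)
    simpa using this
  have hI0 : 0 < ∫ x : E n, (1+‖x‖^2)^(α-1) := I_pos hs0
  have Lκ := L1.div L0 hI0.ne'
  -- the test functions
  set v : ℕ → E n → ℝ := fun k x => uN b ((k:ℝ)+1) x - κ k * uN 0 ((k:ℝ)+1) x with hv
  have hvC : ∀ k, ContDiff ℝ ∞ (v k) := fun k =>
    (uN_contDiff b _).sub (contDiff_const.mul (uN_contDiff 0 _))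
  have hvS : ∀ k, HasCompactSupport (v k) := fun k => (hus b k).sub (hus 0 k).mul_left
  have hvm : ∀ k, ∫ x, (1+‖x‖^2)^(α-1) * v k x = 0 := by
    intro k
    have i1 : Integrable (fun x : E n => (1+‖x‖^2)^(α-1) * uN b ((k:ℝ)+1) x) :=
      ((hWc _).mul (huc b k)).integrable_of_hasCompactSupport (hus b k).mul_left
    have i0 : Integrable (fun x : E n => (1+‖x‖^2)^(α-1) * uN 0 ((k:ℝ)+1) x) :=
      ((hWc _).mul (huc 0 k)).integrable_of_hasCompactSupport (hus 0 k).mul_left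
    have e : ∀ x : E n, (1+‖x‖^2)^(α-1) * v k x = (1+‖x‖^2)^(α-1) * uN b ((k:ℝ)+1) x
        - κ k * ((1+‖x‖^2)^(α-1) * uN 0 ((k:ℝ)+1) x) := by
      intro x; simp only [hv]; ring
    simp_rw [e]
    rw [integral_sub i1 (i0.const_mul _), integral_const_mul]
    show P1 k - κ k * P0 k = 0
    simp only [hκ]
    have := (hP0pos k).ne'
    field_simp
    ring
  -- mass
  have hmass : ∀ k, ∫ x, (1+‖x‖^2)^(α-1) * v k x^2
      = (∫ x : E n, (1+‖x‖^2)^(α-1) * (uN b ((k:ℝ)+1) x * uN b ((k:ℝ)+1) x))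
        - 2 * κ k * (∫ x : E n, (1+‖x‖^2)^(α-1) * (uN b ((k:ℝ)+1) x * uN 0 ((k:ℝ)+1) x))
        + κ k^2 * (∫ x : E n, (1+‖x‖^2)^(α-1) * (uN 0 ((k:ℝ)+1) x * uN 0 ((k:ℝ)+1) x)) := by
    intro k
    have i : ∀ b c : ℝ, Integrable (fun x : E n => (1+‖x‖^2)^(α-1) *
        (uN b ((k:ℝ)+1) x * uN c ((k:ℝ)+1) x)) := fun b c =>
      ((hWc _).mul ((huc b k).mul (huc c k))).integrable_of_hasCompactSupport
        (hus b k).mul_right.mul_left
    have e : ∀ x : E n, (1+‖x‖^2)^(α-1) * v k x^2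
        = ((1+‖x‖^2)^(α-1) * (uN b ((k:ℝ)+1) x * uN b ((k:ℝ)+1) x)
        - 2 * κ k * ((1+‖x‖^2)^(α-1) * (uN b ((k:ℝ)+1) x * uN 0 ((k:ℝ)+1) x)))
        + κ k^2 * ((1+‖x‖^2)^(α-1) * (uN 0 ((k:ℝ)+1) x * uN 0 ((k:ℝ)+1) x)) := by
      intro x; simp only [hv]; ring
    simp_rw [e]
    have i12 : Integrable (fun x : E n => (1+‖x‖^2)^(α-1) * (uN b ((k:ℝ)+1) x * uN b ((k:ℝ)+1) x)
        - 2 * κ k * ((1+‖x‖^2)^(α-1) * (uN b ((k:ℝ)+1) x * uN 0 ((k:ℝ)+1) x))) :=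
      (i b b).sub ((i b 0).const_mul _)
    rw [integral_add i12 ((i 0 0).const_mul _), integral_sub (i b b) ((i b 0).const_mul _),
      integral_const_mul, integral_const_mul]
  -- energy
  have hgrad : ∀ k x, ‖gradient (v k) x‖^2
      = 4 * ‖x‖^2 * (gN b ((k:ℝ)+1) x - κ k * gN 0 ((k:ℝ)+1) x)^2 := by
    intro k x
    have h1 := (uN_hasFDerivAt (n := n) b ((k:ℝ)+1) x).sub
      ((uN_hasFDerivAt (n := n) 0 ((k:ℝ)+1) x).const_mul (κ k))
    have e : (gN b ((k:ℝ)+1) x • (2 • innerSL ℝ x) - κ k • gN 0 ((k:ℝ)+1) x • (2 • innerSL ℝ x))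
        = (gN b ((k:ℝ)+1) x - κ k * gN 0 ((k:ℝ)+1) x) • (2 • innerSL ℝ x) := by
      rw [sub_smul, mul_smul]
    rw [e] at h1
    unfold gradient
    have h2 : fderiv ℝ (v k) x = _ := h1.fderiv
    rw [h2, LinearIsometryEquiv.norm_map, norm_smul,
      ← Nat.cast_smul_eq_nsmul ℝ 2, norm_smul, innerSL_apply_norm, mul_pow, mul_pow,
      Real.norm_eq_abs, sq_abs]
    norm_num
    ring
  have henergy : ∀ k, ∫ x, (1+‖x‖^2)^α * ‖gradient (v k) x‖^2
      = (∫ x : E n, (1+‖x‖^2)^α * (4 * ‖x‖^2 * (gN b ((k:ℝ)+1) x * gN b ((k:ℝ)+1) x)))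
        - 2 * κ k * (∫ x : E n, (1+‖x‖^2)^α *
          (4 * ‖x‖^2 * (gN b ((k:ℝ)+1) x * gN 0 ((k:ℝ)+1) x)))
        + κ k^2 * (∫ x : E n, (1+‖x‖^2)^α *
          (4 * ‖x‖^2 * (gN 0 ((k:ℝ)+1) x * gN 0 ((k:ℝ)+1) x))) := by
    intro k
    have hgs : ∀ b : ℝ, HasCompactSupport (fun x : E n => ‖x‖^2 * gN b ((k:ℝ)+1) x) := by
      intro b
      have h1 := (hus b k).fderiv (𝕜 := ℝ)
      rw [hasCompactSupport_iff_eventuallyEq] at h1 ⊢
      filter_upwards [h1] with x hx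
      rw [(uN_hasFDerivAt b _ x).fderiv] at hx
      have h2 := congrArg (fun L : E n →L[ℝ] ℝ => L x) hx
      simp only [_root_.smul_apply, smul_eq_mul, innerSL_apply_apply, nsmul_eq_mul,
        real_inner_self_eq_norm_sq, Pi.zero_apply, _root_.zero_apply] at h2
      push_cast at h2
      simp only [Pi.zero_apply]
      linarith
    have i : ∀ b c : ℝ, Integrable (fun x : E n => (1+‖x‖^2)^α *
        (4 * ‖x‖^2 * (gN b ((k:ℝ)+1) x * gN c ((k:ℝ)+1) x))) := by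
      intro b c
      have h1 := hgc b k
      have h2 := hgc c k
      have h3 := hWc α
      apply Continuous.integrable_of_hasCompactSupport (by fun_prop)
      have h4 : (fun x : E n => (1+‖x‖^2)^α * (4 * ‖x‖^2 * (gN b ((k:ℝ)+1) x * gN c ((k:ℝ)+1) x)))
          = fun x : E n => ((1+‖x‖^2)^α * 4 * gN c ((k:ℝ)+1) x) * (‖x‖^2 * gN b ((k:ℝ)+1) x) := by
        funext x; ring
      rw [h4]
      exact (hgs b).mul_left
    have e : ∀ x : E n, (1+‖x‖^2)^α * ‖gradient (v k) x‖^2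
        = ((1+‖x‖^2)^α * (4 * ‖x‖^2 * (gN b ((k:ℝ)+1) x * gN b ((k:ℝ)+1) x))
        - 2 * κ k * ((1+‖x‖^2)^α * (4 * ‖x‖^2 * (gN b ((k:ℝ)+1) x * gN 0 ((k:ℝ)+1) x))))
        + κ k^2 * ((1+‖x‖^2)^α * (4 * ‖x‖^2 * (gN 0 ((k:ℝ)+1) x * gN 0 ((k:ℝ)+1) x))) := by
      intro x; rw [hgrad]; ring
    simp_rw [e]
    have i12 : Integrable (fun x : E n =>
        (1+‖x‖^2)^α * (4 * ‖x‖^2 * (gN b ((k:ℝ)+1) x * gN b ((k:ℝ)+1) x))
        - 2 * κ k * ((1+‖x‖^2)^α * (4 * ‖x‖^2 * (gN b ((k:ℝ)+1) x * gN 0 ((k:ℝ)+1) x)))) :=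
      (i b b).sub ((i b 0).const_mul _)
    rw [integral_add i12 ((i 0 0).const_mul _), integral_sub (i b b) ((i b 0).const_mul _),
      integral_const_mul, integral_const_mul]
  -- limits
  have LM := (((lim_mass2 (n := n) (β := α-1) (b := b) (c := b) (by linarith)).sub
    ((Lκ.const_mul 2).mul (lim_mass2 (n := n) (β := α-1) (b := b) (c := 0) (by linarith)))).add
    ((Lκ.pow 2).mul (lim_mass2 (n := n) (β := α-1) (b := 0) (c := 0) (by linarith))))
  have LE := (((lim_energy2 (n := n) (α := α) (b := b) (c := b) (by linarith)).sub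
    ((Lκ.const_mul 2).mul (lim_energy2 (n := n) (α := α) (b := b) (c := 0) (by linarith)))).add
    ((Lκ.pow 2).mul (lim_energy2 (n := n) (α := α) (b := 0) (c := 0) (by linarith))))
  have hk : ∀ k : ℕ, c * ((∫ x : E n, (1+‖x‖^2)^(α-1) * (uN b ((k:ℝ)+1) x * uN b ((k:ℝ)+1) x))
        - 2 * κ k * (∫ x : E n, (1+‖x‖^2)^(α-1) * (uN b ((k:ℝ)+1) x * uN 0 ((k:ℝ)+1) x))
        + κ k^2 * (∫ x : E n, (1+‖x‖^2)^(α-1) * (uN 0 ((k:ℝ)+1) x * uN 0 ((k:ℝ)+1) x)))
      ≤ (∫ x : E n, (1+‖x‖^2)^α * (4 * ‖x‖^2 * (gN b ((k:ℝ)+1) x * gN b ((k:ℝ)+1) x)))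
        - 2 * κ k * (∫ x : E n, (1+‖x‖^2)^α *
          (4 * ‖x‖^2 * (gN b ((k:ℝ)+1) x * gN 0 ((k:ℝ)+1) x)))
        + κ k^2 * (∫ x : E n, (1+‖x‖^2)^α *
          (4 * ‖x‖^2 * (gN 0 ((k:ℝ)+1) x * gN 0 ((k:ℝ)+1) x))) := by
    intro k
    rw [← hmass, ← henergy]
    exact ineq_of_lower hc (hvC k) (hvS k) (fun _ => hvm k)
  have hfin := le_of_tendsto_of_tendsto' (LM.const_mul c) LE hk
  have e1 : α - 1 - b - b = α - 1 - 2*b := by ring
  simp only [mul_zero, sub_zero, zero_mul, integral_zero, add_zero, e1] at hfin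
  rw [integral_const_mul] at hfin
  calc _ = c * ((∫ x : E n, (1+‖x‖^2)^(α-1-2*b))
        - 2 * ((∫ x : E n, (1+‖x‖^2)^(α-1-b)) / (∫ x : E n, (1+‖x‖^2)^(α-1)))
          * (∫ x : E n, (1+‖x‖^2)^(α-1-b))
        + ((∫ x : E n, (1+‖x‖^2)^(α-1-b)) / (∫ x : E n, (1+‖x‖^2)^(α-1)))^2
          * (∫ x : E n, (1+‖x‖^2)^(α-1))) := by
        congr 1
        field_simp
        ring
    _ ≤ _ := hfin
    _ = _ := by ring

end upper

end PoolH296.WHardy
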