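import Pool.Agent.H296R3.UpperNeg

open MeasureTheory Real Filter Topology Set
open scoped ContDiff

namespace PoolH296.WHardy

section upper2

variable {n : ℕ}

theorem I_diff {s : ℝ} (hs : s < -((n:ℝ)/2)) :
    ∫ x : E n, ‖x‖^2 * (1+‖x‖^2)^(s-1)
      = (∫ x : E n, (1+‖x‖^2)^s) - ∫ x : E n, (1+‖x‖^2)^(s-1) := by
  rw [← integral_sub (integrable_W hs) (integrable_W (by linarith))]
  congr 1
  funext x
  have hW := W_pos x
  have : (1+‖x‖^2)^s = (1+‖x‖^2)^(s-1) * (1+‖x‖^2) := by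
    rw [← Real.rpow_add_one hW.ne']; congr 1; ring
  rw [this]
  ring

theorem I_rec {s : ℝ} (hs : s < -((n:ℝ)/2)) :
    2 * s * (∫ x : E n, (1+‖x‖^2)^(s-1)) = (2*s+n) * ∫ x : E n, (1+‖x‖^2)^s := by
  have h1 := integral_identity hs
  rw [I_diff hs] at h1
  linarith

theorem upper_neg2 (hn : 1 ≤ n) {α c : ℝ} (hα : α < -(((n:ℝ)+2)/2))
    (hc : ∀ u ∈ Admissible n α, c ≤ quotient n α u) : c ≤ -4*α-2*n := by
  have hn' : (1:ℝ) ≤ n := by exact_mod_cast hn
  have h := test_ineq (n := n) (α := α) (b := -1) (by linarith) (by linarith) hc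
  have e1 : α - 1 - 2 * (-1) = α + 1 := by ring
  have e2 : α - 1 - (-1) = α := by ring
  rw [e1, e2] at h
  have r1 := I_rec (n := n) (s := α+1) (by linarith)
  have r2 := I_rec (n := n) (s := α) (by linarith)
  have r3 := integral_identity (n := n) (s := α+1) (by linarith)
  have e3 : α + 1 - 1 = α := by ring
  rw [e3] at r1 r3 h
  have hA : 0 < ∫ x : E n, (1+‖x‖^2)^(α+1) := I_pos (by linarith)
  have hB : 0 < ∫ x : E n, (1+‖x‖^2)^α := I_pos (by linarith)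
  have hC : 0 < ∫ x : E n, (1+‖x‖^2)^(α-1) := I_pos (by linarith)
  set A := ∫ x : E n, (1+‖x‖^2)^(α+1)
  set B := ∫ x : E n, (1+‖x‖^2)^α
  set C := ∫ x : E n, (1+‖x‖^2)^(α-1)
  set J := ∫ x : E n, ‖x‖^2 * (1+‖x‖^2)^α
  have hn0 : 2*(α+1) < 0 := by linarith
  have hn1 : 2*α+n < 0 := by linarith
  have hn2 : α < 0 := by linarith
  have hBe : B = (2*(α+1)+n)/(2*(α+1)) * A := by
    rw [div_mul_eq_mul_div, eq_div_iff hn0.ne]; linarith
  have hCe : C = (2*α+n)/(2*α) * B := by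
    rw [div_mul_eq_mul_div, eq_div_iff (by linarith)]; linarith
  have hJe : J = -(n:ℝ)/(2*(α+1)) * A := by
    rw [div_mul_eq_mul_div, eq_div_iff hn0.ne]; linarith
  have hD : A - B^2/C = A * (2*n) / ((2*(α+1)) * (2*α+n)) := by
    rw [hCe]
    have h1 : B^2 / ((2*α+n)/(2*α) * B) = B * (2*α)/(2*α+n) := by
      have := hB.ne'
      have := hn1.ne
      have := hn2.ne
      field_simp
    rw [h1, hBe]
    have := hn1.ne
    have h3 : α + 1 ≠ 0 := by intro h; rw [h] at hn0; simp at hn0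
    field_simp
    ring
  rw [hD, hJe] at h
  have hP : 0 < (2*(α+1)) * (2*α+n) := mul_pos_of_neg_of_neg hn0 hn1
  have h5 : c * (A * (2*n)) ≤ (4 * (-1)^2 * (-(n:ℝ)/(2*(α+1)) * A)) * ((2*(α+1)) * (2*α+n)) := by
    have := mul_le_mul_of_nonneg_right h hP.le
    calc c * (A * (2*n)) = c * (A * (2*n) / ((2*(α+1)) * (2*α+n))) * ((2*(α+1)) * (2*α+n)) := by
          rw [mul_assoc c, div_mul_cancel₀ _ hP.ne']
      _ ≤ _ := this
  have h6 : (4 * (-1)^2 * (-(n:ℝ)/(2*(α+1)) * A)) * ((2*(α+1)) * (2*α+n))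
      = (-4*α-2*n) * (A * (2*n)) := by
    have h3 : α + 1 ≠ 0 := by intro h; rw [h] at hn0; simp at hn0
    field_simp
    ring
  rw [h6] at h5
  exact le_of_mul_le_mul_right h5 (by positivity)

theorem upper_neg3 (hn : 1 ≤ n) {α c : ℝ} (hα : α < -(((n:ℝ)-2)/2))
    (hc : ∀ u ∈ Admissible n α, c ≤ quotient n α u) : c ≤ ((n:ℝ)+2*α-2)^2/4 := by
  have hn' : (1:ℝ) ≤ n := by exact_mod_cast hn
  by_cases hc0 : c ≤ 0
  · have : 0 ≤ ((n:ℝ)+2*α-2)^2/4 := by positivity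
    linarith
  push Not at hc0
  set β := ((n:ℝ)+2*α-2)/4 with hβ
  set K0 := ∫ x : E n, (1+‖x‖^2)^(-((n:ℝ)/2)-2) with hK0
  have hK0pos : 0 < K0 := I_pos (by linarith)
  set K1 := ∫ x : E n, (1+‖x‖^2)^(α-1-β) with hK1
  have hs1 : α - 1 - β < -((n:ℝ)/2) := by rw [hβ]; linarith
  have hK1pos : 0 < K1 := I_pos hs1
  set C0 := ∫ x : E n, (1+‖x‖^2)^(α-1) with hC0
  have hC0pos : 0 < C0 := I_pos (by linarith)
  set D := 4 * K1^2 / (C0 * (n * K0)) with hD
  have hmonoI : ∀ s t : ℝ, s ≤ t → t < -((n:ℝ)/2) →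
      ∫ x : E n, (1+‖x‖^2)^s ≤ ∫ x : E n, (1+‖x‖^2)^t := by
    intro s t hst ht
    apply integral_mono (integrable_W (lt_of_le_of_lt hst ht)) (integrable_W ht)
    intro x
    exact Real.rpow_le_rpow_of_exponent_le (by linarith [sq_nonneg ‖x‖]) hst
  have key : ∀ ε : ℝ, 0 < ε → ε ≤ 1/2 → c - c * (D * ε) ≤ 4 * (β+ε)^2 := by
    intro ε hε hε2
    have hs : α - 1 - 2*(β+ε) < -((n:ℝ)/2) := by rw [hβ]; linarith
    have h := test_ineq (n := n) (α := α) (b := β+ε) hα hs hc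
    have hseq : α - 1 - 2*(β+ε) = -((n:ℝ)/2) - 2*ε := by rw [hβ]; ring
    have hid := integral_identity hs
    have hrec := I_rec hs
    set s := α - 1 - 2*(β+ε) with hsdef
    set Is := ∫ x : E n, (1+‖x‖^2)^s
    set Js := ∫ x : E n, ‖x‖^2 * (1+‖x‖^2)^(s-1)
    set Is1 := ∫ x : E n, (1+‖x‖^2)^(s-1)
    have hIs : 0 < Is := I_pos hs
    have h1 : K0 ≤ Is1 := hmonoI _ _ (by rw [hseq]; linarith) (by linarith)
    have h2 : (∫ x : E n, (1+‖x‖^2)^(α-1-(β+ε))) ≤ K1 := hmonoI _ _ (by linarith) hs1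
    have h2' : 0 < ∫ x : E n, (1+‖x‖^2)^(α-1-(β+ε)) := I_pos (by linarith)
    set L := ∫ x : E n, (1+‖x‖^2)^(α-1-(β+ε))
    -- `Js ≤ Is`
    have hJ : Js ≤ Is := by
      have : 2*s = -((n:ℝ) + 4*ε) := by rw [hseq]; ring
      rw [this] at hid
      have h3 : ((n:ℝ)+4*ε) * Js = n * Is := by linarith
      have h4 : 0 < (n:ℝ) + 4*ε := by linarith
      have : (n:ℝ) * Is ≤ ((n:ℝ)+4*ε) * Is := by nlinarith
      have := h3.trans_le this
      exact le_of_mul_le_mul_left this h4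
    -- `Is` is large
    have hIsl : (n * K0) ≤ 4 * ε * Is := by
      have : 2*s = -((n:ℝ) + 4*ε) := by rw [hseq]; ring
      rw [this] at hrec
      have h3 : ((n:ℝ)+4*ε) * Is1 = 4*ε * Is := by linarith
      rw [← h3]
      have : (n:ℝ) * K0 ≤ ((n:ℝ)+4*ε) * K0 := by nlinarith
      have h4 : ((n:ℝ)+4*ε) * K0 ≤ ((n:ℝ)+4*ε) * Is1 :=
        mul_le_mul_of_nonneg_left h1 (by linarith)
      linarith
    have hnK : 0 < (n:ℝ) * K0 := by positivity
    have hL : L^2/C0 ≤ D * ε * Is := by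
      rw [div_le_iff₀ hC0pos]
      have h3 : L^2 ≤ K1^2 := pow_le_pow_left₀ h2'.le h2 2
      have h4 : K1^2 * (n * K0) ≤ K1^2 * (4 * ε * Is) :=
        mul_le_mul_of_nonneg_left hIsl (sq_nonneg _)
      have h5 : K1^2 ≤ K1^2 * (4 * ε * Is) / (n * K0) := by
        rw [le_div_iff₀ hnK]; exact h4
      have h6 : D * ε * Is * C0 = K1^2 * (4 * ε * Is) / (n * K0) := by
        rw [hD]; field_simp
      rw [h6]
      linarith
    have h7 : c * (Is - D * ε * Is) ≤ 4 * (β+ε)^2 * Is := by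
      calc c * (Is - D * ε * Is) ≤ c * (Is - L^2/C0) := by
            apply mul_le_mul_of_nonneg_left _ hc0.le
            linarith
        _ ≤ 4 * (β+ε)^2 * Js := h
        _ ≤ 4 * (β+ε)^2 * Is := by gcongr
    have h8 : (c - c * (D * ε)) * Is ≤ (4 * (β+ε)^2) * Is := by
      calc _ = c * (Is - D * ε * Is) := by ring
        _ ≤ _ := h7
    exact le_of_mul_le_mul_right h8 hIs
  have hl1 : Tendsto (fun ε : ℝ => c - c * (D * ε)) (𝓝[>] 0) (𝓝 (c - c * (D * 0))) := by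
    apply tendsto_nhdsWithin_of_tendsto_nhds
    have : Continuous (fun ε : ℝ => c - c * (D * ε)) := by fun_prop
    exact this.tendsto 0
  have hl2 : Tendsto (fun ε : ℝ => 4 * (β+ε)^2) (𝓝[>] 0) (𝓝 (4 * (β+0)^2)) := by
    apply tendsto_nhdsWithin_of_tendsto_nhds
    have : Continuous (fun ε : ℝ => 4 * (β+ε)^2) := by fun_prop
    exact this.tendsto 0
  have hfin := le_of_tendsto_of_tendsto hl1 hl2 (by
    have : Ioc (0:ℝ) (1/2) ∈ 𝓝[>] (0:ℝ) := Ioc_mem_nhdsGT (by norm_num)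
    filter_upwards [this] with ε hε
    exact key ε hε.1 hε.2)
  have e : 4 * (β+0)^2 = ((n:ℝ)+2*α-2)^2/4 := by rw [hβ]; ring
  rw [e] at hfin
  linarith

/-- cut-off linear functions -/
noncomputable def uX (i : Fin n) (m : ℝ) (x : E n) : ℝ := x i * uN 0 m x

theorem uX_contDiff (i : Fin n) (m : ℝ) : ContDiff ℝ ∞ (uX i m) := by
  unfold uX
  apply ContDiff.mul _ (uN_contDiff 0 m)
  exact (EuclideanSpace.proj i : E n →L[ℝ] ℝ).contDiff

theorem uX_compact (i : Fin n) {m : ℝ} (hm : 0 < m) : HasCompactSupport (uX i m) :=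
  (uN_compact 0 hm).mul_left

theorem uX_grad (i : Fin n) (m : ℝ) (x : E n) :
    ‖gradient (uX i m) x‖^2 = uN 0 m x^2 + 4 * (x i)^2 * (uN 0 m x * gN 0 m x)
      + 4 * (x i)^2 * ‖x‖^2 * gN 0 m x^2 := by
  have hp : HasFDerivAt (fun x : E n => x i) (EuclideanSpace.proj i : E n →L[ℝ] ℝ) x :=
    (EuclideanSpace.proj i : E n →L[ℝ] ℝ).hasFDerivAt
  have h1 := hp.mul (uN_hasFDerivAt (n := n) 0 m x)
  have h2 : fderiv ℝ (uX i m) x = _ := h1.fderiv
  have hg : gradient (uX i m) x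
      = (uN 0 m x) • EuclideanSpace.single i (1:ℝ) + (2 * x i * gN 0 m x) • x := by
    unfold gradient
    rw [h2, LinearIsometryEquiv.symm_apply_eq]
    ext y
    have hpy : (EuclideanSpace.proj i : E n →L[ℝ] ℝ) y = y i := rfl
    simp only [_root_.add_apply, _root_.smul_apply, smul_eq_mul, innerSL_apply_apply,
      nsmul_eq_mul, InnerProductSpace.toDual_apply_apply, inner_add_left, real_inner_smul_left,
      EuclideanSpace.inner_single_left, map_one, one_mul, hpy]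
    push_cast
    ring
  have n1 : ‖uN 0 m x‖^2 = uN 0 m x^2 := by rw [Real.norm_eq_abs, sq_abs]
  have n2 : ‖2 * x i * gN 0 m x‖^2 = (2 * x i * gN 0 m x)^2 := by rw [Real.norm_eq_abs, sq_abs]
  rw [hg, norm_add_sq_real, norm_smul, norm_smul, real_inner_smul_left, real_inner_smul_right,
    EuclideanSpace.inner_single_left, PiLp.norm_single, mul_pow, mul_pow, n1, n2]
  simp only [map_one, norm_one, one_mul, one_pow, mul_one]
  ring

theorem upper_neg1 (hn : 1 ≤ n) {α c : ℝ} (hα : α < -((n:ℝ)/2))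
    (hc : ∀ u ∈ Admissible n α, c ≤ quotient n α u) : c ≤ -2*α := by
  have hn' : (1:ℝ) ≤ n := by exact_mod_cast hn
  have hWc : ∀ s : ℝ, Continuous (fun x : E n => (1+‖x‖^2)^s) := fun s => continuous_W s
  have huc : ∀ (b : ℝ) (k : ℕ), Continuous (uN (n := n) b ((k:ℝ)+1)) := fun b k =>
    (uN_contDiff b _).continuous
  have hus : ∀ (b : ℝ) (k : ℕ), HasCompactSupport (uN (n := n) b ((k:ℝ)+1)) := fun b k =>
    uN_compact b (by positivity)
  have hgc : ∀ (b : ℝ) (k : ℕ), Continuous (gN (n := n) b ((k:ℝ)+1)) := fun b k =>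
    continuous_gN b _
  -- inequality for each coordinate
  have hi : ∀ (k : ℕ) (i : Fin n), c * (∫ x : E n, (1+‖x‖^2)^(α-1) * (uX i ((k:ℝ)+1) x)^2)
      ≤ ∫ x : E n, (1+‖x‖^2)^α * ‖gradient (uX i ((k:ℝ)+1)) x‖^2 := by
    intro k i
    apply ineq_of_lower hc (uX_contDiff i _) (uX_compact i (by positivity))
    intro _
    have h1 : ∫ x : E n, (1+‖-x‖^2)^(α-1) * uX i ((k:ℝ)+1) (-x)
        = ∫ x : E n, (1+‖x‖^2)^(α-1) * uX i ((k:ℝ)+1) x :=
      integral_neg_eq_self (fun x : E n => (1+‖x‖^2)^(α-1) * uX i ((k:ℝ)+1) x) volume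
    have h2 : ∀ x : E n, (1+‖-x‖^2)^(α-1) * uX i ((k:ℝ)+1) (-x)
        = -((1+‖x‖^2)^(α-1) * uX i ((k:ℝ)+1) x) := by
      intro x
      simp only [uX, uN, norm_neg, PiLp.neg_apply]
      ring
    simp_rw [h2] at h1
    rw [integral_neg] at h1
    linarith
  -- sum over coordinates
  have hsum : ∀ k : ℕ, c * (∫ x : E n, (1+‖x‖^2)^(α-1) * (‖x‖^2 * uN 0 ((k:ℝ)+1) x^2))
      ≤ ∫ x : E n, (1+‖x‖^2)^α * (n * uN 0 ((k:ℝ)+1) x^2
        + 4 * ‖x‖^2 * (uN 0 ((k:ℝ)+1) x * gN 0 ((k:ℝ)+1) x)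
        + 4 * ‖x‖^2 * ‖x‖^2 * gN 0 ((k:ℝ)+1) x^2) := by
    intro k
    have i1 : ∀ i ∈ Finset.univ, Integrable
        (fun x : E n => (1+‖x‖^2)^(α-1) * (uX i ((k:ℝ)+1) x)^2) := by
      intro i _
      have h2 : HasCompactSupport (fun x : E n => (uX i ((k:ℝ)+1) x)^2) :=
        (uX_compact i (by positivity)).comp_left (g := fun t : ℝ => t^2) (by simp)
      exact ((hWc _).mul ((uX_contDiff i _).continuous.pow 2)).integrable_of_hasCompactSupport
        h2.mul_left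
    have i2 : ∀ i ∈ Finset.univ, Integrable
        (fun x : E n => (1+‖x‖^2)^α * ‖gradient (uX i ((k:ℝ)+1)) x‖^2) := by
      intro i _
      have hgc' : Continuous (gradient (uX i ((k:ℝ)+1))) := by
        unfold gradient
        exact (InnerProductSpace.toDual ℝ (E n)).symm.continuous.comp
          ((uX_contDiff i _).continuous_fderiv (by simp))
      have hgs : HasCompactSupport (gradient (uX i ((k:ℝ)+1))) := by
        unfold gradient
        exact ((uX_compact i (by positivity)).fderiv (𝕜 := ℝ)).comp_left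
          (g := (InnerProductSpace.toDual ℝ (E n)).symm) (by simp)
      have h2 : HasCompactSupport (fun x => ‖gradient (uX i ((k:ℝ)+1)) x‖^2) :=
        hgs.comp_left (g := fun v : E n => ‖v‖^2) (by simp)
      exact ((hWc _).mul (hgc'.norm.pow 2)).integrable_of_hasCompactSupport h2.mul_left
    have h1 := Finset.sum_le_sum (fun i (_ : i ∈ Finset.univ) => hi k i)
    rw [← Finset.mul_sum, ← integral_finsetSum _ i1, ← integral_finsetSum _ i2] at h1
    have e1 : ∀ x : E n, ∑ i, (1+‖x‖^2)^(α-1) * (uX i ((k:ℝ)+1) x)^2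
        = (1+‖x‖^2)^(α-1) * (‖x‖^2 * uN 0 ((k:ℝ)+1) x^2) := by
      intro x
      simp only [uX]
      rw [← Finset.mul_sum]
      congr 1
      have hx : ‖x‖^2 = ∑ i, (x i)^2 := EuclideanSpace.real_norm_sq_eq x
      rw [hx, Finset.sum_mul]
      congr 1
      funext i
      ring
    have e2 : ∀ x : E n, ∑ i, (1+‖x‖^2)^α * ‖gradient (uX i ((k:ℝ)+1)) x‖^2
        = (1+‖x‖^2)^α * (n * uN 0 ((k:ℝ)+1) x^2
        + 4 * ‖x‖^2 * (uN 0 ((k:ℝ)+1) x * gN 0 ((k:ℝ)+1) x)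
        + 4 * ‖x‖^2 * ‖x‖^2 * gN 0 ((k:ℝ)+1) x^2) := by
      intro x
      simp only [uX_grad]
      rw [← Finset.mul_sum]
      congr 1
      have hx : ‖x‖^2 = ∑ i, (x i)^2 := EuclideanSpace.real_norm_sq_eq x
      rw [Finset.sum_add_distrib, Finset.sum_add_distrib, Finset.sum_const, Finset.card_univ,
        Fintype.card_fin, nsmul_eq_mul]
      congr 1
      · congr 1
        rw [← Finset.sum_mul, ← Finset.mul_sum, ← hx]
      · rw [← Finset.sum_mul, ← Finset.sum_mul, ← Finset.mul_sum, ← hx]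
    simp_rw [e1, e2] at h1
    exact h1
  obtain ⟨C, hC0, hC⟩ := gN_bound (n := n) 0
  have hCb : ∀ (k : ℕ) (x : E n), (1+‖x‖^2) * |gN 0 ((k:ℝ)+1) x| ≤ C := by
    intro k x
    have h1 := hC _ (one_le_k k) x
    have hW := W_pos x
    have e : (1+‖x‖^2)^(-(0:ℝ)-1) = (1+‖x‖^2)⁻¹ := by
      rw [neg_zero, zero_sub, Real.rpow_neg_one]
    rw [e] at h1
    calc (1+‖x‖^2) * |gN 0 ((k:ℝ)+1) x| ≤ (1+‖x‖^2) * (C * (1+‖x‖^2)⁻¹) := by gcongr
      _ = C := by field_simp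
  have hu1 : ∀ (k : ℕ) (x : E n), uN 0 ((k:ℝ)+1) x ≤ 1 := by
    intro k x
    have := uN_le 0 ((k:ℝ)+1) x
    simpa using this
  -- limits
  have L1 : Tendsto (fun k : ℕ => ∫ x : E n, (1+‖x‖^2)^(α-1) * (‖x‖^2 * uN 0 ((k:ℝ)+1) x^2)) atTop
      (𝓝 (∫ x : E n, ‖x‖^2 * (1+‖x‖^2)^(α-1))) := by
    apply tendsto_integral_of_dominated_convergence (fun x : E n => (1+‖x‖^2)^α)
    · intro k
      have h1 := hWc (α-1)
      have h2 := huc 0 k
      apply Continuous.aestronglyMeasurable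
      fun_prop
    · exact integrable_W hα
    · intro k
      filter_upwards with x
      have hW := W_pos x
      have h0 := uN_nonneg 0 ((k:ℝ)+1) x
      have h1 := hu1 k x
      rw [Real.norm_of_nonneg (by positivity)]
      calc (1+‖x‖^2)^(α-1) * (‖x‖^2 * uN 0 ((k:ℝ)+1) x^2)
          ≤ (1+‖x‖^2)^(α-1) * ((1+‖x‖^2) * 1^2) := by
            gcongr
            linarith
        _ = (1+‖x‖^2)^α := by
            rw [one_pow, mul_one, ← Real.rpow_add_one hW.ne']; congr 1; ring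
    · filter_upwards with x
      apply tendsto_const_nhds.congr'
      filter_upwards [uN_eventually 0 x] with k hk
      rw [hk]; simp; ring
  have L2 : Tendsto (fun k : ℕ => ∫ x : E n, (1+‖x‖^2)^α * (n * uN 0 ((k:ℝ)+1) x^2
        + 4 * ‖x‖^2 * (uN 0 ((k:ℝ)+1) x * gN 0 ((k:ℝ)+1) x)
        + 4 * ‖x‖^2 * ‖x‖^2 * gN 0 ((k:ℝ)+1) x^2)) atTop
      (𝓝 (∫ x : E n, n * (1+‖x‖^2)^α)) := by
    apply tendsto_integral_of_dominated_convergence
      (fun x : E n => (n + 4*C + 4*C^2) * (1+‖x‖^2)^α)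
    · intro k
      have h1 := hWc α
      have h2 := huc 0 k
      have h3 := hgc 0 k
      apply Continuous.aestronglyMeasurable
      fun_prop
    · exact (integrable_W hα).const_mul _
    · intro k
      filter_upwards with x
      have hW := W_pos x
      have hWp : 0 < (1+‖x‖^2)^α := Real.rpow_pos_of_pos hW _
      have h0 := uN_nonneg 0 ((k:ℝ)+1) x
      have h1 := hu1 k x
      have h2 := hCb k x
      have hg0 : 0 ≤ |gN 0 ((k:ℝ)+1) x| := abs_nonneg _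
      have hxg : ‖x‖^2 * |gN 0 ((k:ℝ)+1) x| ≤ C := by
        calc ‖x‖^2 * |gN 0 ((k:ℝ)+1) x| ≤ (1+‖x‖^2) * |gN 0 ((k:ℝ)+1) x| := by
              gcongr; linarith
          _ ≤ C := h2
      have hxg0 : 0 ≤ ‖x‖^2 * |gN 0 ((k:ℝ)+1) x| := by positivity
      rw [norm_mul, Real.norm_of_nonneg hWp.le, mul_comm]
      apply mul_le_mul_of_nonneg_right _ hWp.le
      rw [Real.norm_eq_abs]
      have a1 : |(n:ℝ) * uN 0 ((k:ℝ)+1) x^2| ≤ n := by
        rw [abs_of_nonneg (by positivity)]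
        have : uN 0 ((k:ℝ)+1) x^2 ≤ 1 := pow_le_one₀ h0 h1
        nlinarith
      have a2 : |4 * ‖x‖^2 * (uN 0 ((k:ℝ)+1) x * gN 0 ((k:ℝ)+1) x)| ≤ 4*C := by
        rw [abs_mul, abs_mul (uN 0 _ x), abs_of_nonneg (by positivity : 0 ≤ 4*‖x‖^2),
          abs_of_nonneg h0]
        calc 4 * ‖x‖^2 * (uN 0 ((k:ℝ)+1) x * |gN 0 ((k:ℝ)+1) x|)
            = 4 * (uN 0 ((k:ℝ)+1) x * (‖x‖^2 * |gN 0 ((k:ℝ)+1) x|)) := by ring
          _ ≤ 4 * (1 * C) := by gcongr
          _ = 4*C := by ring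
      have a3 : |4 * ‖x‖^2 * ‖x‖^2 * gN 0 ((k:ℝ)+1) x^2| ≤ 4*C^2 := by
        rw [abs_of_nonneg (by positivity), ← sq_abs (gN 0 _ x)]
        calc 4 * ‖x‖^2 * ‖x‖^2 * |gN 0 ((k:ℝ)+1) x|^2
            = 4 * (‖x‖^2 * |gN 0 ((k:ℝ)+1) x|)^2 := by ring
          _ ≤ 4 * C^2 := by gcongr
      exact (abs_add_le _ _).trans (add_le_add ((abs_add_le _ _).trans (add_le_add a1 a2)) a3)
    · filter_upwards with x
      apply tendsto_const_nhds.congr'
      filter_upwards [uN_eventually 0 x, gN_eventually 0 x] with k hk hk'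
      rw [hk, hk']; simp; ring
  have hfin := le_of_tendsto_of_tendsto' (L1.const_mul c) L2 hsum
  rw [integral_const_mul] at hfin
  have hid := integral_identity hα
  have hJpos : 0 < ∫ x : E n, ‖x‖^2 * (1+‖x‖^2)^(α-1) := by
    have hI := I_pos (n := n) hα
    have hnI : 0 < (n:ℝ) * ∫ x : E n, (1+‖x‖^2)^α := by positivity
    by_contra hcon
    push Not at hcon
    have h1 : 0 ≤ 2 * α * ∫ x : E n, ‖x‖^2 * (1+‖x‖^2)^(α-1) :=
      mul_nonneg_of_nonpos_of_nonpos (by linarith) hcon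
    linarith
  have h9 : c * (∫ x : E n, ‖x‖^2 * (1+‖x‖^2)^(α-1))
      ≤ (-2*α) * (∫ x : E n, ‖x‖^2 * (1+‖x‖^2)^(α-1)) := by
    linarith
  exact le_of_mul_le_mul_right h9 hJpos

end upper2

end PoolH296.WHardy
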